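import Pool.Agent.Helper76.PK.CertDefs

/-!
# PK-08: properties of `al2`, `lam` and `sgn`

* `al2_nonneg`: the weights of `alphas` are 1 or 2. `al2_pos_imp`: if `al2 v ≠ 0` then one of the 24 chains holds; each of them contains all eight indices, so `v` is injective and (`0, 1, 2, 3` occur in this order in all the lists) `v 0 < v 1 < v 2 < v 3`.
* `al2_congr`: if `v i < v j ↔ v' i < v' j` for all `i, j` then all chains agree (`Nat.blt`). `T4_congr`, `T3_congr`: the same, `inI`, `inJ` are comparisons too (all the entries which are compared are values of `v`; note `i1, i2, j1, j2 ≤ 5` in `items`; for `T3` only the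
  indices `≤ 5` occur).
* `T4_swp`: `swp (swp v) = v` (`funext`, cases), so `T4 (swp v) = T4 v` (`add_comm`).
* `lam_congr5`: `items` uses only the indices `≤ 5`.
* `lam_self`: if `wu = v 4`, `wo = v 5` then every `sgn` is `0`: in every item the interval `(i1, i2)` or `J` has the endpoints `4, 5` (in some order), and the endpoints of an interval lie neither in `inI` nor in `inJ`; the chain of the item gives the order. By cases over the 24 items.
-/

set_option autoImplicit false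

namespace Pool.Agent.Helper76.PK

private theorem AlLem_blt {a b : ℕ} : Nat.blt a b = true ↔ a < b := by
  rw [Nat.blt_eq]

private theorem AlLem_blt_congr {a b c d : ℕ} (h : a < b ↔ c < d) : Nat.blt a b = Nat.blt c d := by
  rw [Bool.eq_iff_iff, AlLem_blt, AlLem_blt]
  exact h

private theorem AlLem_chain_congr (v v' : Fin 8 → ℕ) :
    ∀ l : List (Fin 8), (∀ i ∈ l, ∀ j ∈ l, (v i < v j ↔ v' i < v' j)) → chain v l = chain v' l
  | [], _ => rfl
  | [_], _ => rfl
  | a :: b :: l, h => by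
    have h1 := AlLem_chain_congr v v' (b :: l) (fun i hi j hj =>
      h i (List.mem_cons_of_mem _ hi) j (List.mem_cons_of_mem _ hj))
    have h2 : Nat.blt (v a) (v b) = Nat.blt (v' a) (v' b) :=
      AlLem_blt_congr (h a (by simp) b (by simp))
    show (Nat.blt (v a) (v b) && chain v (b :: l)) = (Nat.blt (v' a) (v' b) && chain v' (b :: l))
    rw [h1, h2]

private theorem AlLem_chain_isChain (v : Fin 8 → ℕ) :
    ∀ l : List (Fin 8), chain v l = true → l.Pairwise (fun a b => v a < v b)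
  | [], _ => List.Pairwise.nil
  | [a], _ => List.pairwise_singleton _ _
  | a :: b :: l, h => by
    have h0 : (Nat.blt (v a) (v b) && chain v (b :: l)) = true := h
    rw [Bool.and_eq_true, AlLem_blt] at h0
    have h1 := AlLem_chain_isChain v (b :: l) h0.2
    rw [List.pairwise_cons]
    refine ⟨fun c hc => ?_, h1⟩
    rcases List.mem_cons.1 hc with rfl | hc
    · exact h0.1
    · exact h0.1.trans (List.rel_of_pairwise_cons h1 hc)

private theorem AlLem_chain_lt (v : Fin 8 → ℕ) (l : List (Fin 8)) (h : chain v l = true)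
    (i j : Fin 8) (hj : j ∈ l) (hij : l.idxOf i < l.idxOf j) : v i < v j := by
  have h1 := AlLem_chain_isChain v l h
  have hj' : l.idxOf j < l.length := List.idxOf_lt_length_iff.2 hj
  have hi' : l.idxOf i < l.length := hij.trans hj'
  have h2 := List.pairwise_iff_getElem.1 h1 _ _ hi' hj' hij
  rw [List.getElem_idxOf, List.getElem_idxOf] at h2
  exact h2

private theorem AlLem_alphas : ∀ t ∈ alphas, 0 ≤ t.1 ∧ (∀ i, i ∈ t.2) ∧
    t.2.idxOf 0 < t.2.idxOf 1 ∧ t.2.idxOf 1 < t.2.idxOf 2 ∧ t.2.idxOf 2 < t.2.idxOf 3 := by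
  decide

private theorem AlLem_items : ∀ t ∈ items, (∀ i ∈ t.2.1, i.val < 6) ∧ t.2.2.1.val < 6 ∧
    t.2.2.2.1.val < 6 ∧ t.2.2.2.2.2.1.val < 6 ∧ t.2.2.2.2.2.2.val < 6 := by
  decide

theorem al2_nonneg (v : Fin 8 → ℕ) : 0 ≤ al2 v := by
  unfold al2
  apply List.sum_nonneg
  intro x hx
  rw [List.mem_map] at hx
  obtain ⟨t, ht, rfl⟩ := hx
  split_ifs
  · exact (AlLem_alphas t ht).1
  · exact le_rfl

theorem al2_ne_imp (v : Fin 8 → ℕ) (h : al2 v ≠ 0) :
    Function.Injective v ∧ v 0 < v 1 ∧ v 1 < v 2 ∧ v 2 < v 3 := by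
  obtain ⟨t, ht, hc⟩ : ∃ t ∈ alphas, chain v t.2 = true := by
    by_contra hcon
    push Not at hcon
    apply h
    unfold al2
    apply List.sum_eq_zero
    intro x hx
    rw [List.mem_map] at hx
    obtain ⟨t, ht, rfl⟩ := hx
    rw [if_neg (hcon t ht)]
  obtain ⟨-, h1, h2, h3, h4⟩ := AlLem_alphas t ht
  refine ⟨?_, AlLem_chain_lt v t.2 hc _ _ (h1 _) h2, AlLem_chain_lt v t.2 hc _ _ (h1 _) h3,
    AlLem_chain_lt v t.2 hc _ _ (h1 _) h4⟩
  intro i j hij
  by_contra hne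
  have h5 : t.2.idxOf i ≠ t.2.idxOf j := fun h6 => hne ((List.idxOf_inj (h1 i)).1 h6)
  rcases Nat.lt_or_gt_of_ne h5 with h6 | h6
  · exact absurd hij (AlLem_chain_lt v t.2 hc _ _ (h1 _) h6).ne
  · exact absurd hij (AlLem_chain_lt v t.2 hc _ _ (h1 _) h6).ne'

theorem al2_congr (v v' : Fin 8 → ℕ) (h : ∀ i j, v i < v j ↔ v' i < v' j) : al2 v = al2 v' := by
  unfold al2
  congr 1
  apply List.map_congr_left
  intro t _
  rw [AlLem_chain_congr v v' t.2 (fun i _ j _ => h i j)]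

private theorem AlLem_sgn_congr (i1 i2 j1 j2 wu wo i1' i2' j1' j2' wu' wo' : ℕ) (out : Bool)
    (h1 : i1 < wo ↔ i1' < wo') (h2 : wo < i2 ↔ wo' < i2') (h3 : i1 < wu ↔ i1' < wu')
    (h4 : wu < i2 ↔ wu' < i2') (h5 : j1 < wo ↔ j1' < wo') (h6 : wo < j2 ↔ wo' < j2')
    (h7 : j1 < wu ↔ j1' < wu') (h8 : wu < j2 ↔ wu' < j2')
    (h9 : wo < j1 ↔ wo' < j1') (h10 : j2 < wo ↔ j2' < wo')
    (h11 : wu < j1 ↔ wu' < j1') (h12 : j2 < wu ↔ j2' < wu') :
    sgn i1 i2 out j1 j2 wu wo = sgn i1' i2' out j1' j2' wu' wo' := by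
  unfold sgn inJ inI outI
  rw [AlLem_blt_congr h1, AlLem_blt_congr h2, AlLem_blt_congr h3, AlLem_blt_congr h4,
    AlLem_blt_congr h5, AlLem_blt_congr h6, AlLem_blt_congr h7, AlLem_blt_congr h8,
    AlLem_blt_congr h9, AlLem_blt_congr h10, AlLem_blt_congr h11, AlLem_blt_congr h12]

private theorem AlLem_lam_congr (v v' : Fin 8 → ℕ) (P : Fin 8 → Prop) (hP : ∀ i, i.val < 6 → P i)
    (h : ∀ i j, P i → P j → (v i < v j ↔ v' i < v' j)) (a b : Fin 8) (ha : P a) (hb : P b) :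
    lam v (v a) (v b) = lam v' (v' a) (v' b) := by
  unfold lam
  congr 1
  apply List.map_congr_left
  intro t ht
  obtain ⟨h1, h2, h3, h4, h5⟩ := AlLem_items t ht
  rw [AlLem_chain_congr v v' t.2.1 (fun i hi j hj => h i j (hP i (h1 i hi)) (hP j (h1 j hj)))]
  rw [AlLem_sgn_congr (v t.2.2.1) (v t.2.2.2.1) (v t.2.2.2.2.2.1) (v t.2.2.2.2.2.2) (v a) (v b)
    (v' t.2.2.1) (v' t.2.2.2.1) (v' t.2.2.2.2.2.1) (v' t.2.2.2.2.2.2) (v' a) (v' b)
    t.2.2.2.2.1 (h _ _ (hP _ h2) hb) (h _ _ hb (hP _ h3)) (h _ _ (hP _ h2) ha)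
    (h _ _ ha (hP _ h3)) (h _ _ (hP _ h4) hb) (h _ _ hb (hP _ h5)) (h _ _ (hP _ h4) ha)
    (h _ _ ha (hP _ h5)) (h _ _ hb (hP _ h4)) (h _ _ (hP _ h5) hb) (h _ _ ha (hP _ h4))
    (h _ _ (hP _ h5) ha)]

/-- the permutation of the indices which belongs to `swp` -/
private def AlLem_sw (i : Fin 8) : Fin 8 :=
  match i.val with
  | 0 => 0
  | 1 => 1
  | 2 => 2
  | 3 => 3
  | 4 => 6
  | 5 => 7
  | 6 => 4
  | _ => 5

private theorem AlLem_swp (v : Fin 8 → ℕ) (i : Fin 8) : swp v i = v (AlLem_sw i) := by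
  fin_cases i <;> rfl

private theorem AlLem_swp_congr (v v' : Fin 8 → ℕ) (h : ∀ i j, v i < v j ↔ v' i < v' j) :
    ∀ i j, swp v i < swp v j ↔ swp v' i < swp v' j := by
  intro i j
  rw [AlLem_swp, AlLem_swp, AlLem_swp, AlLem_swp]
  exact h _ _

private theorem AlLem_asc2_congr (v v' : Fin 8 → ℕ) (h : ∀ i j, v i < v j ↔ v' i < v' j) :
    asc2 v = asc2 v' := by
  unfold asc2
  rw [AlLem_chain_congr v v' _ (fun i _ j _ => h i j)]

theorem T4_congr (v v' : Fin 8 → ℕ) (h : ∀ i j, v i < v j ↔ v' i < v' j) : T4 v = T4 v' := by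
  have hs := AlLem_swp_congr v v' h
  have h1 : lam v (v 6) (v 7) = lam v' (v' 6) (v' 7) :=
    AlLem_lam_congr v v' (fun _ => True) (fun _ _ => trivial) (fun i j _ _ => h i j) 6 7
      trivial trivial
  have h2 : lam (swp v) (v 4) (v 5) = lam (swp v') (v' 4) (v' 5) :=
    AlLem_lam_congr (swp v) (swp v') (fun _ => True) (fun _ _ => trivial) (fun i j _ _ => hs i j)
      6 7 trivial trivial
  unfold T4
  rw [h1, h2, al2_congr v v' h, al2_congr _ _ hs, AlLem_asc2_congr v v' h, AlLem_asc2_congr _ _ hs]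

theorem T3_congr (v v' : Fin 8 → ℕ)
    (h : ∀ i j : Fin 8, i.val < 6 → j.val < 6 → (v i < v j ↔ v' i < v' j)) : T3 v = T3 v' := by
  have h1 : lam v (v 0) (v 2) = lam v' (v' 0) (v' 2) :=
    AlLem_lam_congr v v' (fun i => i.val < 6) (fun _ hi => hi) h 0 2 (by decide) (by decide)
  have h2 : lam v (v 3) (v 1) = lam v' (v' 3) (v' 1) :=
    AlLem_lam_congr v v' (fun i => i.val < 6) (fun _ hi => hi) h 3 1 (by decide) (by decide)
  have h3 : ∀ l : List (Fin 8), (∀ i ∈ l, i.val < 6) → chain v l = chain v' l := fun l hl =>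
    AlLem_chain_congr v v' l (fun i hi j hj => h i j (hl i hi) (hl j hj))
  unfold T3
  rw [h1, h2, h3 _ (by decide), h3 _ (by decide)]

theorem T4_swp (v : Fin 8 → ℕ) : T4 (swp v) = T4 v := by
  have h1 : swp (swp v) = v := by
    funext i
    fin_cases i <;> rfl
  have h6 : swp v 6 = v 4 := rfl
  have h7 : swp v 7 = v 5 := rfl
  have h4 : swp v 4 = v 6 := rfl
  have h5 : swp v 5 = v 7 := rfl
  unfold T4
  rw [h1, h4, h5, h6, h7]
  ring

theorem lam_congr5 (v v' : Fin 8 → ℕ) (h : ∀ i : Fin 8, i.val < 6 → v i = v' i) (wu wo : ℕ) :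
    lam v wu wo = lam v' wu wo := by
  unfold lam
  congr 1
  apply List.map_congr_left
  intro t ht
  obtain ⟨h1, h2, h3, h4, h5⟩ := AlLem_items t ht
  rw [AlLem_chain_congr v v' t.2.1 (fun i hi j hj => by rw [h i (h1 i hi), h j (h1 j hj)]),
    h _ h2, h _ h3, h _ h4, h _ h5]

private theorem AlLem_sgn_I (a b wu wo j1 j2 : ℕ) (out : Bool)
    (h : (wu = a ∨ wu = b) ∧ (wo = a ∨ wo = b)) : sgn a b out j1 j2 wu wo = 0 := by
  have h1 : inI a b wu = false := by
    unfold inI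
    rcases h.1 with rfl | rfl
    · simp [Nat.blt_eq, Bool.eq_false_iff]
    · simp [Nat.blt_eq, Bool.eq_false_iff]
  have h2 : inI a b wo = false := by
    unfold inI
    rcases h.2 with rfl | rfl
    · simp [Nat.blt_eq, Bool.eq_false_iff]
    · simp [Nat.blt_eq, Bool.eq_false_iff]
  unfold sgn
  rw [h1, h2]
  simp

private theorem AlLem_sgn_J (a b wu wo i1 i2 : ℕ) (out : Bool)
    (h : (wu = a ∨ wu = b) ∧ (wo = a ∨ wo = b)) (hab : a < b) : sgn i1 i2 out a b wu wo = 0 := by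
  have h1 : inJ out a b wu = false := by
    cases out
    · unfold inJ inI
      rcases h.1 with rfl | rfl <;> simp [Bool.eq_false_iff]
    · unfold inJ outI
      rcases h.1 with rfl | rfl
      · simp [Bool.eq_false_iff]
        omega
      · simp [Bool.eq_false_iff]
        omega
  have h2 : inJ out a b wo = false := by
    cases out
    · unfold inJ inI
      rcases h.2 with rfl | rfl <;> simp [Bool.eq_false_iff]
    · unfold inJ outI
      rcases h.2 with rfl | rfl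
      · simp [Bool.eq_false_iff]
        omega
      · simp [Bool.eq_false_iff]
        omega
  unfold sgn
  rw [h1, h2]
  simp

/-- the items: one of the two intervals has the endpoints `4, 5` -/
private theorem AlLem_items2 : ∀ t ∈ items,
    ((t.2.2.1 = 4 ∧ t.2.2.2.1 = 5) ∨ (t.2.2.1 = 5 ∧ t.2.2.2.1 = 4)) ∨
    (t.2.2.2.2.2.1 = 4 ∧ t.2.2.2.2.2.2 = 5 ∧ t.2.1.idxOf 4 < t.2.1.idxOf 5 ∧ (5 : Fin 8) ∈ t.2.1) ∨
    (t.2.2.2.2.2.1 = 5 ∧ t.2.2.2.2.2.2 = 4 ∧ t.2.1.idxOf 5 < t.2.1.idxOf 4 ∧ (4 : Fin 8) ∈ t.2.1) := by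
  decide

theorem lam_self (v : Fin 8 → ℕ) : lam v (v 4) (v 5) = 0 := by
  unfold lam
  apply List.sum_eq_zero
  intro x hx
  rw [List.mem_map] at hx
  obtain ⟨t, ht, rfl⟩ := hx
  split_ifs with hc
  · have h0 : sgn (v t.2.2.1) (v t.2.2.2.1) t.2.2.2.2.1 (v t.2.2.2.2.2.1) (v t.2.2.2.2.2.2)
        (v 4) (v 5) = 0 := by
      rcases AlLem_items2 t ht with (⟨h1, h2⟩ | ⟨h1, h2⟩) | ⟨h1, h2, h3, h4⟩ | ⟨h1, h2, h3, h4⟩
      · rw [h1, h2]
        exact AlLem_sgn_I _ _ _ _ _ _ _ ⟨Or.inl rfl, Or.inr rfl⟩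
      · rw [h1, h2]
        exact AlLem_sgn_I _ _ _ _ _ _ _ ⟨Or.inr rfl, Or.inl rfl⟩
      · rw [h1, h2]
        exact AlLem_sgn_J _ _ _ _ _ _ _ ⟨Or.inl rfl, Or.inr rfl⟩
          (AlLem_chain_lt v t.2.1 hc _ _ h4 h3)
      · rw [h1, h2]
        exact AlLem_sgn_J _ _ _ _ _ _ _ ⟨Or.inr rfl, Or.inl rfl⟩
          (AlLem_chain_lt v t.2.1 hc _ _ h4 h3)
    rw [h0, mul_zero]
  · rfl

end Pool.Agent.Helper76.PK
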