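import Pool.Agent.Helper76.PK.Travel

/-!
# PK-04: the ascending states with no or two crossings

`asc_empty`: `(allPos G).sm ∅` has no smoothed passages; `seg` from `0`.

`asc_pair`: `x < op y < op x < y` (as passages), `D = (allPos G).sm {x, y}`; the smoothed passages are `x, op y, op x, y`. The travel from `0` (use `seg` for every piece; `tr` at the four smoothed passages):
`0, 1, ..., x`, then `op x + 1, ..., y`, then `op y + 1, ..., op x`, then `x + 1, ..., op y`, then `y + 1, ..., N - 1` (this last piece is empty if `y = N - 1`). So every passage is visited. The lower passage `x` is visited at the time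
`x`, before `op x`; the passage `y` is visited at the time `x + (y - op x)`, before `op y`, which is visited at the time `x + (y - op x) + (op x - op y) + (op y - x) = y`. For the second condition of `Asc` with an arbitrary time `k` with
`tr^[k] 0 = op x` (`op y`): it is enough to find `l < k` with `tr^[l] 0 = x` (`y`); if `k ≤ l0`, `l0` the time above, then `tr^[k] 0` lies in one of the pieces before the time `l0`, and these do not contain `op x` (`op y`).
-/

set_option autoImplicit false

namespace Pool.Agent.Helper76.PK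

open Classical

variable {N : ℕ} [NeZero N] {G : Shadow N}

private theorem AscSmall_zero : (0 : Fin N).val = 0 := Nat.zero_mod N

private theorem AscSmall_step {N : ℕ} {G : Shadow N} (D : Diag G) (b p : Fin N) (k : ℕ)
    (h : D.tr^[k] b = p) (hs : D.st p = .smooth) (hlt : (G.op p).val + 1 < N) :
    (D.tr^[k + 1] b).val = (G.op p).val + 1 := by
  rw [Function.iterate_succ_apply', h]
  unfold Diag.tr
  rw [if_pos hs]
  exact Nat.mod_eq_of_lt hlt

private theorem AscSmall_seg {N : ℕ} {G : Shadow N} (D : Diag G) (b : Fin N) (k c n v : ℕ)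
    (hc : (D.tr^[k] b).val = c) (hn : k ≤ n) (hv : c + (n - k) = v) (hm : v < N)
    (h0 : ∀ q : Fin N, c ≤ q.val → q.val < v → D.st q ≠ .smooth) :
    (D.tr^[n] b).val = v := by
  have h := seg D b _ k (n - k) rfl (by rw [hc, hv]; exact hm) fun q hq hq' =>
    h0 q (by rw [← hc]; exact hq) (by rw [← hv, ← hc]; exact hq')
  rw [Nat.add_sub_cancel' hn] at h
  rw [h]
  show (D.tr^[k] b).val + (n - k) = v
  rw [hc, hv]

theorem asc_empty : Asc (allPos G) 0 ∅ := by
  constructor
  · intro i
    refine ⟨i.val, Fin.ext ?_⟩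
    exact AscSmall_seg ((allPos G).sm ∅) 0 0 0 i.val i.val AscSmall_zero (Nat.zero_le _)
      (by omega) i.isLt (fun q _ _ => by
        rw [sm_st_not _ _ _ (Finset.notMem_empty _) (Finset.notMem_empty _)]
        exact fun h => St.noConfusion h)
  · intro i hi
    exact absurd hi (Finset.notMem_empty _)

theorem asc_pair {x y : Fin N} (hx : x ∈ und G) (hy : y ∈ und G) (h : A2 G x y) :
    Asc (allPos G) 0 {x, y} := by
  have hab : x.val < (G.op y).val := h.1
  have hbc : (G.op y).val < (G.op x).val := h.2.1
  have hcd : (G.op x).val < y.val := h.2.2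
  have hdN := y.isLt
  obtain ⟨D, hD⟩ : ∃ D, D = (allPos G).sm {x, y} := ⟨_, rfl⟩
  obtain ⟨a, ha⟩ : ∃ a, a = x.val := ⟨_, rfl⟩
  obtain ⟨b, hb⟩ : ∃ b, b = (G.op y).val := ⟨_, rfl⟩
  obtain ⟨c, hc⟩ : ∃ c, c = (G.op x).val := ⟨_, rfl⟩
  obtain ⟨d, hd⟩ : ∃ d, d = y.val := ⟨_, rfl⟩
  rw [← ha, ← hb] at hab
  rw [← hb, ← hc] at hbc
  rw [← hc, ← hd] at hcd
  rw [← hd] at hdN
  have hns : ∀ q : Fin N, q.val ≠ a → q.val ≠ b → q.val ≠ c → q.val ≠ d → D.st q ≠ .smooth := by
    intro q h1 h2 h3 h4
    have h5 : q ∉ ({x, y} : Finset (Fin N)) := by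
      rw [Finset.mem_insert, Finset.mem_singleton]
      rintro (rfl | rfl)
      · exact h1 ha.symm
      · exact h4 hd.symm
    have h6 : G.op q ∉ ({x, y} : Finset (Fin N)) := by
      rw [Finset.mem_insert, Finset.mem_singleton]
      rintro (h6 | h6)
      · exact h3 (by rw [hc, ← h6, G.op_op])
      · exact h2 (by rw [hb, ← h6, G.op_op])
    rw [hD, sm_st_not _ _ _ h5 h6]
    exact fun h => St.noConfusion h
  have hsx : D.st x = .smooth := by
    rw [hD]
    exact sm_st_mem _ _ _ (Or.inl (Finset.mem_insert_self _ _))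
  have hsy : D.st y = .smooth := by
    rw [hD]
    exact sm_st_mem _ _ _ (Or.inl (Finset.mem_insert_of_mem (Finset.mem_singleton_self _)))
  have hsx' : D.st (G.op x) = .smooth := by rw [D.st_op, hsx]
  have hsy' : D.st (G.op y) = .smooth := by rw [D.st_op, hsy]
  have H1 : ∀ m, m ≤ a → (D.tr^[m] 0).val = m := by
    intro m hm
    exact AscSmall_seg D 0 0 0 m m AscSmall_zero (Nat.zero_le _) (by omega) (by omega)
      (fun q _ hq => hns q (by omega) (by omega) (by omega) (by omega))
  have E1 : D.tr^[a] 0 = x := Fin.ext ((H1 a le_rfl).trans ha)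
  have S1 := AscSmall_step D 0 x a E1 hsx (by omega)
  have H2 : ∀ m, a < m → m ≤ a + (d - c) → (D.tr^[m] 0).val = m + c - a := by
    intro m hm hm'
    exact AscSmall_seg D 0 (a + 1) (c + 1) m _ (by omega) (by omega) (by omega) (by omega)
      (fun q hq1 hq => hns q (by omega) (by omega) (by omega) (by omega))
  have E2 : D.tr^[a + (d - c)] 0 = y := Fin.ext ((H2 _ (by omega) le_rfl).trans (by omega))
  have S2 := AscSmall_step D 0 y _ E2 hsy (by omega)
  have H3 : ∀ m, a + (d - c) < m → m ≤ a + (d - b) →
      (D.tr^[m] 0).val = m + b + c - a - d := by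
    intro m hm hm'
    exact AscSmall_seg D 0 (a + (d - c) + 1) (b + 1) m _ (by omega) (by omega) (by omega)
      (by omega) (fun q hq1 hq => hns q (by omega) (by omega) (by omega) (by omega))
  have E3 : D.tr^[a + (d - b)] 0 = G.op x := Fin.ext ((H3 _ (by omega) le_rfl).trans (by omega))
  have hxx : (G.op (G.op x)).val = a := by rw [G.op_op, ha]
  have S3 := AscSmall_step D 0 (G.op x) _ E3 hsx' (by omega)
  have H4 : ∀ m, a + (d - b) < m → m ≤ d → (D.tr^[m] 0).val = m + b - d := by
    intro m hm hm'
    exact AscSmall_seg D 0 (a + (d - b) + 1) (a + 1) m _ (by omega) (by omega) (by omega)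
      (by omega) (fun q hq1 hq => hns q (by omega) (by omega) (by omega) (by omega))
  have E4 : D.tr^[d] 0 = G.op y := Fin.ext ((H4 _ (by omega) le_rfl).trans (by omega))
  have hyy : (G.op (G.op y)).val = d := by rw [G.op_op, hd]
  rw [Asc, ← hD]
  constructor
  · intro i
    have hi := i.isLt
    by_cases h1 : i.val ≤ a
    · exact ⟨i.val, Fin.ext (H1 _ h1)⟩
    by_cases h2 : i.val ≤ b
    · exact ⟨i.val + d - b, Fin.ext ((H4 _ (by omega) (by omega)).trans (by omega))⟩
    by_cases h3 : i.val ≤ c
    · exact ⟨i.val + a + d - b - c, Fin.ext ((H3 _ (by omega) (by omega)).trans (by omega))⟩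
    by_cases h4 : i.val ≤ d
    · exact ⟨i.val + a - c, Fin.ext ((H2 _ (by omega) (by omega)).trans (by omega))⟩
    · have S4 := AscSmall_step D 0 (G.op y) _ E4 hsy' (by omega)
      exact ⟨i.val, Fin.ext (AscSmall_seg D 0 (d + 1) (d + 1) i.val _ (by omega) (by omega)
        (by omega) hi (fun q hq1 hq => hns q (by omega) (by omega) (by omega) (by omega)))⟩
  · intro i hi k hk
    have hk' := congrArg Fin.val hk
    rw [Finset.mem_insert, Finset.mem_singleton] at hi
    rcases hi with rfl | rfl
    · refine ⟨a, ?_, E1⟩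
      by_contra hka
      have h1 := H1 k (by omega)
      omega
    · refine ⟨a + (d - c), ?_, E2⟩
      by_contra hka
      by_cases h3 : k ≤ a
      · have h1 := H1 k h3
        omega
      · have h4 := H2 k (by omega) (by omega)
        omega

end Pool.Agent.Helper76.PK
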