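import Pool.Agent.Helper76.PK.Defs

/-!
# Project PK: the certificate (definitions)

The passages `x_u, y_o, x_o, y_u` of an ascending pair `x, y` have the indices `0, 1, 2, 3`, the passages `z_u, z_o, w_u, w_o` of two further crossings the
indices `4, 5, 6, 7` (`u` is the lower passage, `o` the upper one). `v : Fin 8 → ℕ` gives the positions.

* `items`: `(coefficient, order of x, y, z, i1, i2, out, j1, j2)`: the relation of the loop `I = (i1, i2)` and the loop `J = (j1, j2)`, or the complement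
  of `(j1, j2)` if `out`.
* `alphas`: the ascending one-component states of four crossings, with weights.
-/

set_option autoImplicit false

namespace Pool.Agent.Helper76.PK

/-- The vector with eight entries. -/
def vec (a b c d p q r s : ℕ) (i : Fin 8) : ℕ :=
  match i.val with
  | 0 => a
  | 1 => b
  | 2 => c
  | 3 => d
  | 4 => p
  | 5 => q
  | 6 => r
  | _ => s

/-- The positions are in the order given by the list. -/
def chain (v : Fin 8 → ℕ) : List (Fin 8) → Bool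
  | a :: b :: l => Nat.blt (v a) (v b) && chain v (b :: l)
  | _ => true

/-- The loop relations. -/
def items : List (ℤ × List (Fin 8) × Fin 8 × Fin 8 × Bool × Fin 8 × Fin 8) :=
  [(-1, [4, 0, 5, 1, 2, 3], 4, 5, true, 4, 5),
   (-1, [4, 5, 0, 1, 2, 3], 4, 5, false, 0, 2),
   (-1, [4, 0, 1, 5, 2, 3], 4, 5, true, 4, 5),
   (-1, [0, 4, 1, 2, 5, 3], 4, 5, true, 4, 5),
   (-1, [0, 4, 1, 5, 2, 3], 4, 5, true, 4, 5),
   (-1, [4, 0, 1, 2, 5, 3], 0, 2, true, 4, 5),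
   (-1, [0, 4, 5, 1, 2, 3], 4, 5, false, 1, 3),
   (-1, [0, 1, 2, 4, 5, 3], 0, 2, false, 4, 5),
   (1, [0, 1, 2, 5, 3, 4], 0, 2, false, 5, 4),
   (-1, [0, 5, 1, 2, 4, 3], 5, 4, true, 5, 4),
   (1, [0, 1, 2, 5, 4, 3], 0, 2, false, 5, 4),
   (-1, [0, 5, 1, 4, 2, 3], 5, 4, true, 5, 4),
   (1, [0, 5, 1, 4, 2, 3], 5, 4, true, 0, 2),
   (-1, [0, 1, 4, 2, 5, 3], 4, 5, true, 4, 5),
   (1, [0, 1, 4, 2, 5, 3], 4, 5, true, 1, 3),
   (-1, [0, 1, 4, 5, 2, 3], 4, 5, true, 0, 2),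
   (1, [0, 1, 4, 5, 2, 3], 4, 5, true, 1, 3),
   (-1, [0, 1, 5, 2, 3, 4], 5, 4, true, 5, 4),
   (-1, [0, 1, 5, 2, 4, 3], 5, 4, true, 5, 4),
   (-1, [0, 5, 1, 2, 3, 4], 1, 3, true, 5, 4),
   (1, [0, 1, 5, 4, 2, 3], 5, 4, true, 0, 2),
   (-1, [0, 1, 5, 4, 2, 3], 5, 4, true, 1, 3),
   (1, [0, 1, 2, 3, 5, 4], 1, 3, false, 5, 4),
   (1, [0, 5, 4, 1, 2, 3], 5, 4, false, 1, 3)]

/-- The assignment of the states. -/
def alphas : List (ℤ × List (Fin 8)) :=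
  [(2, [0, 4, 1, 2, 3, 7, 5, 6]),
   (2, [0, 4, 1, 2, 6, 5, 7, 3]),
   (2, [0, 4, 7, 5, 6, 1, 2, 3]),
   (2, [0, 4, 7, 5, 1, 2, 3, 6]),
   (2, [0, 4, 1, 6, 5, 7, 2, 3]),
   (1, [0, 4, 7, 1, 2, 3, 5, 6]),
   (1, [4, 0, 1, 7, 5, 6, 2, 3]),
   (2, [0, 1, 2, 3, 4, 7, 5, 6]),
   (1, [0, 1, 2, 4, 3, 7, 5, 6]),
   (1, [4, 7, 5, 0, 6, 1, 2, 3]),
   (2, [0, 1, 2, 4, 7, 3, 5, 6]),
   (2, [4, 7, 5, 0, 1, 2, 6, 3]),
   (2, [4, 7, 5, 0, 1, 2, 3, 6]),
   (1, [0, 1, 4, 2, 3, 7, 5, 6]),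
   (1, [4, 7, 0, 5, 6, 1, 2, 3]),
   (2, [0, 1, 4, 2, 6, 5, 7, 3]),
   (2, [0, 5, 6, 1, 2, 4, 7, 3]),
   (2, [0, 5, 6, 1, 4, 7, 2, 3]),
   (2, [4, 7, 0, 1, 2, 5, 6, 3]),
   (2, [4, 7, 0, 1, 2, 3, 5, 6]),
   (2, [0, 5, 7, 4, 1, 2, 6, 3]),
   (2, [0, 5, 7, 4, 1, 6, 2, 3]),
   (2, [0, 1, 5, 6, 2, 4, 7, 3]),
   (2, [0, 1, 5, 7, 4, 2, 6, 3])]

/-- The position `p` lies in the open interval `(a, b)`. -/
def inI (a b p : ℕ) : Bool := Nat.blt a p && Nat.blt p b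

/-- The position `p` lies outside of the interval `[a, b]`. -/
def outI (a b p : ℕ) : Bool := Nat.blt p a || Nat.blt b p

/-- `p` lies in the loop `J`. -/
def inJ (out : Bool) (a b p : ℕ) : Bool := if out then outI a b p else inI a b p

/-- The contribution of the crossing with the lower passage `wu` and the upper passage `wo` to a loop relation: `1` if `I` passes over `J`, `-1` if `J` passes
over `I`. -/
def sgn (i1 i2 : ℕ) (out : Bool) (j1 j2 wu wo : ℕ) : ℤ :=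
  (if inI i1 i2 wo && inJ out j1 j2 wu then 1 else 0) - (if inI i1 i2 wu && inJ out j1 j2 wo then 1 else 0)

/-- The sum of the relations. -/
def lam (v : Fin 8 → ℕ) (wu wo : ℕ) : ℤ :=
  (items.map fun t => if chain v t.2.1 then
    t.1 * sgn (v t.2.2.1) (v t.2.2.2.1) t.2.2.2.2.1 (v t.2.2.2.2.2.1) (v t.2.2.2.2.2.2) wu wo else 0).sum

/-- Twice the weight of the state `x, y, z, w`. -/
def al2 (v : Fin 8 → ℕ) : ℤ := (alphas.map fun t => if chain v t.2 then t.1 else 0).sum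

/-- Exchange `z` and `w`. -/
def swp (v : Fin 8 → ℕ) : Fin 8 → ℕ := vec (v 0) (v 1) (v 2) (v 3) (v 6) (v 7) (v 4) (v 5)

/-- The pair `z, w` is ascending. -/
def asc2 (v : Fin 8 → ℕ) : ℤ := if chain v [4, 7, 5, 6] then 1 else 0

/-- The contribution of two further crossings. -/
def T4 (v : Fin 8 → ℕ) : ℤ :=
  2 * (asc2 v + asc2 (swp v)) + (lam v (v 6) (v 7) + lam (swp v) (v 4) (v 5)) - (al2 v + al2 (swp v))

/-- The contribution of one further crossing. -/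
def T3 (v : Fin 8 → ℕ) : ℤ :=
  2 * ((if chain v [0, 5, 2, 4] then 1 else 0) + (if chain v [4, 1, 5, 3] then 1 else 0)) +
    (lam v (v 0) (v 2) + lam v (v 3) (v 1))

/-- The positions of the passages of four crossings with the lower passages `x, y, z, w`. -/
def pv {N : ℕ} (G : Shadow N) (x y z w : Fin N) : Fin 8 → ℕ :=
  vec x (G.op y) (G.op x) y z (G.op z) w (G.op w)

end Pool.Agent.Helper76.PK
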