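import Pool.Agent.Helper76.PK.AlLem

/-!
# PK-09: the pointwise inequalities

`chk4_true` is proved here by a kernel computation (45 seconds). `T4_nonneg`: let `r t` be the number of the `j` with `v j < t`, `ρ i = r (v i)`. `v` is injective, so `ρ i < 8` and `v i < v j ↔ ρ i < ρ j`, so `ρ` is injective and `T4 v = T4 ρ` (`T4_congr`). If `ρ 4 < ρ 6`
then `chk4_true` gives `0 ≤ T4 ρ` (`ρ = vec (ρ 0) ... (ρ 7)`; `List.all_eq_true`, `List.mem_range`; `Nat.blt` is `decide (_ < _)`: `Nat.blt_eq`). Otherwise `ρ 6 < ρ 4` and `T4 ρ = T4 (swp ρ)` (`T4_swp`).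
`T3_nonneg`: the same with the six values `v 0, ..., v 5` (`T3_congr`) and an analogous check `chk3`: for `a < b < c < d < 6` and `p, q < 6` different, `0 ≤ T3 (vec a b c d p q 0 0)` (`decide +kernel`, fast).
-/

set_option autoImplicit false

namespace Pool.Agent.Helper76.PK

def chk4 : Bool :=
  (List.range 8).all fun a => (List.range 8).all fun b => !(Nat.blt a b) ||
  (List.range 8).all fun c => !(Nat.blt b c) || (List.range 8).all fun d => !(Nat.blt c d) ||
  (List.range 8).all fun p => ([a, b, c, d].elem p) ||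
  (List.range 8).all fun q => ([a, b, c, d, p].elem q) ||
  (List.range 8).all fun r => ([a, b, c, d, p, q].elem r) || Nat.blt r p ||
  (List.range 8).all fun s => ([a, b, c, d, p, q, r].elem s) ||
  decide (0 ≤ T4 (vec a b c d p q r s))

set_option maxRecDepth 100000 in
theorem chk4_true : chk4 = true := by decide +kernel

private theorem chk4_spec {a b c d p q r s : ℕ} (ha : a < 8) (hb : b < 8) (hc : c < 8) (hd : d < 8) (hp : p < 8)
    (hq : q < 8) (hr : r < 8) (hs : s < 8) (hab : a < b) (hbc : b < c) (hcd : c < d)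
    (hp' : p ∉ [a, b, c, d]) (hq' : q ∉ [a, b, c, d, p]) (hr' : r ∉ [a, b, c, d, p, q]) (hpr : p < r)
    (hs' : s ∉ [a, b, c, d, p, q, r]) : 0 ≤ T4 (vec a b c d p q r s) := by
  have h := chk4_true
  unfold chk4 at h
  have e1 : Nat.blt a b = true := by rw [Nat.blt_eq]; exact hab
  have e2 : Nat.blt b c = true := by rw [Nat.blt_eq]; exact hbc
  have e3 : Nat.blt c d = true := by rw [Nat.blt_eq]; exact hcd
  have e4 : Nat.blt r p = false := by
    rw [← Bool.not_eq_true, Nat.blt_eq]
    omega
  have f1 : [a, b, c, d].elem p = false := by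
    rw [← Bool.not_eq_true, List.elem_iff]
    exact hp'
  have f2 : [a, b, c, d, p].elem q = false := by
    rw [← Bool.not_eq_true, List.elem_iff]
    exact hq'
  have f3 : [a, b, c, d, p, q].elem r = false := by
    rw [← Bool.not_eq_true, List.elem_iff]
    exact hr'
  have f4 : [a, b, c, d, p, q, r].elem s = false := by
    rw [← Bool.not_eq_true, List.elem_iff]
    exact hs'
  rw [List.all_eq_true] at h
  replace h := h a (List.mem_range.2 ha)
  rw [List.all_eq_true] at h
  replace h := h b (List.mem_range.2 hb)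
  rw [e1, Bool.not_true, Bool.false_or, List.all_eq_true] at h
  replace h := h c (List.mem_range.2 hc)
  rw [e2, Bool.not_true, Bool.false_or, List.all_eq_true] at h
  replace h := h d (List.mem_range.2 hd)
  rw [e3, Bool.not_true, Bool.false_or, List.all_eq_true] at h
  replace h := h p (List.mem_range.2 hp)
  rw [f1, Bool.false_or, List.all_eq_true] at h
  replace h := h q (List.mem_range.2 hq)
  rw [f2, Bool.false_or, List.all_eq_true] at h
  replace h := h r (List.mem_range.2 hr)
  rw [f3, Bool.false_or, e4, Bool.false_or, List.all_eq_true] at h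
  replace h := h s (List.mem_range.2 hs)
  rw [f4, Bool.false_or] at h
  exact of_decide_eq_true h

private def rk (S : Finset (Fin 8)) (v : Fin 8 → ℕ) (i : Fin 8) : ℕ := (S.filter fun j => v j < v i).card

private theorem rk_lt_iff (S : Finset (Fin 8)) (v : Fin 8 → ℕ) {i j : Fin 8} (hi : i ∈ S) :
    v i < v j ↔ rk S v i < rk S v j := by
  constructor
  · intro h
    apply Finset.card_lt_card
    rw [Finset.ssubset_iff_of_subset]
    · exact ⟨i, Finset.mem_filter.2 ⟨hi, h⟩, fun h2 => lt_irrefl _ (Finset.mem_filter.1 h2).2⟩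
    · intro k hk
      have hk' := Finset.mem_filter.1 hk
      exact Finset.mem_filter.2 ⟨hk'.1, hk'.2.trans h⟩
  · intro h
    by_contra h2
    rw [not_lt] at h2
    apply absurd h
    rw [not_lt]
    apply Finset.card_le_card
    intro k hk
    have hk' := Finset.mem_filter.1 hk
    exact Finset.mem_filter.2 ⟨hk'.1, hk'.2.trans_le h2⟩

private theorem rk_lt_card (S : Finset (Fin 8)) (v : Fin 8 → ℕ) {i : Fin 8} (hi : i ∈ S) : rk S v i < S.card := by
  apply Finset.card_lt_card
  rw [Finset.ssubset_iff_of_subset (Finset.filter_subset _ _)]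
  exact ⟨i, hi, fun h2 => lt_irrefl _ (Finset.mem_filter.1 h2).2⟩

private theorem vec_eta (w : Fin 8 → ℕ) : vec (w 0) (w 1) (w 2) (w 3) (w 4) (w 5) (w 6) (w 7) = w := by
  funext i
  fin_cases i <;> rfl

theorem T4_nonneg (v : Fin 8 → ℕ) (hv : Function.Injective v) (h01 : v 0 < v 1)
    (h12 : v 1 < v 2) (h23 : v 2 < v 3) : 0 ≤ T4 v := by
  have hlt : ∀ i j, v i < v j ↔ rk Finset.univ v i < rk Finset.univ v j := fun i j =>
    rk_lt_iff Finset.univ v (Finset.mem_univ i)
  have h8 : ∀ i, rk Finset.univ v i < 8 := fun i => rk_lt_card Finset.univ v (Finset.mem_univ i)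
  rw [T4_congr v (rk Finset.univ v) hlt]
  have hinj : ∀ i j, rk Finset.univ v i = rk Finset.univ v j → i = j := by
    intro i j h
    apply hv
    have h1 : ¬ v i < v j := by rw [hlt]; omega
    have h2 : ¬ v j < v i := by rw [hlt]; omega
    omega
  rw [hlt] at h01 h12 h23
  generalize rk Finset.univ v = w at h8 hinj h01 h12 h23
  have hne : ∀ i j : Fin 8, i ≠ j → w i ≠ w j := fun i j h h2 => h (hinj i j h2)
  rcases lt_or_ge (w 4) (w 6) with h46 | h46
  · rw [← vec_eta w]
    refine chk4_spec (h8 _) (h8 _) (h8 _) (h8 _) (h8 _) (h8 _) (h8 _) (h8 _) h01 h12 h23 ?_ ?_ ?_ h46 ?_ <;>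
      simp [hne]
  · have h64 : w 6 < w 4 := lt_of_le_of_ne h46 (hne 6 4 (by decide))
    rw [← T4_swp]
    unfold swp
    refine chk4_spec (h8 _) (h8 _) (h8 _) (h8 _) (h8 _) (h8 _) (h8 _) (h8 _) h01 h12 h23 ?_ ?_ ?_ h64 ?_ <;>
      simp [hne]

private def chk3 : Bool :=
  (List.range 6).all fun a => (List.range 6).all fun b => !(Nat.blt a b) ||
  (List.range 6).all fun c => !(Nat.blt b c) || (List.range 6).all fun d => !(Nat.blt c d) ||
  (List.range 6).all fun p => ([a, b, c, d].elem p) ||
  (List.range 6).all fun q => ([a, b, c, d, p].elem q) ||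
  decide (0 ≤ T3 (vec a b c d p q 0 0))

set_option maxRecDepth 100000 in
private theorem chk3_true : chk3 = true := by decide +kernel

private theorem chk3_spec {a b c d p q : ℕ} (ha : a < 6) (hb : b < 6) (hc : c < 6) (hd : d < 6) (hp : p < 6)
    (hq : q < 6) (hab : a < b) (hbc : b < c) (hcd : c < d)
    (hp' : p ∉ [a, b, c, d]) (hq' : q ∉ [a, b, c, d, p]) : 0 ≤ T3 (vec a b c d p q 0 0) := by
  have h := chk3_true
  unfold chk3 at h
  have e1 : Nat.blt a b = true := by rw [Nat.blt_eq]; exact hab
  have e2 : Nat.blt b c = true := by rw [Nat.blt_eq]; exact hbc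
  have e3 : Nat.blt c d = true := by rw [Nat.blt_eq]; exact hcd
  have f1 : [a, b, c, d].elem p = false := by
    rw [← Bool.not_eq_true, List.elem_iff]
    exact hp'
  have f2 : [a, b, c, d, p].elem q = false := by
    rw [← Bool.not_eq_true, List.elem_iff]
    exact hq'
  rw [List.all_eq_true] at h
  replace h := h a (List.mem_range.2 ha)
  rw [List.all_eq_true] at h
  replace h := h b (List.mem_range.2 hb)
  rw [e1, Bool.not_true, Bool.false_or, List.all_eq_true] at h
  replace h := h c (List.mem_range.2 hc)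
  rw [e2, Bool.not_true, Bool.false_or, List.all_eq_true] at h
  replace h := h d (List.mem_range.2 hd)
  rw [e3, Bool.not_true, Bool.false_or, List.all_eq_true] at h
  replace h := h p (List.mem_range.2 hp)
  rw [f1, Bool.false_or, List.all_eq_true] at h
  replace h := h q (List.mem_range.2 hq)
  rw [f2, Bool.false_or] at h
  exact of_decide_eq_true h

theorem T3_nonneg (v : Fin 8 → ℕ) (hv : ∀ i j : Fin 8, i.val < 6 → j.val < 6 → v i = v j → i = j)
    (h01 : v 0 < v 1) (h12 : v 1 < v 2) (h23 : v 2 < v 3) : 0 ≤ T3 v := by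
  have hS : (Finset.univ.filter fun i : Fin 8 => i.val < 6).card = 6 := by decide
  generalize hSd : (Finset.univ.filter fun i : Fin 8 => i.val < 6) = S at hS
  have hmem : ∀ i : Fin 8, i.val < 6 → i ∈ S := fun i hi => by
    rw [← hSd]
    exact Finset.mem_filter.2 ⟨Finset.mem_univ _, hi⟩
  have hlt : ∀ i j : Fin 8, i.val < 6 → (v i < v j ↔ rk S v i < rk S v j) := fun i j hi =>
    rk_lt_iff S v (hmem i hi)
  have h6 : ∀ i : Fin 8, i.val < 6 → rk S v i < 6 := fun i hi => by
    rw [← hS]
    exact rk_lt_card S v (hmem i hi)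
  have hinj : ∀ i j : Fin 8, i.val < 6 → j.val < 6 → rk S v i = rk S v j → i = j := by
    intro i j hi hj h
    apply hv i j hi hj
    have h1 : ¬ v i < v j := by rw [hlt i j hi]; omega
    have h2 : ¬ v j < v i := by rw [hlt j i hj]; omega
    omega
  rw [hlt _ _ (by decide)] at h01 h12 h23
  have hcong : T3 v = T3 (vec (rk S v 0) (rk S v 1) (rk S v 2) (rk S v 3) (rk S v 4) (rk S v 5) 0 0) := by
    apply T3_congr
    have hvec : ∀ i : Fin 8, i.val < 6 →
        vec (rk S v 0) (rk S v 1) (rk S v 2) (rk S v 3) (rk S v 4) (rk S v 5) 0 0 i = rk S v i := by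
      intro i hi
      fin_cases i <;> first | rfl | (simp at hi)
    intro i j hi hj
    rw [hvec i hi, hvec j hj]
    exact hlt i j hi
  rw [hcong]
  generalize rk S v = w at h6 hinj h01 h12 h23
  have hne : ∀ i j : Fin 8, i.val < 6 → j.val < 6 → i ≠ j → w i ≠ w j := fun i j hi hj h h2 => h (hinj i j hi hj h2)
  refine chk3_spec (h6 _ (by decide)) (h6 _ (by decide)) (h6 _ (by decide)) (h6 _ (by decide)) (h6 _ (by decide))
    (h6 _ (by decide)) h01 h12 h23 ?_ ?_ <;> simp [hne]

end Pool.Agent.Helper76.PK
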