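import Pool.Agent.Helper76.PK.Travel
import Pool.Agent.Helper76.PK.CertDefs

/-!
# PK-07: the ascending states with four crossings (finite check)

There are 105 involutions `R.op` without fixed points of `Fin 8` and for each 16 functions `R.lf`; 21 of these shadows have `Asc (allPos R) 0 (und R)`, and for each of them the sum is at least 2 (checked by a program).

(1) If `Asc (allPos R) 0 (und R)` then the following Boolean function of the numbers `o i = R.op i`, `l i = R.lf i` is true. All crossings are smoothed, so `tr j = nxt (R.op j)`. Put `w 0 = 0`, `w (t + 1) = (o (w t) + 1) % 8`. `ascB`: `w 0, ..., w 7`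
are different and for every `t < 8`: if `o (w t)` is not one of `w 0, ..., w (t - 1)` then `l (w t)`. (The orbit of `0` is everything and has 8 elements, so `w 0, ..., w 7` are different: `iterate_ne`, `closed_orbit`. If `j = w t` and `R.op j` is not
visited before, and `l j = false`, then `R.op j ∈ und R` and the second condition of `Asc` with `i = R.op j`, `k = t` gives a contradiction.)
(2) A kernel check (`decide +kernel`, `set_option maxRecDepth 100000`, a Boolean function with nested `(List.range 8).all`, see `chk4` in `PK/Check.lean`): for all `o 0, ..., o 7 < 8` and `l 0, ..., l 7` (prune early: `o i ≠ i`; if `o i < i` then `o (o i) = i`;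
if `o j = i` for a `j < i` then `o i = j`; the same for `l`: `l (o i) ≠ l i` if `o i < i`), if `ascB` then `2 ≤` the sum of `al2` over all `x, y, z, w` among the four `i` with `l i`, where `al2` is evaluated at
`vec x (o y) (o x) y z (o z) w (o w)`. Only 21 evaluations of the sum (256 terms each) are needed, since `!ascB ||` is evaluated first. In the sum one can leave out the terms with two equal entries (there `al2 = 0`), or first restrict to the `x, y` with
`x < o y < o x < y`.
(3) Transfer: the Finset sums are sums over the list of the four elements.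
-/

set_option autoImplicit false

namespace Pool.Agent.Helper76.PK

private def eightL : List (Fin 8) := [⟨0, by omega⟩, ⟨1, by omega⟩, ⟨2, by omega⟩, ⟨3, by omega⟩,
  ⟨4, by omega⟩, ⟨5, by omega⟩, ⟨6, by omega⟩, ⟨7, by omega⟩]

private def eightMem (a : Fin 8) : List (Fin 8) → Bool
  | [] => false
  | b :: s => Nat.beq a.val b.val || eightMem a s

/-- Walk along the orbit: the points are new, and a lower passage comes only after the upper one. -/
private def eightAsc (o : Fin 8 → Fin 8) (l : Fin 8 → Bool) : ℕ → Fin 8 → List (Fin 8) → Bool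
  | 0, _, _ => true
  | n + 1, i, vis =>
    !(eightMem i vis) && ((l i || eightMem (o i) vis) && eightAsc o l n (nxt (o i)) (i :: vis))

/-- A part of the sum. -/
private def eightSum (o : Fin 8 → Fin 8) (L : List (Fin 8)) : ℤ :=
  (L.map fun x : Fin 8 => (L.map fun y : Fin 8 =>
    cond (Nat.blt x (o y) && (Nat.blt (o y) (o x) && Nat.blt (o x) y))
    (L.map fun z : Fin 8 => cond (eightMem z [x, y]) 0
      (L.map fun w : Fin 8 => cond (eightMem w [x, y, z]) 0
      (al2 (vec x (o y) (o x) y z (o z) w (o w)))).sum).sum 0).sum).sum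

private def eightLeaf (o : Fin 8 → Fin 8) (l : Fin 8 → Bool) : Bool :=
  !(eightAsc o l 8 ⟨0, by omega⟩ []) || decide (2 ≤ eightSum o (eightL.filter l))

private def eightSet {α : Type} (o : Fin 8 → α) (k a : Fin 8) (u v : α) : Fin 8 → α :=
  fun i => cond (Nat.beq i.val k.val) u (cond (Nat.beq i.val a.val) v (o i))

private def eightRem (a : Fin 8) : List (Fin 8) → List (Fin 8)
  | [] => []
  | b :: s => cond (Nat.beq a.val b.val) s (b :: eightRem a s)

private def eightGo : ℕ → List (Fin 8) → (Fin 8 → Fin 8) → (Fin 8 → Bool) → Bool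
  | 0, _, _, _ => true
  | _ + 1, [], o, l => eightLeaf o l
  | n + 1, k :: F, o, l => F.all fun a =>
    eightGo n (eightRem a F) (eightSet o k a a k) (eightSet l k a true false) &&
    eightGo n (eightRem a F) (eightSet o k a a k) (eightSet l k a false true)

set_option maxRecDepth 100000 in
private theorem eightGo_true : eightGo 5 eightL (fun _ => 0) (fun _ => true) = true := by
  decide +kernel

private theorem eight_beq (a b : Fin 8) : Nat.beq a.val b.val = true ↔ a = b := by
  rw [Nat.beq_eq, Fin.ext_iff]

private theorem eight_mem (a : Fin 8) (s : List (Fin 8)) : eightMem a s = true ↔ a ∈ s := by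
  induction s with
  | nil => simp [eightMem]
  | cons b s ih => rw [eightMem, Bool.or_eq_true, ih, eight_beq, List.mem_cons]

private theorem eight_rem (a : Fin 8) (s : List (Fin 8)) : eightRem a s = s.erase a := by
  induction s with
  | nil => simp [eightRem]
  | cons b s ih =>
    rw [eightRem, ih]
    by_cases h : a = b
    · subst h
      rw [(eight_beq a a).2 rfl, List.erase_cons_head]
      rfl
    · have h1 : Nat.beq a.val b.val = false := by
        rw [← Bool.not_eq_true, eight_beq]
        exact h
      rw [h1, List.erase_cons_tail (by simpa using fun h2 : b = a => h h2.symm)]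
      rfl

private theorem eight_set_k {α : Type} (o : Fin 8 → α) (k a : Fin 8) (u v : α) :
    eightSet o k a u v k = u := by
  rw [eightSet, (eight_beq k k).2 rfl]
  rfl

private theorem eight_set_a {α : Type} (o : Fin 8 → α) (k a : Fin 8) (u v : α) (h : a ≠ k) :
    eightSet o k a u v a = v := by
  have h1 : Nat.beq a.val k.val = false := by
    rw [← Bool.not_eq_true, eight_beq]
    exact h
  rw [eightSet, h1, (eight_beq a a).2 rfl]
  rfl

private theorem eight_set_i {α : Type} (o : Fin 8 → α) (k a : Fin 8) (u v : α) (i : Fin 8)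
    (h : i ≠ k) (h' : i ≠ a) : eightSet o k a u v i = o i := by
  have h1 : Nat.beq i.val k.val = false := by
    rw [← Bool.not_eq_true, eight_beq]
    exact h
  have h2 : Nat.beq i.val a.val = false := by
    rw [← Bool.not_eq_true, eight_beq]
    exact h'
  rw [eightSet, h1, h2]
  rfl

private theorem eight_go (R : Shadow 8) : ∀ (n : ℕ) (F : List (Fin 8)) (o : Fin 8 → Fin 8)
    (l : Fin 8 → Bool), F.length + 2 ≤ 2 * n → F.Nodup →
    (∀ i, i ∉ F → o i = R.op i ∧ l i = R.lf i) → (∀ i ∈ F, R.op i ∈ F) →
    eightGo n F o l = true → eightLeaf R.op R.lf = true := by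
  intro n
  induction n with
  | zero =>
    intro F o l h
    omega
  | succ n ih =>
    intro F o l hlen hnd hout hin hgo
    cases F with
    | nil =>
      have h1 : o = R.op := funext fun i => (hout i (by simp)).1
      have h2 : l = R.lf := funext fun i => (hout i (by simp)).2
      rw [h1, h2, eightGo] at hgo
      exact hgo
    | cons k F =>
      rw [eightGo, List.all_eq_true] at hgo
      have hne : R.op k ≠ k := R.op_ne k
      have ha : R.op k ∈ F := by
        have h1 := hin k (by simp)
        rw [List.mem_cons] at h1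
        exact h1.resolve_left hne
      have hkF : k ∉ F := (List.nodup_cons.1 hnd).1
      have hF : F.Nodup := (List.nodup_cons.1 hnd).2
      have h2 := hgo _ ha
      rw [Bool.and_eq_true, eight_rem] at h2
      have hlen' : (F.erase (R.op k)).length + 2 ≤ 2 * n := by
        rw [List.length_erase_of_mem ha]
        rw [List.length_cons] at hlen
        omega
      have hin' : ∀ i ∈ F.erase (R.op k), R.op i ∈ F.erase (R.op k) := by
        intro i hi
        rw [hF.mem_erase_iff] at hi ⊢
        have h3 := hin i (List.mem_cons_of_mem _ hi.2)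
        rw [List.mem_cons] at h3
        refine ⟨fun h4 => hkF ?_, h3.resolve_left fun h4 => hi.1 ?_⟩
        · have h5 := op_inj R h4
          rw [← h5]
          exact hi.2
        · rw [← h4, R.op_op]
      have hmem : ∀ i, i ∉ F.erase (R.op k) → i = k ∨ i = R.op k ∨ (i ∉ k :: F) := by
        intro i hi
        rw [hF.mem_erase_iff, not_and_or, not_not] at hi
        by_cases h3 : i = k
        · exact Or.inl h3
        · rcases hi with hi | hi
          · exact Or.inr (Or.inl hi)
          · refine Or.inr (Or.inr ?_)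
            rw [List.mem_cons, not_or]
            exact ⟨h3, hi⟩
      cases hb : R.lf k with
      | true =>
        refine ih _ _ _ hlen' (hF.erase _) ?_ hin' h2.1
        intro i hi
        rcases hmem i hi with rfl | rfl | hi'
        · rw [eight_set_k, eight_set_k, hb]
          exact ⟨rfl, rfl⟩
        · rw [eight_set_a _ _ _ _ _ hne, eight_set_a _ _ _ _ _ hne, R.op_op, R.lf_op, hb]
          exact ⟨rfl, rfl⟩
        · have h3 : i ≠ k := fun h => hi' (by rw [h]; simp)
          have h4 : i ≠ R.op k := fun h => hi' (by rw [h]; exact List.mem_cons_of_mem _ ha)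
          rw [eight_set_i _ _ _ _ _ _ h3 h4, eight_set_i _ _ _ _ _ _ h3 h4]
          exact hout i hi'
      | false =>
        refine ih _ _ _ hlen' (hF.erase _) ?_ hin' h2.2
        intro i hi
        rcases hmem i hi with rfl | rfl | hi'
        · rw [eight_set_k, eight_set_k, hb]
          exact ⟨rfl, rfl⟩
        · rw [eight_set_a _ _ _ _ _ hne, eight_set_a _ _ _ _ _ hne, R.op_op, R.lf_op, hb]
          exact ⟨rfl, rfl⟩
        · have h3 : i ≠ k := fun h => hi' (by rw [h]; simp)
          have h4 : i ≠ R.op k := fun h => hi' (by rw [h]; exact List.mem_cons_of_mem _ ha)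
          rw [eight_set_i _ _ _ _ _ _ h3 h4, eight_set_i _ _ _ _ _ _ h3 h4]
          exact hout i hi'

private theorem eight_leaf (R : Shadow 8) : eightLeaf R.op R.lf = true := by
  have h0 : ∀ i : Fin 8, i ∈ eightL := by decide
  exact eight_go R 5 eightL _ _ (by decide) (by decide) (fun i hi => absurd (h0 i) hi)
    (fun i _ => h0 _) eightGo_true

private theorem eight_asc (o : Fin 8 → Fin 8) (l : Fin 8 → Bool) (w : ℕ → Fin 8)
    (hw : ∀ t, w (t + 1) = nxt (o (w t))) (hne : ∀ s t, s < t → t < 8 → w s ≠ w t)
    (hc : ∀ t, l (w t) = true ∨ ∃ s < t, w s = o (w t)) :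
    ∀ (n t : ℕ) (vis : List (Fin 8)), n + t ≤ 8 → (∀ x, x ∈ vis ↔ ∃ s < t, w s = x) →
      eightAsc o l n (w t) vis = true := by
  intro n
  induction n with
  | zero =>
    intro t vis _ _
    rw [eightAsc]
  | succ n ih =>
    intro t vis hnt hvis
    rw [eightAsc, Bool.and_eq_true, Bool.and_eq_true]
    refine ⟨?_, ?_, ?_⟩
    · rw [Bool.not_eq_true', ← Bool.not_eq_true, eight_mem, hvis]
      rintro ⟨s, hs, h⟩
      exact hne s t hs (by omega) h
    · rw [Bool.or_eq_true, eight_mem, hvis]
      exact hc t
    · rw [← hw]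
      refine ih (t + 1) _ (by omega) ?_
      intro x
      rw [List.mem_cons, hvis]
      constructor
      · rintro (rfl | ⟨s, hs, h⟩)
        · exact ⟨t, by omega, rfl⟩
        · exact ⟨s, by omega, h⟩
      · rintro ⟨s, hs, h⟩
        by_cases h1 : s = t
        · left
          rw [← h, h1]
        · right
          exact ⟨s, by omega, h⟩

private theorem eight_al2_nonneg (v : Fin 8 → ℕ) : 0 ≤ al2 v := by
  unfold al2
  apply List.sum_nonneg
  intro x hx
  rw [List.mem_map] at hx
  obtain ⟨t, ht, rfl⟩ := hx
  have h1 : ∀ t ∈ alphas, 0 ≤ t.1 := by decide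
  split_ifs
  · exact h1 t ht
  · exact le_rfl

private theorem eight_sum_le (L : List (Fin 8)) (f g : Fin 8 → ℤ) (h : ∀ x ∈ L, f x ≤ g x) :
    (L.map f).sum ≤ (L.map g).sum := List.sum_le_sum h

private theorem eight_cond_le (b : Bool) (x y : ℤ) (h : x ≤ y) (h0 : 0 ≤ y) : cond b x 0 ≤ y := by
  cases b
  · exact h0
  · exact h

private theorem eight_cond_le' (b : Bool) (x y : ℤ) (h : x ≤ y) (h0 : 0 ≤ y) : cond b 0 x ≤ y := by
  cases b
  · exact h
  · exact h0

private theorem eight_sum_le4 (R : Shadow 8) (L : List (Fin 8)) : eightSum R.op L ≤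
    (L.map fun x => (L.map fun y => (L.map fun z => (L.map fun w =>
      al2 (pv R x y z w)).sum).sum).sum).sum := by
  have hn1 : ∀ x y z, 0 ≤ (L.map fun w => al2 (pv R x y z w)).sum := fun x y z =>
    List.sum_nonneg fun a ha => by
      obtain ⟨w, -, rfl⟩ := List.mem_map.1 ha
      exact eight_al2_nonneg _
  have hn2 : ∀ x y, 0 ≤ (L.map fun z => (L.map fun w => al2 (pv R x y z w)).sum).sum := fun x y =>
    List.sum_nonneg fun a ha => by
      obtain ⟨w, -, rfl⟩ := List.mem_map.1 ha
      exact hn1 _ _ _
  unfold eightSum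
  refine eight_sum_le _ _ _ fun x _ => eight_sum_le _ _ _ fun y _ => ?_
  refine eight_cond_le _ _ _ ?_ (hn2 x y)
  refine eight_sum_le _ _ _ fun z _ => ?_
  refine eight_cond_le' _ _ _ ?_ (hn1 x y z)
  refine eight_sum_le _ _ _ fun w _ => ?_
  exact eight_cond_le' _ _ _ le_rfl (eight_al2_nonneg _)

private theorem eight_und (R : Shadow 8) (f : Fin 8 → ℤ) :
    ∑ x ∈ und R, f x = ((eightL.filter R.lf).map f).sum := by
  have h1 : (eightL.filter R.lf).Nodup := List.Nodup.filter _ (by decide)
  have h2 : und R = (eightL.filter R.lf).toFinset := by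
    ext i
    have h0 : ∀ i : Fin 8, i ∈ eightL := by decide
    simp [und, h0 i]
  rw [h2, List.sum_toFinset _ h1]

theorem eight (R : Shadow 8) (h : Asc (allPos R) 0 (und R)) :
    2 ≤ ∑ x ∈ und R, ∑ y ∈ und R, ∑ z ∈ und R, ∑ w ∈ und R, al2 (pv R x y z w) := by
  have hsm : ∀ i, ((allPos R).sm (und R)).st i = .smooth := by
    intro i
    apply sm_st_mem
    cases hi : R.lf i with
    | true => left; simp [und, hi]
    | false => right; simp [und, R.lf_op, hi]
  have htr : ∀ i, ((allPos R).sm (und R)).tr i = nxt (R.op i) := by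
    intro i
    rw [Diag.tr, if_pos (hsm i)]
  obtain ⟨h1, h2⟩ := h
  obtain ⟨w, hwdef⟩ : ∃ w : ℕ → Fin 8, ∀ t, w t = ((allPos R).sm (und R)).tr^[t] 0 :=
    ⟨fun t => ((allPos R).sm (und R)).tr^[t] 0, fun t => rfl⟩
  simp only [← hwdef] at h1 h2
  have hw : ∀ t, w (t + 1) = nxt (R.op (w t)) := by
    intro t
    rw [hwdef, hwdef, Function.iterate_succ_apply', htr]
  obtain ⟨n, hn0, hn8, hn⟩ := tr_period ((allPos R).sm (und R)) 0
  have hsurj : ∀ i, ∃ t : Fin 8, w t.val = i := by
    intro i
    obtain ⟨k, hk⟩ := h1 i
    have h3 := closed_orbit _ 0 hn0 hn k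
    rw [← hwdef, ← hwdef] at h3
    exact ⟨⟨k % n, (Nat.mod_lt _ hn0).trans_le hn8⟩, by rw [← hk, h3]⟩
  have hinj : Function.Injective fun t : Fin 8 => w t.val :=
    Finite.injective_iff_surjective.2 hsurj
  have hne : ∀ s t, s < t → t < 8 → w s ≠ w t := by
    intro s t hst ht hws
    have h3 := @hinj ⟨s, by omega⟩ ⟨t, ht⟩ hws
    rw [Fin.mk.injEq] at h3
    omega
  have hc : ∀ t, R.lf (w t) = true ∨ ∃ s < t, w s = R.op (w t) := by
    intro t
    cases ht : R.lf (w t) with
    | true => exact Or.inl rfl
    | false =>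
      right
      refine h2 (R.op (w t)) ?_ t ?_
      · simp [und, R.lf_op, ht]
      · rw [R.op_op]
  have h3 : eightAsc R.op R.lf 8 (w 0) [] = true :=
    eight_asc R.op R.lf w hw hne hc 8 0 [] (by omega) (by simp)
  have h4 := eight_leaf R
  have h5 : w 0 = ⟨0, by omega⟩ := by
    rw [hwdef]
    rfl
  rw [h5] at h3
  rw [eightLeaf, h3, Bool.not_true, Bool.false_or, decide_eq_true_eq] at h4
  refine h4.trans ((eight_sum_le4 R _).trans (le_of_eq ?_))
  simp only [eight_und]

end Pool.Agent.Helper76.PK
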