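import Pool.Agent.Helper76.PK.NextEnd

/-!
# PK-06: an ascending state as a shadow of its own

`E` = the set of the `p` with `p ∈ S ∨ op p ∈ S`, of cardinality `M = 2 |S|` (`S` and its image under `op` are disjoint: `lf`), `e` = `E.orderEmbOfFin`. `R.op j` = the index of `op (e j) ∈ E`, `R.lf j = lf (e j)`. `e j ∈ S ↔ lf (e j)` (for
`p ∈ E`: `p ∈ S` or `op p ∈ S`, and `S ⊆ und G`).

In `R` with all crossings smoothed: `tR j = nxt (R.op j)`, where `tR = ((allPos R).sm (und R)).tr` (every `j` or `R.op j` is in `und R`). In `G` write `t = ((allPos G).sm S).tr`. By `first_end`, `next_end` there is a strictly increasing sequence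
of times `T 0 = e 0`, `T (s + 1) = T s + n`, with `t^[T s] 0 = e (tR^[s] 0)`, and between the times `T s` and `T (s + 1)`, and before `T 0`, the travel is at no `e i`. So if `t^[k] 0 = e i` then `k = T s` for some `s`
(take the last `s` with `T s ≤ k`), and `tR^[s] 0 = i` (`e` is injective).
`Asc (allPos R) 0 (und R)`: (1) for `j` there is `k` with `t^[k] 0 = e j`, so `k = T s` and `tR^[s] 0 = j`. (2) let `j ∈ und R`, `tR^[k] 0 = R.op j`: `t^[T k] 0 = e (R.op j) = op (e j)` and `e j ∈ S`, so there is `l < T k` with `t^[l] 0 = e j`;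
`l = T s` and `s < k`, `tR^[s] 0 = j`.
-/

set_option autoImplicit false

namespace Pool.Agent.Helper76.PK

variable {N : ℕ} [NeZero N] {G : Shadow N}

theorem reduce {M : ℕ} [NeZero M] (S : Finset (Fin N)) (hS : S ⊆ und G) (hM : 2 * S.card = M)
    (h : Asc (allPos G) 0 S) :
    ∃ (R : Shadow M) (e : Fin M → Fin N), StrictMono e ∧
      (∀ j, e (R.op j) = G.op (e j)) ∧ (∀ j, j ∈ und R ↔ e j ∈ S) ∧
      (∀ p ∈ S, ∃ j, e j = p) ∧ Asc (allPos R) 0 (und R) := by
  classical
  obtain ⟨E, hEdef⟩ : ∃ E : Finset (Fin N), E = Finset.univ.filter fun p => p ∈ S ∨ G.op p ∈ S := ⟨_, rfl⟩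
  have hEmem : ∀ p, p ∈ E ↔ (p ∈ S ∨ G.op p ∈ S) := by
    intro p
    rw [hEdef]
    simp
  have hlf : ∀ p ∈ S, G.lf p = true := by
    intro p hp
    have h1 := hS hp
    unfold und at h1
    rw [Finset.mem_filter] at h1
    exact h1.2
  have hEu : E = S ∪ S.image G.op := by
    ext p
    rw [hEmem, Finset.mem_union, Finset.mem_image]
    constructor
    · rintro (h1 | h1)
      · exact Or.inl h1
      · exact Or.inr ⟨G.op p, h1, G.op_op p⟩
    · rintro (h1 | ⟨q, hq, rfl⟩)
      · exact Or.inl h1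
      · right
        rw [G.op_op]
        exact hq
  have hdisj : Disjoint S (S.image G.op) := by
    rw [Finset.disjoint_left]
    intro p hp hp2
    obtain ⟨q, hq, rfl⟩ := Finset.mem_image.1 hp2
    have h1 := hlf _ hp
    rw [G.lf_op, hlf q hq] at h1
    exact absurd h1 (by decide)
  have hEcard : E.card = M := by
    rw [hEu, Finset.card_union_of_disjoint hdisj, Finset.card_image_of_injective _ (op_inj G), ← hM]
    ring
  obtain ⟨e, hedef⟩ : ∃ e : Fin M → Fin N, e = E.orderEmbOfFin hEcard := ⟨_, rfl⟩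
  have he : StrictMono e := by
    rw [hedef]
    exact (E.orderEmbOfFin hEcard).strictMono
  have hinj : Function.Injective e := he.injective
  have hr : ∀ p, (p ∈ S ∨ G.op p ∈ S) ↔ ∃ j, e j = p := by
    intro p
    rw [← hEmem, hedef]
    have h1 := Finset.range_orderEmbOfFin E hEcard
    rw [← Finset.mem_coe, ← h1]
    rfl
  have hop : ∀ j, ∃ a, e a = G.op (e j) := by
    intro j
    apply (hr _).1
    rw [G.op_op]
    exact ((hr (e j)).2 ⟨j, rfl⟩).symm
  choose ro hro using hop
  obtain ⟨R, hRop, hRlf⟩ : ∃ R : Shadow M, (∀ j, R.op j = ro j) ∧ ∀ j, R.lf j = G.lf (e j) :=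
    ⟨{ op := ro
       op_op := fun j => hinj (by rw [hro, hro, G.op_op])
       op_ne := fun j hj => G.op_ne (e j) (by rw [← hro, hj])
       lf := fun j => G.lf (e j)
       lf_op := fun j => by rw [hro, G.lf_op] }, fun _ => rfl, fun _ => rfl⟩
  have hund : ∀ j, j ∈ und R ↔ e j ∈ S := by
    intro j
    unfold und
    rw [Finset.mem_filter, hRlf]
    constructor
    · rintro ⟨_, h1⟩
      rcases (hr (e j)).2 ⟨j, rfl⟩ with h2 | h2
      · exact h2
      · have h3 := hlf _ h2
        rw [G.lf_op, h1] at h3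
        exact absurd h3 (by decide)
    · intro h1
      exact ⟨Finset.mem_univ _, hlf _ h1⟩
  have htR : ∀ j, ((allPos R).sm (und R)).tr j = nxt (ro j) := by
    intro j
    unfold Diag.tr
    rw [if_pos, hRop]
    apply sm_st_mem
    rw [hund, hund, hRop, hro]
    exact (hr (e j)).2 ⟨j, rfl⟩
  choose n hn0 hn1 hn2 using fun j => next_end S e he hr j (ro j) (hro j)
  obtain ⟨hf1, hf2⟩ := first_end S e he hr
  obtain ⟨t, ht⟩ : ∃ t, t = ((allPos G).sm S).tr := ⟨_, rfl⟩
  obtain ⟨tR, htRd⟩ : ∃ tR, tR = ((allPos R).sm (und R)).tr := ⟨_, rfl⟩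
  rw [← ht] at hf1 hf2
  simp only [← ht] at hn1 hn2
  simp only [← htRd] at htR
  obtain ⟨T, hT0, hTs⟩ : ∃ T : ℕ → ℕ, T 0 = (e 0).val ∧ ∀ s, T (s + 1) = T s + n (tR^[s] 0) :=
    ⟨fun s => Nat.rec (e 0).val (fun s x => x + n (tR^[s] 0)) s, rfl, fun _ => rfl⟩
  have hTmono : StrictMono T := strictMono_nat_of_lt_succ fun s => by
    rw [hTs]
    have := hn0 (tR^[s] 0)
    omega
  have hTv : ∀ s, t^[T s] 0 = e (tR^[s] 0) := by
    intro s
    induction s with
    | zero =>
      rw [hT0]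
      exact hf1
    | succ s ih =>
      rw [hTs, add_comm, Function.iterate_add_apply, ih, hn1, Function.iterate_succ_apply', htR]
  have hkey : ∀ k i, t^[k] 0 = e i → ∃ s, k = T s ∧ tR^[s] 0 = i := by
    intro k i hk
    have hge : T 0 ≤ k := by
      by_contra hlt
      push Not at hlt
      rw [hT0] at hlt
      exact hf2 k hlt i hk
    have hex : ∃ s, k < T (s + 1) := ⟨k, lt_of_lt_of_le (Nat.lt_succ_self k) (hTmono.le_apply)⟩
    obtain ⟨s, hs1, hs2⟩ : ∃ s, T s ≤ k ∧ k < T (s + 1) := by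
      refine ⟨Nat.find hex, ?_, Nat.find_spec hex⟩
      rcases Nat.eq_zero_or_pos (Nat.find hex) with h0 | h0
      · rw [h0]
        exact hge
      · have h1 := Nat.find_min hex (m := Nat.find hex - 1) (by omega)
        rw [Nat.sub_add_cancel h0] at h1
        omega
    have hks : k = T s := by
      by_contra hne
      have hlt : T s < k := lt_of_le_of_ne hs1 (Ne.symm hne)
      have h1 := hn2 (tR^[s] 0) (k - T s) (by omega) (by rw [hTs] at hs2; omega) i
      apply h1
      rw [← hTv, ← Function.iterate_add_apply, Nat.sub_add_cancel hs1]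
      exact hk
    refine ⟨s, hks, ?_⟩
    apply hinj
    rw [← hTv, ← hks]
    exact hk
  refine ⟨R, e, he, fun j => by rw [hRop, hro], hund, fun p hp => (hr p).1 (Or.inl hp), ?_, ?_⟩
  · intro j
    rw [← htRd]
    obtain ⟨k, hk⟩ := h.1 (e j)
    rw [← ht] at hk
    obtain ⟨s, _, hs⟩ := hkey k j hk
    exact ⟨s, hs⟩
  · intro j hj k hk
    rw [← htRd] at hk ⊢
    have h1 : t^[T k] 0 = G.op (e j) := by
      rw [hTv, hk, hRop, hro]
    obtain ⟨l, hl, hl2⟩ := h.2 (e j) ((hund j).1 hj) (T k) (by rw [← ht]; exact h1)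
    rw [← ht] at hl2
    obtain ⟨s, hs, hs2⟩ := hkey l j hl2
    refine ⟨s, ?_, hs2⟩
    rw [hs] at hl
    exact hTmono.lt_iff_lt.1 hl

end Pool.Agent.Helper76.PK
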