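import Pool.Agent.Helper76.PK.Expand
import Pool.Agent.Helper76.PK.AscSmall
import Pool.Agent.Helper76.PK.Reduce
import Pool.Agent.Helper76.PK.Eight
import Pool.Agent.Helper76.PK.AlLem

/-!
# PK-10: the coefficients and the counts

* `coeff_zero`: `coeff_eq` with `m = 0`: the only set is `∅` (`powersetCard_zero`), `asc_empty`.
* `coeff_two`: `(x, y) ↦ {x, y}` maps the ascending pairs to the ascending sets with two elements (`asc_pair`; `x < op y < op x < y`, so `x < y`, `x ≠ y`), injective: `{x, y} = {x', y'}`, `x < y`, `x' < y'`.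
* `coeff_four`: for `T ⊆ und G` with `T.card = 4` and `Asc (allPos G) 0 T`: `reduce` (`M = 8`) gives `R`, `e`; `eight`: `2 ≤ ∑ al2 (pv R x y z w)`, the sum over `x, y, z, w ∈ und R`. `al2 (pv R x y z w) = al2 (pv G (e x) (e y) (e z) (e w))` (`al2_congr`: `e` is strictly monotone
  and commutes with `op`; the entries are values of `Fin.val`), and `e` is a bijection `und R → T`, so `2 ≤ ∑ x, y, z, w ∈ T, al2 (pv G x y z w)`.
  Sum over all such `T`: the sets of the `(x, y, z, w)`, with `al2 ≠ 0` (so the four are different: `al2_ne_imp`, the entries `0, 3, 4, 6` of `pv` are `x, y, z, w`) and entries in `T`, are disjoint for different `T` (`T = {x, y, z, w}`), all terms are `≥ 0` (`al2_nonneg`), so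
  `2 * (number of T) ≤ ∑ x, y, z, w ∈ und G, al2 (pv G x y z w)`. One way: `∑_T ∑_{q ∈ T^4} al2 q = ∑_q al2 q * (number of the T with q ∈ T^4)` (`Finset.sum_comm`), and this number is at most 1 if `al2 q ≠ 0`.
-/

set_option autoImplicit false

namespace Pool.Agent.Helper76.PK

open Polynomial Classical

variable {N : ℕ} [NeZero N] {G : Shadow N}

/-- The number of the ascending pairs. -/
noncomputable def nA (G : Shadow N) : ℤ :=
  ∑ z ∈ und G, ∑ w ∈ und G, if A2 G z w then 1 else 0

/-- The weight of a quadruple. -/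
private noncomputable def cntF (G : Shadow N) (q : Fin N × Fin N × Fin N × Fin N) : ℤ :=
  al2 (pv G q.1 q.2.1 q.2.2.1 q.2.2.2)

omit [NeZero N] in
private theorem cntF_sum (T : Finset (Fin N)) :
    ∑ q ∈ T ×ˢ T ×ˢ T ×ˢ T, cntF G q =
      ∑ x ∈ T, ∑ y ∈ T, ∑ z ∈ T, ∑ w ∈ T, al2 (pv G x y z w) := by
  rw [Finset.sum_product]
  refine Finset.sum_congr rfl fun x _ => ?_
  rw [Finset.sum_product]
  refine Finset.sum_congr rfl fun y _ => ?_
  rw [Finset.sum_product]
  rfl

/-- An ascending state with four crossings has weight at least two. -/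
private theorem cnt_ge (T : Finset (Fin N)) (hT : T ⊆ und G) (h4 : T.card = 4)
    (ha : Asc (allPos G) 0 T) :
    2 ≤ ∑ x ∈ T, ∑ y ∈ T, ∑ z ∈ T, ∑ w ∈ T, al2 (pv G x y z w) := by
  obtain ⟨R, e, he, hop, hund, hsurj, hR⟩ := reduce (M := 8) T hT (by rw [h4]) ha
  have himg : T = (und R).image e := by
    ext p
    rw [Finset.mem_image]
    constructor
    · intro hp
      obtain ⟨j, hj⟩ := hsurj p hp
      refine ⟨j, (hund j).2 ?_, hj⟩
      rw [hj]
      exact hp
    · rintro ⟨j, hj, rfl⟩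
      exact (hund j).1 hj
  have hsum : ∀ g : Fin N → ℤ, ∑ x ∈ T, g x = ∑ j ∈ und R, g (e j) := by
    intro g
    rw [himg, Finset.sum_image (fun a _ b _ hab => he.injective hab)]
  have hal : ∀ x y z w : Fin 8,
      al2 (pv G (e x) (e y) (e z) (e w)) = al2 (pv R x y z w) := by
    intro x y z w
    have hsel : ∀ i : Fin 8, ∃ a : Fin 8, pv R x y z w i = a.val ∧
        pv G (e x) (e y) (e z) (e w) i = (e a).val := by
      intro i
      fin_cases i
      · exact ⟨x, rfl, rfl⟩
      · exact ⟨R.op y, rfl, by rw [hop]; rfl⟩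
      · exact ⟨R.op x, rfl, by rw [hop]; rfl⟩
      · exact ⟨y, rfl, rfl⟩
      · exact ⟨z, rfl, rfl⟩
      · exact ⟨R.op z, rfl, by rw [hop]; rfl⟩
      · exact ⟨w, rfl, rfl⟩
      · exact ⟨R.op w, rfl, by rw [hop]; rfl⟩
    refine al2_congr _ _ fun i j => ?_
    obtain ⟨a, ha1, ha2⟩ := hsel i
    obtain ⟨b, hb1, hb2⟩ := hsel j
    rw [ha1, ha2, hb1, hb2]
    exact he.lt_iff_lt
  have h8 := eight R hR
  simp only [hsum, hal]
  exact h8

omit [NeZero N] in
/-- The set of the entries. -/
private theorem cnt_eq (T : Finset (Fin N)) (h4 : T.card = 4) {x y z w : Fin N} (hx : x ∈ T)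
    (hy : y ∈ T) (hz : z ∈ T) (hw : w ∈ T) (hq : cntF G (x, y, z, w) ≠ 0) :
    T = {x, y, z, w} := by
  have hinj := (al2_ne_imp _ hq).1
  have key : ∀ i j : Fin 8, i ≠ j → pv G x y z w i ≠ pv G x y z w j :=
    fun i j hij hc => hij (hinj hc)
  have e1 : x ≠ y := fun hc => key 0 3 (by decide) (congrArg Fin.val hc)
  have e2 : x ≠ z := fun hc => key 0 4 (by decide) (congrArg Fin.val hc)
  have e3 : x ≠ w := fun hc => key 0 6 (by decide) (congrArg Fin.val hc)
  have e4 : y ≠ z := fun hc => key 3 4 (by decide) (congrArg Fin.val hc)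
  have e5 : y ≠ w := fun hc => key 3 6 (by decide) (congrArg Fin.val hc)
  have e6 : z ≠ w := fun hc => key 4 6 (by decide) (congrArg Fin.val hc)
  symm
  apply Finset.eq_of_subset_of_card_le
  · intro i hi
    simp only [Finset.mem_insert, Finset.mem_singleton] at hi
    rcases hi with rfl | rfl | rfl | rfl
    · exact hx
    · exact hy
    · exact hz
    · exact hw
  · rw [h4, Finset.card_insert_of_notMem (by simp [e1, e2, e3]),
      Finset.card_insert_of_notMem (by simp [e4, e5]), Finset.card_pair e6]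

theorem coeff_zero {nab : Diag G → ℤ[X]} (h : IsConway nab) : (nab (allPos G)).coeff 0 = 1 := by
  rw [coeff_eq h 0 0, Finset.powersetCard_zero, Finset.filter_singleton, if_pos asc_empty,
    Finset.card_singleton, Nat.cast_one]

theorem coeff_two {nab : Diag G → ℤ[X]} (h : IsConway nab) :
    nA G ≤ (nab (allPos G)).coeff 2 := by
  rw [coeff_eq h 0 2]
  have h1 : nA G = ((((und G) ×ˢ (und G)).filter fun p => A2 G p.1 p.2).card : ℤ) := by
    unfold nA
    rw [← Finset.sum_product' (und G) (und G) fun z w => if A2 G z w then (1 : ℤ) else 0,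
      Finset.sum_boole]
  rw [h1]
  have h2 : (((und G) ×ˢ (und G)).filter fun p => A2 G p.1 p.2).card ≤
      ((((und G).powersetCard 2).filter fun S => Asc (allPos G) 0 S).card) := by
    refine Finset.card_le_card_of_injOn (fun p => {p.1, p.2}) ?_ ?_
    · rintro ⟨x, y⟩ hp
      rw [Finset.mem_coe, Finset.mem_filter, Finset.mem_product] at hp
      obtain ⟨⟨hx, hy⟩, ha⟩ := hp
      rw [Finset.mem_coe, Finset.mem_filter, Finset.mem_powersetCard]
      refine ⟨⟨?_, Finset.card_pair (ne_of_lt (ha.1.trans (ha.2.1.trans ha.2.2)))⟩,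
        asc_pair hx hy ha⟩
      intro i hi
      simp only [Finset.mem_insert, Finset.mem_singleton] at hi
      rcases hi with rfl | rfl
      · exact hx
      · exact hy
    · rintro ⟨x, y⟩ hp ⟨x', y'⟩ hp' he
      rw [Finset.mem_coe, Finset.mem_filter] at hp hp'
      have h3 : x < y := hp.2.1.trans (hp.2.2.1.trans hp.2.2.2)
      have h4 : x' < y' := hp'.2.1.trans (hp'.2.2.1.trans hp'.2.2.2)
      have he' : ({x, y} : Finset (Fin N)) = {x', y'} := he
      have hx : x ∈ ({x', y'} : Finset (Fin N)) := by rw [← he']; simp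
      have hy : y ∈ ({x', y'} : Finset (Fin N)) := by rw [← he']; simp
      simp only [Finset.mem_insert, Finset.mem_singleton] at hx hy
      rcases hx with hx | hx <;> rcases hy with hy | hy
      · rw [hx, hy] at h3
        exact absurd h3 (lt_irrefl _)
      · rw [hx, hy]
      · rw [hx, hy] at h3
        exact absurd (h3.trans h4) (lt_irrefl _)
      · rw [hx, hy] at h3
        exact absurd h3 (lt_irrefl _)
  exact_mod_cast h2

theorem coeff_four {nab : Diag G → ℤ[X]} (h : IsConway nab) :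
    2 * (nab (allPos G)).coeff 4 ≤
      ∑ x ∈ und G, ∑ y ∈ und G, ∑ z ∈ und G, ∑ w ∈ und G, al2 (pv G x y z w) := by
  rw [coeff_eq h 0 4]
  have h1 : ∀ T ∈ ((und G).powersetCard 4).filter fun S => Asc (allPos G) 0 S,
      2 ≤ ∑ q ∈ (T ×ˢ T ×ˢ T ×ˢ T).filter (fun q => cntF G q ≠ 0), cntF G q := by
    intro T hT
    rw [Finset.mem_filter, Finset.mem_powersetCard] at hT
    rw [Finset.sum_filter_ne_zero, cntF_sum]
    exact cnt_ge T hT.1.1 hT.1.2 hT.2
  have hdis : Set.PairwiseDisjoint
      (↑(((und G).powersetCard 4).filter fun S => Asc (allPos G) 0 S) : Set (Finset (Fin N)))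
      (fun T => (T ×ˢ T ×ˢ T ×ˢ T).filter (fun q => cntF G q ≠ 0)) := by
    intro T hT T' hT' hne
    rw [Function.onFun, Finset.disjoint_left]
    rintro ⟨x, y, z, w⟩ hq hq'
    apply hne
    rw [Finset.mem_coe, Finset.mem_filter, Finset.mem_powersetCard] at hT hT'
    simp only [Finset.mem_filter, Finset.mem_product] at hq hq'
    rw [cnt_eq T hT.1.2 hq.1.1 hq.1.2.1 hq.1.2.2.1 hq.1.2.2.2 hq.2,
      cnt_eq T' hT'.1.2 hq'.1.1 hq'.1.2.1 hq'.1.2.2.1 hq'.1.2.2.2 hq'.2]
  have h2 : (2 * (((((und G).powersetCard 4).filter fun S => Asc (allPos G) 0 S).card : ℕ) : ℤ)) ≤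
      ∑ T ∈ ((und G).powersetCard 4).filter fun S => Asc (allPos G) 0 S,
        ∑ q ∈ (T ×ˢ T ×ˢ T ×ˢ T).filter (fun q => cntF G q ≠ 0), cntF G q := by
    have h3 := Finset.card_nsmul_le_sum _ _ 2 h1
    rw [nsmul_eq_mul, mul_comm] at h3
    exact h3
  refine h2.trans ?_
  rw [← Finset.sum_biUnion hdis, ← cntF_sum]
  refine Finset.sum_le_sum_of_subset_of_nonneg ?_ (fun q _ _ => al2_nonneg _)
  intro q hq
  rw [Finset.mem_biUnion] at hq
  obtain ⟨T, hT, hq⟩ := hq
  rw [Finset.mem_filter, Finset.mem_powersetCard] at hT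
  rw [Finset.mem_filter, Finset.mem_product, Finset.mem_product, Finset.mem_product] at hq
  rw [Finset.mem_product, Finset.mem_product, Finset.mem_product]
  exact ⟨hT.1.1 hq.1.1, hT.1.1 hq.1.2.1, hT.1.1 hq.1.2.2.1, hT.1.1 hq.1.2.2.2⟩

end Pool.Agent.Helper76.PK
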