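import Mathlib

/-!
# Project PK (MP_ea8a26_gt): the bottom inequality for all positive knots. Definitions

A knot shadow with `N` passages: travelling along the knot one meets the passages `0, 1, ..., N - 1` and comes back to `0`; every crossing consists of two
passages `i` and `op i`. `lf i` says that at the passage `i` the other strand crosses from the left to the right. The shadow lies in the plane (sphere) if
and only if the number of its faces is `N / 2 + 2` (Euler).

A diagram on the shadow is given by the status of every crossing: positive, negative or smoothed (in the oriented way).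
-/

set_option autoImplicit false

namespace Pool.Agent.Helper76.PK

open Polynomial

/-- The next passage. -/
def nxt {N : ℕ} (i : Fin N) : Fin N := ⟨(i.val + 1) % N, Nat.mod_lt _ i.pos⟩

/-- The previous passage. -/
def prv {N : ℕ} (i : Fin N) : Fin N := ⟨(i.val + N - 1) % N, Nat.mod_lt _ i.pos⟩

/-- An oriented knot shadow with `N` passages (on a closed oriented surface). -/
structure Shadow (N : ℕ) where
  op : Fin N → Fin N
  op_op : ∀ i, op (op i) = i
  op_ne : ∀ i, op i ≠ i
  lf : Fin N → Bool
  lf_op : ∀ i, lf (op i) = !lf i

namespace Shadow

variable {N : ℕ} (G : Shadow N)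

/-- `(i, true)` is the edge from the passage `i` to the next passage, `(i, false)` the same edge traversed backwards. `face` is the next edge of the face
to the left. -/
def face (d : Fin N × Bool) : Fin N × Bool :=
  if d.2 then (if G.lf (nxt d.1) then (prv (G.op (nxt d.1)), false) else (G.op (nxt d.1), true))
  else (if G.lf d.1 then (G.op d.1, true) else (prv (G.op d.1), false))

/-- The number of faces is the number of crossings plus two (genus zero). -/
def Planar : Prop := 2 * Nat.card (Quot fun d d' : Fin N × Bool => d' = G.face d) = N + 4

end Shadow

/-- The status of a crossing. -/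
inductive St
  | pos
  | neg
  | smooth
  deriving DecidableEq

/-- A diagram on the shadow `G`. -/
@[ext] structure Diag {N : ℕ} (G : Shadow N) where
  st : Fin N → St
  st_op : ∀ i, st (G.op i) = st i

namespace Diag

variable {N : ℕ} {G : Shadow N}

/-- The passage `i` is an over passage. At a positive crossing the under strand crosses the over strand from the right to the left. -/
def ovr (D : Diag G) (i : Fin N) : Bool :=
  match D.st i with
  | .pos => !G.lf i
  | .neg => G.lf i
  | .smooth => false

/-- The passage at which one arrives after the passage `i`, travelling along the smoothed diagram. -/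
def tr (D : Diag G) (i : Fin N) : Fin N := nxt (if D.st i = .smooth then G.op i else i)

/-- Change the status of the crossing of `i` to `t`. -/
def upd (D : Diag G) (i : Fin N) (t : St) : Diag G where
  st j := if j = i ∨ j = G.op i then t else D.st j
  st_op j := by
    have h1 : (G.op j = i ∨ G.op j = G.op i) ↔ (j = i ∨ j = G.op i) := by
      constructor
      · rintro (h | h)
        · right; rw [← h, G.op_op]
        · left; rw [← G.op_op j, h, G.op_op]
      · rintro (h | h)
        · right; rw [h]
        · left; rw [h, G.op_op]
    simp only [h1, D.st_op]

/-- Smooth the crossings of the passages in `S`. -/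
def sm (D : Diag G) (S : Finset (Fin N)) : Diag G where
  st j := if j ∈ S ∨ G.op j ∈ S then .smooth else D.st j
  st_op j := by
    have h1 : (G.op j ∈ S ∨ G.op (G.op j) ∈ S) ↔ (j ∈ S ∨ G.op j ∈ S) := by
      rw [G.op_op, or_comm]
    simp only [h1, D.st_op]

end Diag

/-- The diagram all of whose crossings are positive. -/
def allPos {N : ℕ} (G : Shadow N) : Diag G := ⟨fun _ => .pos, fun _ => rfl⟩

/-- The properties of the Conway polynomial of the diagrams on `G` which are used: the skein relation, the value `1` of a knot diagram which is descending
from some point of the knot, and the value `0` of a diagram in which a sublink (with the passages `C`) lies above the rest of the link. -/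
structure IsConway {N : ℕ} {G : Shadow N} (nab : Diag G → ℤ[X]) : Prop where
  skein : ∀ (D : Diag G) (i : Fin N), nab (D.upd i .pos) - nab (D.upd i .neg) = X * nab (D.upd i .smooth)
  knot : ∀ (D : Diag G) (b : Fin N), (∀ i, ∃ k : ℕ, D.tr^[k] b = i) →
    (∀ k : ℕ, D.st (D.tr^[k] b) ≠ .smooth → (∀ l ≤ k, D.tr^[l] b ≠ G.op (D.tr^[k] b)) →
      D.ovr (D.tr^[k] b) = true) → nab D = 1
  split : ∀ (D : Diag G) (C : Finset (Fin N)), C.Nonempty → C ≠ Finset.univ → (∀ i, D.tr i ∈ C ↔ i ∈ C) →
    (∀ i ∈ C, G.op i ∉ C → D.st i ≠ .smooth → D.ovr i = true) → nab D = 0

/-- The crossings, given by their under passages (in the positive diagram). -/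
def und {N : ℕ} (G : Shadow N) : Finset (Fin N) := Finset.univ.filter fun i => G.lf i = true

/-- `S` is an ascending one-component state for the travel from `b`. -/
def Asc {N : ℕ} {G : Shadow N} (D : Diag G) (b : Fin N) (S : Finset (Fin N)) : Prop :=
  (∀ i, ∃ k : ℕ, (D.sm S).tr^[k] b = i) ∧
    ∀ i ∈ S, ∀ k : ℕ, (D.sm S).tr^[k] b = G.op i → ∃ l < k, (D.sm S).tr^[l] b = i

/-- The ascending pairs: `x` is reached first on the lower strand, `y` on the upper strand. -/
def A2 {N : ℕ} (G : Shadow N) (x y : Fin N) : Prop := x < G.op y ∧ G.op y < G.op x ∧ G.op x < y

end Pool.Agent.Helper76.PK
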