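import Pool.Agent.Helper76.PK.ExpandInd

/-!
# PK-03: the state formula

`expand_ind` with `k = 0`, `n = N`, `D = allPos G`: `unv (allPos G) b 0 = und G`. Coefficients: `Polynomial.finset_sum_coeff`, `Polynomial.coeff_X_pow`, `Finset.sum_ite_eq`-style; the `S ⊆ und G` with `S.card = m` are the elements of
`powersetCard m (und G)`.
-/

set_option autoImplicit false

namespace Pool.Agent.Helper76.PK

open Polynomial Classical

variable {N : ℕ} {G : Shadow N}

theorem coeff_eq {nab : Diag G → ℤ[X]} (h : IsConway nab) (b : Fin N) (m : ℕ) :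
    (nab (allPos G)).coeff m =
      (((und G).powersetCard m).filter fun S => Asc (allPos G) b S).card := by
  have h1 := expand_ind h b N 0 (allPos G) (Nat.zero_add N) (fun l _ hl => absurd hl (by omega))
    (fun l hl => absurd hl (by omega)) (fun i _ => rfl)
  have h2 : unv (allPos G) b 0 = und G := by
    unfold unv
    rw [Finset.filter_eq_self]
    intro i _ l hl
    exact absurd hl (by omega)
  rw [h1, h2, Polynomial.finsetSum_coeff]
  simp only [Polynomial.coeff_X_pow]
  rw [Finset.sum_boole]
  congr 2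
  ext S
  simp only [Finset.mem_filter, Finset.mem_powerset, Finset.mem_powersetCard]
  constructor
  · rintro ⟨⟨h3, h4⟩, h5⟩
    exact ⟨⟨h3, h5.symm⟩, h4⟩
  · rintro ⟨⟨h3, h5⟩, h4⟩
    exact ⟨⟨h3, h4⟩, h5.symm⟩

end Pool.Agent.Helper76.PK
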