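import Pool.Agent.Helper76.PK.Travel

/-!
# PK-02: the state formula, induction along the travel

Notation: `v l = D.tr^[l] b`. Hypotheses of `expand_ind` for `D` and `k`: (A1) the travel has not come back to `b` before the time `k`; (A2) every passage `v l`, `l < k`, is smoothed, or an over passage,
or the other passage of its crossing was visited earlier; (A3) a crossing which was not visited before the time `k` is positive. `unv D b k`: the lower passages of the crossings not visited before the time `k`.

Induction on `n`, `k + n = N`. `v 0, ..., v (k - 1)` are different (`iterate_ne`).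

Case 1: `0 < k` and `v k = b` (this is always so if `n = 0`: `v 0, ..., v (N - 1)` are all passages). The orbit `C` of `b` is `{v l | l < k}` (`closed_orbit`).
* `C` = everything: all `v m` are some `v l`, `l < k`; `IsConway.knot` applies: let `v m` be not smoothed and `op (v m)` not among `v l`, `l ≤ m`. If `k ≤ m` then everything was visited, contradiction. So `m < k` and (A2) gives
  `ovr (v m)`. `nab D = 1`. `unv D b k = ∅`, and `Asc D b ∅` holds (`D.sm ∅ = D`), so the sum is `X ^ 0 = 1`.
* `C` is not everything: `IsConway.split` applies with `C`: if `i = v l ∈ C`, `op i ∉ C`, `st i ≠ smooth` then (A2) gives `ovr i`. `nab D = 0`. For every `S ⊆ unv D b k` the travel of `D.sm S` is the same up to the time `k`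
  (`iterate_congr`: the visited crossings are not in `S`), so it comes back to `b` at the time `k` and does not visit everything: `¬ Asc D b S`, and the sum is empty.

Case 2: `k = 0` or `v k ≠ b`; then `k < N` and `i := v k` is different from all `v l`, `l < k`. (If `v k = v l`, `0 < l < k`, then `v (k - l) = b`.)
* 2a: `st i = smooth`, or `ovr i`, or `op i = v l` for an `l < k`. The hypotheses hold for `D, k + 1`. The sums over `unv D b k` and `unv D b (k + 1)` agree: if the crossing of `i` was not visited before, it is positive by (A3), so
  `ovr i = true`, `lf i = false`, and `op i ∈ unv D b k` is the only element which is not in `unv D b (k + 1)`. A set `S ∋ op i` is not ascending: the travel of `D.sm S` is the same up to the time `k`, where it reaches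
  `i = op (op i)`, but it has not visited `op i` before.
* 2b: otherwise `i, op i` are unvisited, `st i = pos`, `lf i = true`, so `i ∈ unv D b k`. `nab D = nab (D.upd i neg) + X * nab (D.upd i smooth)` (`skein`, `upd_self`). The hypotheses hold for both diagrams and `k + 1` (the travel is
  the same up to the time `k`; in `D.upd i neg` the passage `i` is an over passage), and `unv (D.upd i _) b (k + 1) = (unv D b k).erase i`. Split the sum for `D` into the `S` without `i` (`Asc D b S ↔ Asc (D.upd i neg) b S`: `tr` does
  not see `pos`, `neg`) and the `S = insert i S'` (`Asc D b (insert i S') ↔ Asc (D.upd i smooth) b S'` by `sm_insert`; the condition for `i ∈ S` holds, since `i` is visited at the time `k` and `op i` is not visited before).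
-/

set_option autoImplicit false

namespace Pool.Agent.Helper76.PK

open Polynomial Classical

variable {N : ℕ} {G : Shadow N}

/-- The lower passages of the crossings which are not visited before the time `k`. -/
noncomputable def unv (D : Diag G) (b : Fin N) (k : ℕ) : Finset (Fin N) :=
  (und G).filter fun i => ∀ l < k, D.tr^[l] b ≠ i ∧ D.tr^[l] b ≠ G.op i

private theorem ei_same (D : Diag G) (b : Fin N) (k : ℕ) (S : Finset (Fin N)) (hS : S ⊆ unv D b k) :
    ∀ l ≤ k, (D.sm S).tr^[l] b = D.tr^[l] b := by
  apply iterate_congr
  intro l hl
  have h1 : D.tr^[l] b ∉ S := fun h => ((Finset.mem_filter.1 (hS h)).2 l hl).1 rfl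
  have h2 : G.op (D.tr^[l] b) ∉ S := fun h =>
    ((Finset.mem_filter.1 (hS h)).2 l hl).2 (G.op_op _).symm
  rw [sm_st_not D S _ h1 h2]

private theorem ei_sm_empty (D : Diag G) : D.sm ∅ = D := by
  ext j
  simp [Diag.sm]

private theorem ei_closed {nab : Diag G → ℤ[X]} (h : IsConway nab) (b : Fin N) (k : ℕ) (D : Diag G)
    (hk : 0 < k) (hb : D.tr^[k] b = b)
    (H2 : ∀ l < k, D.st (D.tr^[l] b) = .smooth ∨ D.ovr (D.tr^[l] b) = true ∨
        ∃ l' < l, D.tr^[l'] b = G.op (D.tr^[l] b)) :
    nab D = ∑ S ∈ (unv D b k).powerset.filter (fun S => Asc D b S), X ^ S.card := by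
  have hC : ∀ m, ∃ l < k, D.tr^[l] b = D.tr^[m] b := fun m =>
    ⟨m % k, Nat.mod_lt _ hk, (closed_orbit D b hk hb m).symm⟩
  by_cases hall : ∀ i, ∃ l < k, D.tr^[l] b = i
  · have h1 : nab D = 1 := by
      apply h.knot D b
      · intro i
        obtain ⟨l, _, hl⟩ := hall i
        exact ⟨l, hl⟩
      · intro m hm hm2
        rcases lt_or_ge m k with h3 | h3
        · rcases H2 m h3 with h4 | h4 | ⟨l', h4, h5⟩
          · exact absurd h4 hm
          · exact h4
          · exact absurd h5 (hm2 l' h4.le)
        · obtain ⟨l, hl, hl2⟩ := hall (G.op (D.tr^[m] b))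
          exact absurd hl2 (hm2 l (hl.le.trans h3))
    have h2 : unv D b k = ∅ := by
      rw [unv, Finset.filter_eq_empty_iff]
      intro i _ h3
      obtain ⟨l, hl, hl2⟩ := hall i
      exact (h3 l hl).1 hl2
    have h3 : Asc D b ∅ := by
      refine ⟨?_, by simp⟩
      rw [ei_sm_empty]
      intro i
      obtain ⟨l, _, hl⟩ := hall i
      exact ⟨l, hl⟩
    rw [h1, h2, Finset.powerset_empty, Finset.filter_singleton, if_pos h3, Finset.sum_singleton,
      Finset.card_empty, pow_zero]
  · push Not at hall
    obtain ⟨i0, hi0⟩ := hall
    have hmem : ∀ i, i ∈ (Finset.range k).image (fun l => D.tr^[l] b) ↔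
        ∃ l < k, D.tr^[l] b = i := by
      intro i
      simp
    have h1 : nab D = 0 := by
      apply h.split D ((Finset.range k).image (fun l => D.tr^[l] b))
      · exact ⟨b, (hmem b).2 ⟨0, hk, rfl⟩⟩
      · intro h2
        have h3 := Finset.mem_univ i0
        rw [← h2, hmem] at h3
        obtain ⟨l, hl, hl2⟩ := h3
        exact hi0 l hl hl2
      · intro i
        rw [hmem, hmem]
        constructor
        · rintro ⟨l, hl, hl2⟩
          rcases Nat.eq_zero_or_pos l with rfl | hl0
          · refine ⟨k - 1, by omega, ?_⟩
            apply tr_inj D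
            rw [← Function.iterate_succ_apply' D.tr, ← hl2]
            have : (k - 1).succ = k := by omega
            rw [this, hb]
            rfl
          · refine ⟨l - 1, by omega, ?_⟩
            apply tr_inj D
            rw [← Function.iterate_succ_apply' D.tr, ← hl2]
            have : (l - 1).succ = l := by omega
            rw [this]
        · rintro ⟨l, hl, rfl⟩
          obtain ⟨l', hl', h5⟩ := hC (l + 1)
          refine ⟨l', hl', ?_⟩
          rw [h5, Function.iterate_succ_apply']
      · intro i hi hi2 hi3
        rw [hmem] at hi hi2
        obtain ⟨l, hl, rfl⟩ := hi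
        rcases H2 l hl with h4 | h4 | ⟨l', h4, h5⟩
        · exact absurd h4 hi3
        · exact h4
        · exact absurd ⟨l', h4.trans hl, h5⟩ hi2
    rw [h1]
    symm
    apply Finset.sum_eq_zero
    intro S hS
    exfalso
    rw [Finset.mem_filter, Finset.mem_powerset] at hS
    obtain ⟨m, hm⟩ := hS.2.1 i0
    have h2 := ei_same D b k S hS.1
    have h3 : (D.sm S).tr^[k] b = b := (h2 k le_rfl).trans hb
    rw [closed_orbit (D.sm S) b hk h3, h2 _ (Nat.mod_lt _ hk).le] at hm
    exact hi0 _ (Nat.mod_lt _ hk) hm

private theorem ei_asc_congr (D D' : Diag G) (b : Fin N) (S : Finset (Fin N))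
    (h : ∀ j, D'.st j = .smooth ↔ D.st j = .smooth) : Asc D' b S ↔ Asc D b S := by
  have h1 : (D'.sm S).tr = (D.sm S).tr := by
    funext j
    have h2 : (D'.sm S).st j = .smooth ↔ (D.sm S).st j = .smooth := by
      by_cases hj : j ∈ S ∨ G.op j ∈ S
      · rw [sm_st_mem D S j hj, sm_st_mem D' S j hj]
      · push Not at hj
        rw [sm_st_not D S j hj.1 hj.2, sm_st_not D' S j hj.1 hj.2]
        exact h j
    unfold Diag.tr
    by_cases h3 : (D.sm S).st j = .smooth
    · rw [if_pos h3, if_pos (h2.2 h3)]
    · rw [if_neg h3, if_neg (fun h4 => h3 (h2.1 h4))]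
  unfold Asc
  rw [h1]

theorem expand_ind {nab : Diag G → ℤ[X]} (h : IsConway nab) (b : Fin N) (n : ℕ) :
    ∀ (k : ℕ) (D : Diag G), k + n = N →
      (∀ l, 0 < l → l < k → D.tr^[l] b ≠ b) →
      (∀ l < k, D.st (D.tr^[l] b) = .smooth ∨ D.ovr (D.tr^[l] b) = true ∨
        ∃ l' < l, D.tr^[l'] b = G.op (D.tr^[l] b)) →
      (∀ i, (∀ l < k, D.tr^[l] b ≠ i ∧ D.tr^[l] b ≠ G.op i) → D.st i = .pos) →
      nab D = ∑ S ∈ (unv D b k).powerset.filter (fun S => Asc D b S), X ^ S.card := by
  induction n with
  | zero =>
    intro k D hkn H1 H2 H3
    obtain ⟨m, hm0, hmN, hmb⟩ := tr_period D b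
    have hmk : m = k := by
      rcases lt_or_ge m k with h1 | h1
      · exact absurd hmb (H1 m hm0 h1)
      · omega
    subst hmk
    exact ei_closed h b m D hm0 hmb H2
  | succ n ih =>
    intro k D hkn H1 H2 H3
    by_cases hcl : 0 < k ∧ D.tr^[k] b = b
    · exact ei_closed h b k D hcl.1 hcl.2 H2
    have H1' : ∀ l, 0 < l → l < k + 1 → D.tr^[l] b ≠ b := by
      intro l hl0 hl
      rcases Nat.lt_succ_iff_lt_or_eq.1 hl with h1 | h1
      · exact H1 l hl0 h1
      · subst h1
        exact fun h2 => hcl ⟨hl0, h2⟩
    have hne : ∀ l < k, D.tr^[l] b ≠ D.tr^[k] b := fun l hl =>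
      iterate_ne D b H1' hl (Nat.lt_succ_self k)
    by_cases hA : D.st (D.tr^[k] b) = .smooth ∨ D.ovr (D.tr^[k] b) = true ∨
        ∃ l' < k, D.tr^[l'] b = G.op (D.tr^[k] b)
    · rw [ih (k + 1) D (by omega) H1' (by
        intro l hl
        rcases Nat.lt_succ_iff_lt_or_eq.1 hl with h1 | h1
        · exact H2 l h1
        · subst h1
          exact hA) (fun i hi => H3 i fun l hl => hi l (by omega))]
      apply Finset.sum_subset
      · intro S hS
        rw [Finset.mem_filter, Finset.mem_powerset] at hS ⊢
        refine ⟨fun j hj => ?_, hS.2⟩
        have h1 := Finset.mem_filter.1 (hS.1 hj)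
        exact Finset.mem_filter.2 ⟨h1.1, fun l hl => h1.2 l (by omega)⟩
      · intro S hS hS'
        exfalso
        apply hS'
        rw [Finset.mem_filter, Finset.mem_powerset] at hS ⊢
        refine ⟨fun j hj => ?_, hS.2⟩
        have h1 := Finset.mem_filter.1 (hS.1 hj)
        refine Finset.mem_filter.2 ⟨h1.1, fun l hl => ?_⟩
        rcases Nat.lt_succ_iff_lt_or_eq.1 hl with h2 | h2
        · exact h1.2 l h2
        · subst h2
          have hlf : G.lf j = true := (Finset.mem_filter.1 h1.1).2
          have hpos : D.st j = .pos := H3 j h1.2
          constructor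
          · intro h3
            rw [h3] at hA
            rcases hA with h4 | h4 | ⟨l', h4, h5⟩
            · rw [hpos] at h4
              cases h4
            · unfold Diag.ovr at h4
              rw [hpos] at h4
              simp [hlf] at h4
            · exact (h1.2 l' h4).2 h5
          · intro h3
            have h4 := ei_same D b l S hS.1
            obtain ⟨m, hm, hm2⟩ := hS.2.2 j hj l ((h4 l le_rfl).trans h3)
            rw [h4 m hm.le] at hm2
            exact (h1.2 m hm).1 hm2
    · push Not at hA
      obtain ⟨hA1, hA2, hA3⟩ := hA
      set i := D.tr^[k] b with hi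
      have hun : ∀ l < k, D.tr^[l] b ≠ i ∧ D.tr^[l] b ≠ G.op i := fun l hl => ⟨hne l hl, hA3 l hl⟩
      have hpos : D.st i = .pos := H3 i hun
      have hlf : G.lf i = true := by
        unfold Diag.ovr at hA2
        rw [hpos] at hA2
        simpa using hA2
      have hiU : i ∈ unv D b k :=
        Finset.mem_filter.2 ⟨Finset.mem_filter.2 ⟨Finset.mem_univ _, hlf⟩, hun⟩
      have hsk := h.skein D i
      have hself : D.upd i .pos = D := by
        have := upd_self D i
        rwa [hpos] at this
      rw [hself] at hsk
      have hst : ∀ t, ∀ l < k, (D.upd i t).st (D.tr^[l] b) = D.st (D.tr^[l] b) := fun t l hl =>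
        upd_st_ne D i t _ (hun l hl).1 (hun l hl).2
      have htr : ∀ t, ∀ l ≤ k, (D.upd i t).tr^[l] b = D.tr^[l] b := fun t =>
        iterate_congr D (D.upd i t) b k fun l hl => by rw [hst t l hl]
      have key : ∀ t, (t = .smooth ∨ t = .neg) → nab (D.upd i t) =
          ∑ S ∈ ((unv D b k).erase i).powerset.filter (fun S => Asc (D.upd i t) b S),
            X ^ S.card := by
        intro t ht
        have hU : unv (D.upd i t) b (k + 1) = (unv D b k).erase i := by
          ext j
          rw [Finset.mem_erase, unv, unv, Finset.mem_filter, Finset.mem_filter]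
          constructor
          · rintro ⟨h1, h2⟩
            refine ⟨?_, h1, fun l hl => ?_⟩
            · intro h3
              have h4 := (h2 k (Nat.lt_succ_self k)).1
              rw [htr t k le_rfl] at h4
              exact h4 h3.symm
            · have h4 := h2 l (by omega)
              rwa [htr t l hl.le] at h4
          · rintro ⟨h1, h2, h3⟩
            refine ⟨h2, fun l hl => ?_⟩
            rw [htr t l (by omega)]
            rcases Nat.lt_succ_iff_lt_or_eq.1 hl with h4 | h4
            · exact h3 l h4
            · subst h4
              refine ⟨fun h5 => h1 h5.symm, fun h5 => ?_⟩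
              have h6 : G.lf j = true := (Finset.mem_filter.1 h2).2
              have h7 := G.lf_op j
              rw [← h5] at h7
              change G.lf i = _ at h7
              rw [hlf, h6] at h7
              simp at h7
        rw [← hU]
        apply ih (k + 1) (D.upd i t) (by omega)
        · intro l hl0 hl
          rw [htr t l (by omega)]
          exact H1' l hl0 hl
        · intro l hl
          rw [htr t l (by omega)]
          rcases Nat.lt_succ_iff_lt_or_eq.1 hl with h4 | h4
          · have h5 : (D.upd i t).ovr (D.tr^[l] b) = D.ovr (D.tr^[l] b) := by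
              unfold Diag.ovr
              rw [hst t l h4]
            rw [hst t l h4, h5]
            rcases H2 l h4 with h6 | h6 | ⟨l', h6, h7⟩
            · exact Or.inl h6
            · exact Or.inr (Or.inl h6)
            · exact Or.inr (Or.inr ⟨l', h6, by rw [htr t l' (by omega)]; exact h7⟩)
          · subst h4
            have h5 : (D.upd i t).st i = t := upd_st D i t i (Or.inl rfl)
            rcases ht with rfl | rfl
            · exact Or.inl h5
            · refine Or.inr (Or.inl ?_)
              unfold Diag.ovr
              change (match (D.upd i .neg).st i with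
                | .pos => !G.lf i
                | .neg => G.lf i
                | .smooth => false) = true
              rw [h5]
              exact hlf
        · intro j hj
          have h5 : j ≠ i := by
            intro h6
            have h7 := (hj k (Nat.lt_succ_self k)).1
            rw [htr t k le_rfl] at h7
            exact h7 h6.symm
          have h6 : j ≠ G.op i := by
            intro h6
            have h7 := (hj k (Nat.lt_succ_self k)).2
            rw [htr t k le_rfl, h6, G.op_op] at h7
            exact h7 rfl
          rw [upd_st_ne D i t j h5 h6]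
          apply H3
          intro l hl
          have h7 := hj l (by omega)
          rwa [htr t l hl.le] at h7
      have e1 := key .smooth (Or.inl rfl)
      have e2 := key .neg (Or.inr rfl)
      have e3 : nab D = nab (D.upd i .neg) + X * nab (D.upd i .smooth) := by
        rw [← hsk]
        ring
      have hins : insert i ((unv D b k).erase i) = unv D b k := Finset.insert_erase hiU
      have a1 : ∀ S : Finset (Fin N), Asc (D.upd i .neg) b S ↔ Asc D b S := by
        intro S
        apply ei_asc_congr
        intro j
        by_cases hj : j = i ∨ j = G.op i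
        · rw [upd_st D i .neg j hj]
          have h5 : D.st j = .pos := by
            rcases hj with rfl | rfl
            · exact hpos
            · rw [D.st_op]
              exact hpos
          rw [h5]
          simp
        · push Not at hj
          rw [upd_st_ne D i .neg j hj.1 hj.2]
      have a2 : ∀ S ∈ ((unv D b k).erase i).powerset,
          (Asc (D.upd i .smooth) b S ↔ Asc D b (insert i S)) := by
        intro S hS
        rw [Finset.mem_powerset] at hS
        have hS2 : insert i S ⊆ unv D b k := by
          rw [← hins]
          exact Finset.insert_subset_insert i hS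
        have h5 := ei_same D b k (insert i S) hS2
        unfold Asc
        rw [sm_insert]
        constructor
        · rintro ⟨b1, b2⟩
          refine ⟨b1, fun j hj m hm => ?_⟩
          rcases Finset.mem_insert.1 hj with rfl | hj'
          · refine ⟨k, ?_, h5 k le_rfl⟩
            by_contra hkm
            push Not at hkm
            rw [h5 m hkm] at hm
            rcases hkm.lt_or_eq with h6 | h6
            · exact (hun m h6).2 hm
            · rw [h6] at hm
              exact G.op_ne _ hm.symm
          · exact b2 j hj' m hm
        · rintro ⟨b1, b2⟩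
          exact ⟨b1, fun j hj m hm => b2 j (Finset.mem_insert_of_mem hj) m hm⟩
      rw [e3, e1, e2, Finset.sum_filter, Finset.sum_filter, Finset.sum_filter]
      conv_rhs => rw [← hins]
      rw [Finset.sum_powerset_insert (Finset.notMem_erase i _), Finset.mul_sum]
      congr 1
      · apply Finset.sum_congr rfl
        intro S _
        rw [if_congr (a1 S) rfl rfl]
      · apply Finset.sum_congr rfl
        intro S hS
        have h6 : i ∉ S := fun h7 => Finset.notMem_erase i _ (Finset.mem_powerset.1 hS h7)
        rw [if_congr (a2 S hS) rfl rfl, Finset.card_insert_of_notMem h6]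
        split_ifs
        · ring
        · ring

end Pool.Agent.Helper76.PK
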