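import Pool.Agent.Helper76.PK.PairIneq

/-!
# PK-17: the theorem

`2 c_4 ≤ ∑_{x, y} ∑_{z, w} al2` (`coeff_four`). If `¬ A2 G x y` then `al2 (pv G x y z w) = 0` (`al2_ne_imp`: `v 0 < v 1 < v 2 < v 3` is `A2 G x y`). So by `pair_ineq` `2 c_4 ≤ ∑_{(x, y), A2} (2 nA - 2) = nA (2 nA - 2)`. `0 ≤ nA ≤ c_2` (`coeff_two`); if `nA = 0` then
`c_4 ≤ 0 ≤ c_2 (c_2 - 1)` (`c_2 ≥ 0` an integer: `c_2 = 0` or `c_2 ≥ 1`); if `nA ≥ 1` then `nA (nA - 1) ≤ c_2 (c_2 - 1)`. (`nlinarith`.) `N ≠ 0` because of `Planar` (`Fin 0 × Bool` is empty, so the number of the faces is `0` and `0 ≠ 4`).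
-/

set_option autoImplicit false

namespace Pool.Agent.Helper76.PK

open Polynomial Classical

theorem final {N : ℕ} (G : Shadow N) (hG : G.Planar) (nab : Diag G → ℤ[X]) (h : IsConway nab) :
    (nab (allPos G)).coeff 0 = 1 ∧
      (nab (allPos G)).coeff 4 ≤ (nab (allPos G)).coeff 2 * ((nab (allPos G)).coeff 2 - 1) := by
  have hN : N ≠ 0 := by
    rintro rfl
    have h1 : IsEmpty (Quot fun d d' : Fin 0 × Bool => d' = G.face d) :=
      ⟨fun q => by
        induction q using Quot.ind with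
        | mk d => exact d.1.elim0⟩
    have h2 := hG
    unfold Shadow.Planar at h2
    rw [Nat.card_of_isEmpty] at h2
    omega
  have hNZ : NeZero N := ⟨hN⟩
  refine ⟨coeff_zero h, ?_⟩
  have h2 := coeff_two h
  have h4 := coeff_four h
  have hle : ∑ x ∈ und G, ∑ y ∈ und G, ∑ z ∈ und G, ∑ w ∈ und G, al2 (pv G x y z w) ≤
      ∑ x ∈ und G, ∑ y ∈ und G, (if A2 G x y then 1 else 0) * (2 * nA G - 2) := by
    refine Finset.sum_le_sum fun x hx => Finset.sum_le_sum fun y hy => ?_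
    split_ifs with hA
    · rw [one_mul]
      exact pair_ineq G hG hx hy hA
    · rw [zero_mul]
      refine le_of_eq (Finset.sum_eq_zero fun z _ => Finset.sum_eq_zero fun w _ => ?_)
      by_contra hne
      obtain ⟨-, a, b, c⟩ := al2_ne_imp _ hne
      exact hA ⟨a, b, c⟩
  have heq : ∑ x ∈ und G, ∑ y ∈ und G, (if A2 G x y then 1 else 0) * (2 * nA G - 2) =
      nA G * (2 * nA G - 2) := by
    simp only [← Finset.sum_mul]
    rfl
  have hn0 : 0 ≤ nA G := by
    unfold nA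
    refine Finset.sum_nonneg fun x _ => Finset.sum_nonneg fun y _ => ?_
    split_ifs <;> norm_num
  have h5 : (nab (allPos G)).coeff 4 ≤ nA G * (nA G - 1) := by
    have h6 := h4.trans (hle.trans heq.le)
    linarith
  obtain ⟨c, hc⟩ : ∃ c, c = (nab (allPos G)).coeff 2 := ⟨_, rfl⟩
  obtain ⟨n, hn⟩ : ∃ n, n = nA G := ⟨_, rfl⟩
  rw [← hc, ← hn] at h2
  rw [← hn] at hn0 h5
  rw [← hc]
  refine h5.trans ?_
  rcases hn0.eq_or_lt with h0 | h0
  · rw [← h0, zero_mul]
    rcases (hn0.trans h2).eq_or_lt with h1 | h1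
    · rw [← h1]; norm_num
    · exact mul_nonneg h1.le (by omega)
  · exact mul_le_mul h2 (by omega) (by omega) (by omega)

end Pool.Agent.Helper76.PK
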