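import Pool.Agent.Helper76.PK.Travel

/-!
# PK-11: the space of the flows

A flow gives every edge (from the passage `i` to `nxt i`) a number `c i`, such that at every crossing the sum of the two incoming edges is the sum of the two outgoing edges. There are `N` edges and `n = N / 2` crossings, the dimension is at most `n + 1`.

Proof. Let `U = und G`, `|U| = n`, `2 n = N` (`op` is a bijection from `und G` to its complement), and `δ : (Fin N → ℚ) → (U → ℚ)`, `δ c x = c (prv x) + c (prv (op x)) - c x - c (op x)`, linear; the flows are its kernel (for `i ∉ U` use `op i ∈ U`).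
`finrank ker + finrank range = N` (`LinearMap.finrank_range_add_finrank_ker`). `finrank range ≥ n - 1`: for the edge `i`, `δ (Pi.single i 1) = χ (nxt i) - χ i`, where `χ j` is the indicator function of the crossing of `j` (if `nxt i` and `i` belong to the same crossing both
sides are `0`). By induction along the knot `χ j - χ j0 ∈ range` for all `j` (`j0 : Fin N` fixed; every passage is `nxt^[k] j0`). So `range ⊔ span {χ j0}` contains all `χ j`, and is the whole space of dimension `n`, so `n ≤ finrank range + 1`
(`Submodule.finrank_add_le_finrank_add_finrank`, `finrank_span_singleton`). If `N = 0` everything is `0`.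
-/

set_option autoImplicit false

namespace Pool.Agent.Helper76.PK

variable {N : ℕ}

/-- The flows on the edges of the shadow. -/
def flow (G : Shadow N) : Submodule ℚ (Fin N → ℚ) where
  carrier := {c | ∀ i, c (prv i) + c (prv (G.op i)) = c i + c (G.op i)}
  add_mem' := by
    intro a b ha hb i
    have h1 := ha i
    have h2 := hb i
    simp only [Pi.add_apply]
    linarith
  zero_mem' := by
    intro i
    simp
  smul_mem' := by
    intro t a ha i
    have h1 := ha i
    simp only [Pi.smul_apply, smul_eq_mul]
    rw [← mul_add, h1, mul_add]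

private theorem FlowDim_card (G : Shadow N) : 2 * (und G).card = N := by
  classical
  have h1 : (und G).card = (Finset.univ.filter fun i : Fin N => ¬ G.lf i = true).card := by
    apply Finset.card_bij (fun i _ => G.op i)
    · intro i hi
      rw [und, Finset.mem_filter] at hi
      rw [Finset.mem_filter]
      refine ⟨Finset.mem_univ _, ?_⟩
      rw [G.lf_op, hi.2]
      simp
    · intro i _ j _ h
      exact op_inj G h
    · intro j hj
      rw [Finset.mem_filter] at hj
      refine ⟨G.op j, ?_, G.op_op j⟩
      rw [und, Finset.mem_filter]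
      refine ⟨Finset.mem_univ _, ?_⟩
      rw [G.lf_op]
      simpa using hj.2
  have h2 := Finset.card_filter_add_card_filter_not (s := (Finset.univ : Finset (Fin N)))
    (fun i : Fin N => G.lf i = true)
  rw [Finset.card_univ, Fintype.card_fin] at h2
  rw [two_mul]
  nth_rw 2 [h1]
  exact h2

/-- The divergence at the crossings. -/
private noncomputable def FlowDim_dl (G : Shadow N) :
    (Fin N → ℚ) →ₗ[ℚ] ({x : Fin N // x ∈ und G} → ℚ) where
  toFun c x := c (prv x.1) + c (prv (G.op x.1)) - c x.1 - c (G.op x.1)
  map_add' a b := by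
    funext x
    simp only [Pi.add_apply]
    ring
  map_smul' t a := by
    funext x
    simp only [Pi.smul_apply, smul_eq_mul, RingHom.id_apply]
    ring

private theorem FlowDim_ker (G : Shadow N) : LinearMap.ker (FlowDim_dl G) = flow G := by
  ext c
  rw [LinearMap.mem_ker]
  constructor
  · intro h i
    by_cases hi : i ∈ und G
    · have h1 := congrFun h ⟨i, hi⟩
      have h2 : c (prv i) + c (prv (G.op i)) - c i - c (G.op i) = 0 := h1
      linarith
    · have hi' : G.op i ∈ und G := by
        rw [und, Finset.mem_filter] at hi ⊢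
        refine ⟨Finset.mem_univ _, ?_⟩
        rw [G.lf_op]
        simpa using hi
      have h1 := congrFun h ⟨G.op i, hi'⟩
      have h2 : c (prv (G.op i)) + c (prv (G.op (G.op i))) - c (G.op i) - c (G.op (G.op i)) = 0 := h1
      rw [G.op_op] at h2
      linarith
  · intro h
    funext x
    have h1 : c (prv x.1) + c (prv (G.op x.1)) = c x.1 + c (G.op x.1) := h x.1
    show c (prv x.1) + c (prv (G.op x.1)) - c x.1 - c (G.op x.1) = 0
    linarith

/-- The indicator function of the crossing of `j`. -/
private def FlowDim_chi (G : Shadow N) (j : Fin N) : {x : Fin N // x ∈ und G} → ℚ :=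
  fun x => (if x.1 = j then 1 else 0) + (if G.op x.1 = j then 1 else 0)

private theorem FlowDim_dl_single (G : Shadow N) (i : Fin N) :
    FlowDim_dl G (Pi.single i 1) = FlowDim_chi G (nxt i) - FlowDim_chi G i := by
  funext x
  show (Pi.single i 1 : Fin N → ℚ) (prv x.1) + (Pi.single i 1 : Fin N → ℚ) (prv (G.op x.1))
    - (Pi.single i 1 : Fin N → ℚ) x.1 - (Pi.single i 1 : Fin N → ℚ) (G.op x.1) =
    ((if x.1 = nxt i then 1 else 0) + (if G.op x.1 = nxt i then 1 else 0)) -
      ((if x.1 = i then 1 else 0) + (if G.op x.1 = i then 1 else 0))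
  have h1 : ∀ j : Fin N, (prv j = i) ↔ (j = nxt i) := by
    intro j
    constructor
    · intro h
      rw [← h, nxt_prv]
    · intro h
      rw [h, prv_nxt]
  simp only [Pi.single_apply, h1]
  ring

private theorem FlowDim_mem (G : Shadow N) (j0 : Fin N) (j : Fin N) :
    FlowDim_chi G j - FlowDim_chi G j0 ∈ LinearMap.range (FlowDim_dl G) := by
  have key : ∀ k : ℕ, ∀ i : Fin N, i.val = k →
      FlowDim_chi G i - FlowDim_chi G ⟨0, j0.pos⟩ ∈ LinearMap.range (FlowDim_dl G) := by
    intro k
    induction k with
    | zero =>
      intro i hi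
      have h1 : i = ⟨0, j0.pos⟩ := Fin.ext hi
      rw [h1, sub_self]
      exact Submodule.zero_mem _
    | succ k ih =>
      intro i hi
      have hk : k < N := by
        have := i.isLt
        omega
      have h1 := ih ⟨k, hk⟩ rfl
      have h2 : nxt (⟨k, hk⟩ : Fin N) = i := by
        apply Fin.ext
        show (k + 1) % N = i.val
        rw [hi]
        exact Nat.mod_eq_of_lt (by have := i.isLt; omega)
      have h3 : FlowDim_chi G i - FlowDim_chi G ⟨k, hk⟩ ∈ LinearMap.range (FlowDim_dl G) := by
        refine ⟨Pi.single ⟨k, hk⟩ 1, ?_⟩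
        rw [FlowDim_dl_single, h2]
      have h4 := Submodule.add_mem _ h3 h1
      have h5 : FlowDim_chi G i - FlowDim_chi G ⟨k, hk⟩ +
          (FlowDim_chi G ⟨k, hk⟩ - FlowDim_chi G ⟨0, j0.pos⟩) =
          FlowDim_chi G i - FlowDim_chi G ⟨0, j0.pos⟩ := by abel
      rw [h5] at h4
      exact h4
  have h1 := key j.val j rfl
  have h2 := key j0.val j0 rfl
  have h3 := Submodule.sub_mem _ h1 h2
  have h4 : FlowDim_chi G j - FlowDim_chi G ⟨0, j0.pos⟩ -
      (FlowDim_chi G j0 - FlowDim_chi G ⟨0, j0.pos⟩) = FlowDim_chi G j - FlowDim_chi G j0 := by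
    abel
  rw [h4] at h3
  exact h3

private theorem FlowDim_chi_und (G : Shadow N) (j : {x : Fin N // x ∈ und G}) :
    FlowDim_chi G j.1 = Pi.single j 1 := by
  funext x
  have hx : G.lf x.1 = true := (Finset.mem_filter.mp x.2).2
  have hj : G.lf j.1 = true := (Finset.mem_filter.mp j.2).2
  have h1 : G.op x.1 ≠ j.1 := by
    intro h
    have h2 := G.lf_op x.1
    rw [h, hj, hx] at h2
    simp at h2
  show (if x.1 = j.1 then (1 : ℚ) else 0) + (if G.op x.1 = j.1 then 1 else 0) = _
  rw [if_neg h1, add_zero, Pi.single_apply]
  by_cases hxj : x = j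
  · rw [if_pos hxj, if_pos (congrArg Subtype.val hxj)]
  · rw [if_neg hxj, if_neg (fun h => hxj (Subtype.ext h))]

theorem finrank_flow (G : Shadow N) : 2 * Module.finrank ℚ (flow G) ≤ N + 2 := by
  classical
  have h1 := LinearMap.finrank_range_add_finrank_ker (FlowDim_dl G)
  rw [FlowDim_ker, Module.finrank_fin_fun] at h1
  have hc := FlowDim_card G
  rcases Nat.eq_zero_or_pos N with hN | hN
  · omega
  · have j0 : Fin N := ⟨0, hN⟩
    have h2 : (⊤ : Submodule ℚ ({x : Fin N // x ∈ und G} → ℚ)) ≤
        LinearMap.range (FlowDim_dl G) ⊔ Submodule.span ℚ {FlowDim_chi G j0} := by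
      intro v _
      have h3 : v = ∑ j, v j • (Pi.single j 1 : {x : Fin N // x ∈ und G} → ℚ) := by
        funext x
        rw [Finset.sum_apply]
        simp [Pi.single_apply]
      rw [h3]
      apply Submodule.sum_mem
      intro j _
      apply Submodule.smul_mem
      rw [← FlowDim_chi_und]
      have h4 : FlowDim_chi G j.1 = (FlowDim_chi G j.1 - FlowDim_chi G j0) + FlowDim_chi G j0 := by
        abel
      rw [h4]
      apply Submodule.add_mem
      · exact Submodule.mem_sup_left (FlowDim_mem G j0 j.1)
      · exact Submodule.mem_sup_right (Submodule.mem_span_singleton_self _)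
    have h3 := Submodule.finrank_mono h2
    rw [finrank_top, Module.finrank_fintype_fun_eq_card, Fintype.card_coe] at h3
    have h4 := Submodule.finrank_add_le_finrank_add_finrank (LinearMap.range (FlowDim_dl G))
      (Submodule.span ℚ {FlowDim_chi G j0})
    have h5 : Module.finrank ℚ (Submodule.span ℚ {FlowDim_chi G j0}) ≤ 1 := by
      have h6 := finrank_span_le_card (R := ℚ) ({FlowDim_chi G j0} : Set _)
      simpa using h6
    omega

end Pool.Agent.Helper76.PK
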