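import Pool.Agent.Helper76.PK.Loops
import Pool.Agent.Helper76.PK.CertDefs

/-!
# PK-14: the loop relations

`i`, `j` are passages with `i < op i`, `j < op j`; `I = (i, op i)`; `J = (j, op j)` if `out = false`, and then `op i < j`; `J` is the outside of `[j, op j]` if `out = true`, and then `j ≤ i`, `op i ≤ op j`.

Proof. `c e = 1` if `out = false` and `j ≤ e < op j`, or `out = true` and (`e < j` or `op j ≤ e`); `0` otherwise. `c` is a flow: it is the indicator function of the edges of a closed curve. At the crossing of a passage `r` different from `j`, `op j`: `c (prv r) = c r`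
and `c (prv (op r)) = c (op r)` (careful with `r = 0`, `prv 0 = N - 1`: both sides are `0` if `out = false`, as then `0 < j` because of `i < op i < j`, and `op j ≤ N - 1`, so the edge `N - 1` has `c = 0`; and if `out = true` and `0 < j` both are `1`; `r = 0 ≠ j`). At the crossing of `j`:
`c (prv j) + c (prv (op j)) = 0 + 1 = c j + c (op j)` for `out = false`, and `1 + 0 = 0 + 1` for `out = true`. `c e = 0` for `i ≤ e < op i`. `loop_sum` gives `∑_{r ∈ I} ± c (op r) = 0`. For `r ∈ I`, `op r` is not `j` or `op j` (otherwise `r` is `op j` or `j`, which are not in `I`), so `c (op r) = 1` iff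
`op r ∈ J`. A crossing `w ∈ und G` with the lower passage `w` in `I`, `op w ∈ J` contributes `+ 1` (`lf w = true`), one with `op w ∈ I`, `w ∈ J` contributes `- 1`; no crossing has both (`I`, `J` are disjoint). Split the sum over `r ∈ I` into `r ∈ und G` and `op r ∈ und G`
(reindex by `w = op r`): the sum is `- ∑_{w ∈ und G} sgn`.
-/

set_option autoImplicit false

namespace Pool.Agent.Helper76.PK

variable {N : ℕ}

private theorem kinds_prv_pos {r : Fin N} (h : 0 < r.val) : (prv r).val = r.val - 1 := by
  have hr := r.isLt
  change (r.val + N - 1) % N = r.val - 1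
  have e : r.val + N - 1 = (r.val - 1) + N := by omega
  rw [e, Nat.add_mod_right, Nat.mod_eq_of_lt (by omega)]

private theorem kinds_prv_zero {r : Fin N} (h : r.val = 0) : (prv r).val = N - 1 := by
  have hr := r.isLt
  change (r.val + N - 1) % N = N - 1
  rw [h, Nat.zero_add, Nat.mod_eq_of_lt (by omega)]

/-- the indicator of the closed curve `J` -/
private def kindsP (out : Bool) (a b e : ℕ) : Prop :=
  (out = false ∧ a ≤ e ∧ e < b) ∨ (out = true ∧ (e < a ∨ b ≤ e))

private theorem kinds_stay {j l r : Fin N} (hj : j < l) {out : Bool} (h0 : out = false → 0 < j.val)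
    (h1 : r ≠ j) (h2 : r ≠ l) :
    kindsP out j.val l.val (prv r).val ↔ kindsP out j.val l.val r.val := by
  have h1' : r.val ≠ j.val := fun h => h1 (Fin.ext h)
  have h2' : r.val ≠ l.val := fun h => h2 (Fin.ext h)
  have hjl : j.val < l.val := hj
  have hl := l.isLt
  unfold kindsP
  rcases Nat.eq_zero_or_pos r.val with hr | hr
  · rw [kinds_prv_zero hr, hr]
    cases out
    · have := h0 rfl
      simp only [true_and, Bool.false_eq_true, false_and, or_false]
      omega
    · simp only [Bool.true_eq_false, false_and, true_and, false_or]
      omega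
  · rw [kinds_prv_pos hr]
    cases out
    · simp only [true_and, Bool.false_eq_true, false_and, or_false]
      omega
    · simp only [Bool.true_eq_false, false_and, true_and, false_or]
      omega

private theorem kinds_turn {j l : Fin N} (hj : j < l) {out : Bool} (h0 : out = false → 0 < j.val) :
    (kindsP out j.val l.val (prv j).val ↔ kindsP out j.val l.val l.val) ∧
      (kindsP out j.val l.val (prv l).val ↔ kindsP out j.val l.val j.val) := by
  have hjl : j.val < l.val := hj
  have hl := l.isLt
  have e2 : (prv l).val = l.val - 1 := kinds_prv_pos (by omega)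
  unfold kindsP
  rw [e2]
  rcases Nat.eq_zero_or_pos j.val with hr | hr
  · rw [kinds_prv_zero hr]
    cases out
    · have := h0 rfl
      omega
    · simp only [Bool.true_eq_false, false_and, true_and, false_or]
      omega
  · rw [kinds_prv_pos hr]
    cases out
    · simp only [true_and, Bool.false_eq_true, false_and, or_false]
      omega
    · simp only [Bool.true_eq_false, false_and, true_and, false_or]
      omega

theorem sgn_sum (G : Shadow N) (hG : G.Planar) (i j : Fin N) (hi : i < G.op i) (hj : j < G.op j)
    (out : Bool) (h1 : out = false → G.op i < j) (h2 : out = true → j ≤ i ∧ G.op i ≤ G.op j) :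
    ∑ w ∈ und G, sgn i (G.op i) out j (G.op j) w (G.op w) = 0 := by
  classical
  have h0 : out = false → 0 < j.val := by
    intro h
    have h3 : (G.op i).val < j.val := h1 h
    omega
  let c : Fin N → ℚ := fun e => if kindsP out j.val (G.op j).val e.val then 1 else 0
  have hc : c ∈ flow G := by
    change ∀ r, c (prv r) + c (prv (G.op r)) = c r + c (G.op r)
    intro r
    have hstay : ∀ r, r ≠ j → r ≠ G.op j → c (prv r) = c r := by
      intro r hr1 hr2
      change (if _ then _ else _) = (if _ then _ else _)
      simp only [kinds_stay hj h0 hr1 hr2]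
    have hturn1 : c (prv j) = c (G.op j) := by
      change (if _ then _ else _) = (if _ then _ else _)
      simp only [(kinds_turn hj h0).1]
    have hturn2 : c (prv (G.op j)) = c j := by
      change (if _ then _ else _) = (if _ then _ else _)
      simp only [(kinds_turn hj h0).2]
    by_cases hr1 : r = j
    · rw [hr1, hturn1, hturn2]
      ring
    · by_cases hr2 : r = G.op j
      · rw [hr2, G.op_op, hturn1, hturn2]
        ring
      · have hr3 : G.op r ≠ j := by
          intro h
          apply hr2
          rw [← h, G.op_op]
        have hr4 : G.op r ≠ G.op j := by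
          intro h
          apply hr1
          rw [← G.op_op r, h, G.op_op]
        rw [hstay r hr1 hr2, hstay _ hr3 hr4]
  have hz : ∀ e, i ≤ e → e < G.op i → c e = 0 := by
    intro e he1 he2
    have he1' : i.val ≤ e.val := he1
    have he2' : e.val < (G.op i).val := he2
    refine if_neg ?_
    rintro (⟨ho, h3, h4⟩ | ⟨ho, h3⟩)
    · have h5 : (G.op i).val < j.val := h1 ho
      omega
    · obtain ⟨h5, h6⟩ := h2 ho
      have h5' : j.val ≤ i.val := h5
      have h6' : (G.op i).val ≤ (G.op j).val := h6
      omega
  have hls := loop_sum G hG c hc i hi hz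
  -- the indicator of `r ∈ I`, `op r ∈ J`
  let a : Fin N → ℤ := fun r =>
    if (inI i.val (G.op i).val r.val && inJ out j.val (G.op j).val (G.op r).val) = true then 1 else 0
  have hinI : ∀ x y z : ℕ, inI x y z = true ↔ (x < z ∧ z < y) := by
    intro x y z
    unfold inI
    rw [Bool.and_eq_true, Nat.blt_eq, Nat.blt_eq]
  have houtI : ∀ x y z : ℕ, outI x y z = true ↔ (z < x ∨ y < z) := by
    intro x y z
    unfold outI
    rw [Bool.or_eq_true, Nat.blt_eq, Nat.blt_eq]
  have hinJ : ∀ r : Fin N, i < r → r < G.op i →
      (inJ out j.val (G.op j).val (G.op r).val = true ↔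
        kindsP out j.val (G.op j).val (G.op r).val) := by
    intro r hr1 hr2
    have hr1' : i.val < r.val := hr1
    have hr2' : r.val < (G.op i).val := hr2
    unfold inJ kindsP
    cases out
    · simp only [Bool.false_eq_true, if_false, true_and, false_and, or_false]
      rw [hinI]
      have h3 : (G.op i).val < j.val := h1 rfl
      have h4 : (G.op r).val ≠ j.val := by
        intro h
        have h5 : G.op r = j := Fin.ext h
        have h6 : r = G.op j := by rw [← h5, G.op_op]
        have h7 : j.val < r.val := by rw [h6]; exact hj
        omega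
      omega
    · simp only [if_true, Bool.true_eq_false, false_and, true_and, false_or]
      rw [houtI]
      obtain ⟨h5, h6⟩ := h2 rfl
      have h5' : j.val ≤ i.val := h5
      have h4 : (G.op r).val ≠ (G.op j).val := by
        intro h
        have h7 : G.op r = G.op j := Fin.ext h
        have h8 : r = j := by rw [← G.op_op r, h7, G.op_op]
        rw [h8] at hr1'
        omega
      omega
  have hsum : ∑ r : Fin N, (if G.lf r then a r else - a r) = 0 := by
    have h3 : ((∑ r : Fin N, (if G.lf r then a r else - a r) : ℤ) : ℚ) = 0 := by
      rw [← hls, Finset.sum_filter]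
      push_cast
      refine Finset.sum_congr rfl fun r _ => ?_
      by_cases hr : i < r ∧ r < G.op i
      · rw [if_pos hr]
        have h4 : ((a r : ℤ) : ℚ) = c (G.op r) := by
          change (((if _ then (1 : ℤ) else 0) : ℤ) : ℚ) = (if _ then (1 : ℚ) else 0)
          have h5 : (inI i.val (G.op i).val r.val &&
              inJ out j.val (G.op j).val (G.op r).val) = true ↔
              kindsP out j.val (G.op j).val (G.op r).val := by
            rw [Bool.and_eq_true, hinI, hinJ r hr.1 hr.2]
            exact ⟨fun h => h.2, fun h => ⟨⟨hr.1, hr.2⟩, h⟩⟩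
          by_cases h6 : kindsP out j.val (G.op j).val (G.op r).val
          · rw [if_pos h6, if_pos (h5.2 h6)]
            norm_num
          · rw [if_neg h6, if_neg fun h => h6 (h5.1 h)]
            norm_num
        rw [← h4]
      · rw [if_neg hr]
        have h4 : a r = 0 := by
          refine if_neg fun h => hr ?_
          rw [Bool.and_eq_true, hinI] at h
          exact ⟨h.1.1, h.1.2⟩
        rw [h4]
        split_ifs <;> simp
    exact_mod_cast h3
  have hsgn : ∀ w : Fin N, sgn i (G.op i) out j (G.op j) w (G.op w) = a (G.op w) - a w := by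
    intro w
    change _ = (if _ then (1 : ℤ) else 0) - (if _ then (1 : ℤ) else 0)
    unfold sgn
    rw [G.op_op]
  have hsplit : ∑ r : Fin N, (if G.lf r then a r else - a r) =
      ∑ w ∈ und G, a w - ∑ w ∈ und G, a (G.op w) := by
    rw [← Finset.sum_filter_add_sum_filter_not Finset.univ (fun r => G.lf r = true), sub_eq_add_neg]
    congr 1
    · refine Finset.sum_congr rfl fun r hr => ?_
      rw [if_pos (Finset.mem_filter.1 hr).2]
    · rw [← Finset.sum_neg_distrib]
      refine Finset.sum_bij' (fun r _ => G.op r) (fun r _ => G.op r) ?_ ?_ ?_ ?_ ?_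
      · intro r hr
        have h3 := (Finset.mem_filter.1 hr).2
        refine Finset.mem_filter.2 ⟨Finset.mem_univ _, ?_⟩
        rw [G.lf_op]
        simpa using h3
      · intro r hr
        have h3 := (Finset.mem_filter.1 hr).2
        refine Finset.mem_filter.2 ⟨Finset.mem_univ _, ?_⟩
        rw [G.lf_op, h3]
        decide
      · intro r _
        exact G.op_op r
      · intro r _
        exact G.op_op r
      · intro r hr
        have h3 := (Finset.mem_filter.1 hr).2
        rw [if_neg h3, G.op_op]
  rw [hsplit] at hsum
  calc ∑ w ∈ und G, sgn i (G.op i) out j (G.op j) w (G.op w)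
      = ∑ w ∈ und G, (a (G.op w) - a w) := Finset.sum_congr rfl fun w _ => hsgn w
    _ = ∑ w ∈ und G, a (G.op w) - ∑ w ∈ und G, a w := Finset.sum_sub_distrib _ _
    _ = 0 := by omega

end Pool.Agent.Helper76.PK
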