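import Pool.Agent.Helper76.PK.Kinds
import Pool.Agent.Helper76.PK.AlLem

/-!
# PK-15: the sum of the relations for a crossing `z`

`lam v wu wo` with `v = pv G x y z z` is a sum over the 24 items; exchange the sums. For an item with `chain v l = false` all terms are `0`. If the chain holds: the entries `i1, i2` of the item are the two passages of one crossing (`0, 2`: `x, op x`; `1, 3`: `op y, y`; `4, 5` or `5, 4`: `z, op z` or
`op z, z`), the same for `j1, j2`, and the chain gives `v i1 < v i2`, `v j1 < v j2` and the conditions of `sgn_sum` (`out = false`: `v i2 < v j1`; `out = true`: `v j1 ≤ v i1`, `v i2 ≤ v j2`). By cases over the 24 items (`simp [chain]`, `Nat.blt_eq`, `omega`).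
A helper lemma: for an item with these properties `∑ w ∈ und G, sgn (v i1) (v i2) out (v j1) (v j2) w (G.op w) = 0`.
-/

set_option autoImplicit false

namespace Pool.Agent.Helper76.PK

variable {N : ℕ}

private theorem h86_gen (G : Shadow N) (hG : G.Planar) (a b c d : Fin N) (out : Bool)
    (hab : G.op a = b) (hcd : G.op c = d) (h1 : a < b) (h2 : c < d)
    (h3 : out = false → b < c) (h4 : out = true → c ≤ a ∧ b ≤ d) :
    ∑ w ∈ und G, sgn (a : ℕ) (b : ℕ) out (c : ℕ) (d : ℕ) (w : ℕ) (G.op w : ℕ) = 0 := by
  subst hab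
  subst hcd
  exact sgn_sum G hG a c h1 h2 out h3 h4

private theorem h86_list {α β : Type} (L : List α) (s : Finset β) (f : α → β → ℤ) :
    ∑ w ∈ s, (L.map fun t => f t w).sum = (L.map fun t => ∑ w ∈ s, f t w).sum := by
  induction L with
  | nil => simp
  | cons a L ih => simp [Finset.sum_add_distrib, ih]

theorem lam_sum (G : Shadow N) (hG : G.Planar) (x y z : Fin N) :
    ∑ w ∈ und G, lam (pv G x y z z) w (G.op w) = 0 := by
  unfold lam
  rw [h86_list]
  apply List.sum_eq_zero
  intro s hs
  rw [List.mem_map] at hs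
  obtain ⟨t, ht, rfl⟩ := hs
  by_cases hc : chain (pv G x y z z) t.2.1 = true
  · simp only [hc, if_true]
    rw [← Finset.mul_sum]
    refine mul_eq_zero_of_right _ ?_
    have v0 : pv G x y z z 0 = (x : ℕ) := rfl
    have v1 : pv G x y z z 1 = (G.op y : ℕ) := rfl
    have v2 : pv G x y z z 2 = (G.op x : ℕ) := rfl
    have v3 : pv G x y z z 3 = (y : ℕ) := rfl
    have v4 : pv G x y z z 4 = (z : ℕ) := rfl
    have v5 : pv G x y z z 5 = (G.op z : ℕ) := rfl
    simp only [items, List.mem_cons, List.not_mem_nil, or_false] at ht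
    rcases ht with rfl | rfl | rfl | rfl | rfl | rfl | rfl | rfl | rfl | rfl | rfl | rfl | rfl | rfl | rfl | rfl | rfl | rfl | rfl | rfl | rfl | rfl | rfl | rfl <;>
      simp only [chain, Bool.and_eq_true, Nat.blt_eq, v0, v1, v2, v3, v4, v5] at hc ⊢ <;>
      refine h86_gen G hG _ _ _ _ _ ?_ ?_ ?_ ?_ ?_ ?_ <;>
      first
        | rfl
        | exact G.op_op _
        | (simp only [Fin.lt_def]; omega)
        | (intro h; exact absurd h (by decide))
        | (intro _; simp only [Fin.lt_def]; omega)
        | (intro _; simp only [Fin.le_def]; omega)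
  · simp [hc]

end Pool.Agent.Helper76.PK
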