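import Pool.Agent.Helper76.PK.Wind

/-!
# PK-13: a loop disjoint from a flow

`loop_sum`: `f` from `winding`. For the edges `e` with `i ≤ e < op i` put `h e = f (e, true) = f (e, false)` (`c e = 0`). For a passage `r` with `i < r < op i` let `g = op r`; `c (prv r) = c r = 0`, so `c (prv g) = c g` (flow at the crossing).
* `lf r = true` (`lf g = false`): `face (prv r, true) = (prv g, false)`, `face (prv g, true) = (op g, true) = (r, true)`; so `h r - h (prv r) = f (prv g, true) - f (prv g, false) = c (prv g) = c g`.
* `lf r = false` (`lf g = true`): `face (prv r, true) = (g, true)`, `face (g, false) = (op g, true) = (r, true)`; so `h r - h (prv r) = f (g, false) - f (g, true) = - c g`.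
At the corner: let `q = op i`; the first edge of the loop is `i`, the last one `prv q = q - 1`. `lf q = true`, `lf i = false`: `face (i, false) = (prv (op i), false) = (prv q, false)`, so `h i = h (prv q)`. `lf q = false`, `lf i = true`: `face (prv q, true) = (op q, true) = (i, true)`, so again
`h i = h (prv q)`. The sum telescopes: `∑ (h r - h (r - 1)) = h (q - 1) - h i = 0`.
-/

set_option autoImplicit false

namespace Pool.Agent.Helper76.PK

variable {N : ℕ}

private theorem loops_nxt_prv (r : Fin N) : nxt (prv r) = r := by
  apply Fin.ext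
  change ((r.val + N - 1) % N + 1) % N = r.val
  have h := r.isLt
  rcases Nat.eq_zero_or_pos r.val with h0 | h0
  · rw [h0, Nat.zero_add, Nat.mod_eq_of_lt (by omega : N - 1 < N),
      show N - 1 + 1 = N by omega, Nat.mod_self]
  · rw [show r.val + N - 1 = (r.val - 1) + N by omega, Nat.add_mod_right,
      Nat.mod_eq_of_lt (by omega : r.val - 1 < N), show r.val - 1 + 1 = r.val by omega,
      Nat.mod_eq_of_lt h]

private theorem loops_prv_val (r : Fin N) (h : 0 < r.val) : (prv r).val = r.val - 1 := by
  change (r.val + N - 1) % N = r.val - 1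
  have h1 := r.isLt
  rw [show r.val + N - 1 = (r.val - 1) + N by omega, Nat.add_mod_right,
    Nat.mod_eq_of_lt (by omega)]

private theorem loops_tel (H : ℕ → ℚ) (a b : ℕ) (hab : a < b) :
    ∑ m ∈ Finset.Ioo a b, (H m - H (m - 1)) = H (b - 1) - H a := by
  obtain ⟨d, rfl⟩ := Nat.exists_eq_add_of_lt hab
  induction d with
  | zero =>
    have : Finset.Ioo a (a + 0 + 1) = ∅ := by
      ext m
      simp only [Finset.mem_Ioo, Finset.notMem_empty, iff_false]
      omega
    rw [this]
    simp
  | succ d ih =>
    have : Finset.Ioo a (a + (d + 1) + 1) = insert (a + d + 1) (Finset.Ioo a (a + d + 1)) := by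
      ext m
      simp only [Finset.mem_Ioo, Finset.mem_insert]
      omega
    rw [this, Finset.sum_insert (by simp), ih (by omega)]
    have e1 : a + (d + 1) + 1 - 1 = a + d + 1 := by omega
    rw [e1]
    ring

theorem loop_sum (G : Shadow N) (hG : G.Planar) (c : Fin N → ℚ) (hc : c ∈ flow G) (i : Fin N)
    (hi : i < G.op i) (h0 : ∀ e, i ≤ e → e < G.op i → c e = 0) :
    ∑ r ∈ Finset.univ.filter (fun r => i < r ∧ r < G.op i),
      (if G.lf r then c (G.op r) else - c (G.op r)) = 0 := by
  obtain ⟨f, hf, hfc⟩ := winding G hG c hc
  have hlf : ∀ j, G.lf (G.op j) = !G.lf j := G.lf_op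
  have hcorner : f (prv (G.op i), true) = f (i, true) := by
    have hpv : (prv (G.op i)).val = (G.op i).val - 1 := loops_prv_val _ (by
      have : i.val < (G.op i).val := hi
      omega)
    have hlt : i.val < (G.op i).val := hi
    have c1 : c i = 0 := h0 i le_rfl hi
    have c2 : c (prv (G.op i)) = 0 := by
      apply h0
      · rw [Fin.le_def]
        omega
      · rw [Fin.lt_def]
        omega
    have e1 := hfc i
    have e2 := hfc (prv (G.op i))
    rw [c1] at e1
    rw [c2] at e2
    by_cases hq : G.lf (G.op i) = true
    · have hi2 : G.lf i = false := by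
        have := hlf i
        rw [hq] at this
        cases h : G.lf i
        · rfl
        · rw [h] at this
          exact absurd this (by decide)
      have h3 := hf (i, false)
      have h4 : G.face (i, false) = (prv (G.op i), false) := by
        simp [Shadow.face, hi2]
      rw [h4] at h3
      linarith
    · have h3 := hf (prv (G.op i), true)
      have h4 : G.face (prv (G.op i), true) = (i, true) := by
        simp [Shadow.face, loops_nxt_prv, hq, G.op_op]
      rw [h4] at h3
      linarith
  have hstep : ∀ r, i < r → r < G.op i →
      (if G.lf r then c (G.op r) else - c (G.op r)) = f (r, true) - f (prv r, true) := by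
    intro r hr1 hr2
    have hr1' : i.val < r.val := hr1
    have hr2' : r.val < (G.op i).val := hr2
    have hpv : (prv r).val = r.val - 1 := loops_prv_val _ (by omega)
    have c1 : c r = 0 := h0 r hr1.le hr2
    have c2 : c (prv r) = 0 := by
      apply h0
      · rw [Fin.le_def]
        omega
      · rw [Fin.lt_def]
        omega
    have hfl : c (prv r) + c (prv (G.op r)) = c r + c (G.op r) := hc r
    rw [c1, c2] at hfl
    by_cases hr : G.lf r = true
    · rw [if_pos hr]
      have hg : G.lf (G.op r) = false := by rw [hlf, hr]; rfl
      have h3 := hf (prv r, true)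
      have h4 : G.face (prv r, true) = (prv (G.op r), false) := by
        simp [Shadow.face, loops_nxt_prv, hr]
      rw [h4] at h3
      have h5 := hf (prv (G.op r), true)
      have h6 : G.face (prv (G.op r), true) = (r, true) := by
        simp [Shadow.face, loops_nxt_prv, hg, G.op_op]
      rw [h6] at h5
      have h7 := hfc (prv (G.op r))
      linarith
    · rw [if_neg hr]
      have hr' : G.lf r = false := by simpa using hr
      have hg : G.lf (G.op r) = true := by rw [hlf, hr']; rfl
      have h3 := hf (prv r, true)
      have h4 : G.face (prv r, true) = (G.op r, true) := by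
        simp [Shadow.face, loops_nxt_prv, hr']
      rw [h4] at h3
      have h5 := hf (G.op r, false)
      have h6 : G.face (G.op r, false) = (r, true) := by
        simp [Shadow.face, hg, G.op_op]
      rw [h6] at h5
      have h7 := hfc (G.op r)
      linarith
  obtain ⟨H, hH⟩ : ∃ H : ℕ → ℚ, H = fun m => if hm : m < N then f (⟨m, hm⟩, true) else 0 :=
    ⟨_, rfl⟩
  have hHr : ∀ r : Fin N, f (r, true) = H r.val := by
    intro r
    rw [hH]
    change _ = dite _ _ _
    rw [dif_pos r.isLt]
  have hsum : ∑ r ∈ Finset.univ.filter (fun r => i < r ∧ r < G.op i),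
      (if G.lf r then c (G.op r) else - c (G.op r)) =
      ∑ m ∈ Finset.Ioo i.val (G.op i).val, (H m - H (m - 1)) := by
    apply Finset.sum_bij (fun (r : Fin N) _ => r.val)
    · intro r hr
      rw [Finset.mem_filter] at hr
      rw [Finset.mem_Ioo]
      exact hr.2
    · intro a _ b _ h
      exact Fin.ext h
    · intro m hm
      rw [Finset.mem_Ioo] at hm
      have hmN : m < N := lt_trans hm.2 (G.op i).isLt
      refine ⟨⟨m, hmN⟩, ?_, rfl⟩
      rw [Finset.mem_filter]
      exact ⟨Finset.mem_univ _, hm.1, hm.2⟩
    · intro r hr
      rw [Finset.mem_filter] at hr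
      have hr1' : i.val < r.val := hr.2.1
      rw [hstep r hr.2.1 hr.2.2, hHr, hHr, loops_prv_val r (by omega)]
  have hlt : i.val < (G.op i).val := hi
  rw [hsum, loops_tel H i.val (G.op i).val hi, ← loops_prv_val (G.op i) (by omega), ← hHr, ← hHr,
    hcorner, sub_self]

end Pool.Agent.Helper76.PK
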