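import Pool.Agent.Helper76.PK.Travel

/-!
# PK-05: the next smoothed passage

`D = (allPos G).sm S`, `S ⊆ und G`; the smoothed passages are the `p` with `p ∈ S ∨ op p ∈ S` (`sm_st_mem`, `sm_st_not`). `e : Fin M → Fin N` is strictly monotone and its values are exactly the smoothed passages.
`first_end`: from `0` the travel goes through `0, 1, ..., e 0` (`seg`), the passages before `e 0` are not smoothed.
`next_end`: at the smoothed passage `e j` the travel goes on from `op (e j) = e a` to the passage `e a + 1` (modulo `N`) and then through `e a + 2, ...` until the next smoothed passage, `e (nxt a)`: if `a + 1 < M` this is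
`e (a + 1)`, reached after `n = e (a + 1) - e a` steps, and there is no smoothed passage between `e a` and `e (a + 1)`; if `a + 1 = M` then the travel goes up to `N - 1` and then `0, 1, ..., e 0`, `n = N - e a + e 0` (use `seg` twice, or
the formula `nxt^[l] i = (i + l) % N`).
`mem_range_e`: clear.
-/

set_option autoImplicit false

namespace Pool.Agent.Helper76.PK

variable {N : ℕ} [NeZero N] {G : Shadow N}

omit [NeZero N] in
private theorem nextEnd_st (S : Finset (Fin N)) {M : ℕ} (e : Fin M → Fin N)
    (hr : ∀ p, (p ∈ S ∨ G.op p ∈ S) ↔ ∃ j, e j = p) (q : Fin N) (hq : ∀ j, e j ≠ q) :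
    ((allPos G).sm S).st q ≠ .smooth := by
  have h : ¬ (q ∈ S ∨ G.op q ∈ S) := by
    rw [hr q]
    rintro ⟨j, hj⟩
    exact hq j hj
  rw [sm_st_not _ S q (fun h' => h (Or.inl h')) (fun h' => h (Or.inr h'))]
  simp [allPos]

omit [NeZero N] in
private theorem nextEnd_go (D : Diag G) (b p : Fin N) (n : ℕ) (hb : D.tr b = nxt p)
    (hs : ∀ l, 0 < l → l < n → D.st ⟨(p.val + l) % N, Nat.mod_lt _ p.pos⟩ ≠ .smooth) :
    ∀ l, 0 < l → l ≤ n → D.tr^[l] b = ⟨(p.val + l) % N, Nat.mod_lt _ p.pos⟩ := by
  intro l
  induction l with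
  | zero => intro h; exact absurd h (lt_irrefl 0)
  | succ l ih =>
    intro _ hl
    rw [Function.iterate_succ_apply']
    rcases Nat.eq_zero_or_pos l with rfl | hl0
    · rw [Function.iterate_zero, id, hb]
      rfl
    · rw [ih hl0 (by omega)]
      have h1 := hs l hl0 (by omega)
      unfold Diag.tr
      rw [if_neg h1]
      unfold nxt
      apply Fin.ext
      simp only [Nat.mod_add_mod]
      rw [Nat.add_assoc]

theorem first_end {M : ℕ} [NeZero M] (S : Finset (Fin N)) (e : Fin M → Fin N) (he : StrictMono e)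
    (hr : ∀ p, (p ∈ S ∨ G.op p ∈ S) ↔ ∃ j, e j = p) :
    ((allPos G).sm S).tr^[(e 0).val] 0 = e 0 ∧
      ∀ l < (e 0).val, ∀ j, ((allPos G).sm S).tr^[l] 0 ≠ e j := by
  have hmin : ∀ j, (e 0).val ≤ (e j).val := fun j => he.monotone (by rw [Fin.le_def, Fin.val_zero]; exact Nat.zero_le _)
  have hgo : ∀ l ≤ (e 0).val, (((allPos G).sm S).tr^[l] 0).val = l := by
    intro l hl
    have hlN : (0 : Fin N).val + l < N := by
      have := (e 0).isLt
      simp only [Fin.val_zero]
      omega
    have h := seg ((allPos G).sm S) 0 0 0 l rfl hlN (by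
      intro q _ hq
      apply nextEnd_st S e hr q
      rintro j rfl
      have := hmin j
      simp only [Fin.val_zero] at hq
      omega)
    rw [Nat.zero_add] at h
    rw [h]
    simp
  refine ⟨Fin.ext (hgo _ le_rfl), ?_⟩
  intro l hl j hj
  have h1 := hgo l hl.le
  rw [hj] at h1
  have := hmin j
  omega

theorem next_end {M : ℕ} [NeZero M] (S : Finset (Fin N)) (e : Fin M → Fin N) (he : StrictMono e)
    (hr : ∀ p, (p ∈ S ∨ G.op p ∈ S) ↔ ∃ j, e j = p) (j a : Fin M) (ha : e a = G.op (e j)) :
    ∃ n, 0 < n ∧ ((allPos G).sm S).tr^[n] (e j) = e (nxt a) ∧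
      ∀ l, 0 < l → l < n → ∀ i, ((allPos G).sm S).tr^[l] (e j) ≠ e i := by
  have hb : ((allPos G).sm S).tr (e j) = nxt (e a) := by
    unfold Diag.tr
    rw [if_pos (sm_st_mem _ S (e j) ((hr (e j)).mpr ⟨j, rfl⟩)), ha]
  have haN := (e a).isLt
  rcases Nat.lt_or_ge (a.val + 1) M with hM | hM
  · have hlt : (e a).val < (e ⟨a.val + 1, hM⟩).val := he (by
      rw [Fin.lt_def]
      exact Nat.lt_succ_self _)
    have hcN := (e ⟨a.val + 1, hM⟩).isLt
    have hnot : ∀ i, ¬ ((e a).val < (e i).val ∧ (e i).val < (e ⟨a.val + 1, hM⟩).val) := by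
      rintro i ⟨h1, h2⟩
      have h1' := he.lt_iff_lt.mp (Fin.lt_def.mpr h1)
      have h2' := he.lt_iff_lt.mp (Fin.lt_def.mpr h2)
      rw [Fin.lt_def] at h1' h2'
      simp only at h2'
      omega
    have hmod : ∀ l, l ≤ (e ⟨a.val + 1, hM⟩).val - (e a).val →
        ((e a).val + l) % N = (e a).val + l := by
      intro l hl
      exact Nat.mod_eq_of_lt (by omega)
    have hgo := nextEnd_go ((allPos G).sm S) (e j) (e a)
      ((e ⟨a.val + 1, hM⟩).val - (e a).val) hb (by
        intro l hl0 hl
        apply nextEnd_st S e hr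
        intro i hi
        have hi' := congrArg Fin.val hi
        simp only [hmod l hl.le] at hi'
        exact hnot i ⟨by omega, by omega⟩)
    have hnx : nxt a = ⟨a.val + 1, hM⟩ := by
      apply Fin.ext
      exact Nat.mod_eq_of_lt hM
    refine ⟨(e ⟨a.val + 1, hM⟩).val - (e a).val, by omega, ?_, ?_⟩
    · rw [hgo _ (by omega) le_rfl, hnx]
      apply Fin.ext
      simp only [hmod _ le_rfl]
      omega
    · intro l hl0 hl i hi
      rw [hgo l hl0 hl.le] at hi
      have hi' := congrArg Fin.val hi
      simp only [hmod l hl.le] at hi'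
      exact hnot i ⟨by omega, by omega⟩
  · have haM := a.isLt
    have hnx : nxt a = 0 := by
      apply Fin.ext
      show (a.val + 1) % M = _
      rw [show a.val + 1 = M by omega, Nat.mod_self]
      simp
    have hmax : ∀ i, (e i).val ≤ (e a).val := fun i => he.monotone (by
      rw [Fin.le_def]
      have := i.isLt
      omega)
    have hmin : ∀ i, (e 0).val ≤ (e i).val := fun i => he.monotone (by rw [Fin.le_def, Fin.val_zero]; exact Nat.zero_le _)
    have hnot : ∀ l, 0 < l → l < N - (e a).val + (e 0).val → ∀ i, (e i).val ≠ ((e a).val + l) % N := by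
      intro l hl0 hl i hi
      have h1 := hmax i
      have h2 := hmin i
      have h3 := hmax 0
      rcases Nat.lt_or_ge ((e a).val + l) N with h | h
      · rw [Nat.mod_eq_of_lt h] at hi
        omega
      · have h4 : ((e a).val + l) % N = (e a).val + l - N := by
          rw [Nat.mod_eq_sub_mod h, Nat.mod_eq_of_lt (by omega)]
        omega
    have hgo := nextEnd_go ((allPos G).sm S) (e j) (e a)
      (N - (e a).val + (e 0).val) hb (by
        intro l hl0 hl
        apply nextEnd_st S e hr
        intro i hi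
        exact hnot l hl0 hl i (congrArg Fin.val hi))
    refine ⟨N - (e a).val + (e 0).val, by omega, ?_, ?_⟩
    · rw [hgo _ (by omega) le_rfl, hnx]
      apply Fin.ext
      have h3 := hmax 0
      show ((e a).val + (N - (e a).val + (e 0).val)) % N = (e 0).val
      rw [show (e a).val + (N - (e a).val + (e 0).val) = (e 0).val + N by omega, Nat.add_mod_right]
      exact Nat.mod_eq_of_lt (e 0).isLt
    · intro l hl0 hl i hi
      rw [hgo l hl0 hl.le] at hi
      exact hnot l hl0 hl i (congrArg Fin.val hi).symm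

end Pool.Agent.Helper76.PK
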