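import Pool.Agent.Helper76.PK.LamSum
import Pool.Agent.Helper76.PK.Check
import Pool.Agent.Helper76.PK.Count

/-!
# PK-16: the inequality for an ascending pair

`U = und G`, `U' = U \ {x, y}`, `a z w = 1` if `A2 G z w`, else `0`. `pv G x y z w` has the entries `x, op y, op x, y, z, op z, w, op w` with `x < op y < op x < y` (`A2`).
* `nA G = 1 + ∑_{w ∈ U'} a x w + ∑_{z ∈ U'} a z y + ∑_{z, w ∈ U'} a z w`: `a x y = 1`; `a z x = 0` (`op x < op z < x`, but `x < op x`), `a y w = 0` (`y < op w < op y`, but `op y < y`), `a x x = a y y = a y x = 0`.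
* For `z, w ∈ U'`, `z ≠ w`, the vector `pv G x y z w` is injective (the elements of `U` are lower passages of different crossings: `lf`), so `0 ≤ T4 (pv G x y z w)` (`T4_nonneg`), where `swp (pv G x y z w) = pv G x y w z`, `asc2 (pv G x y z w) = a z w`, and `lam (pv G x y z w) w (op w) = L z w`,
  `L z w := lam (pv G x y z z) w (op w)` (`lam_congr5`). So `0 ≤ 2 (a z w + a w z) + (L z w + L w z) - (al2 (pv G x y z w) + al2 (pv G x y w z))`.
* For `z ∈ U'`: `0 ≤ T3 (pv G x y z z) = 2 (a x z + a z y) + L z x + L z y` (`T3_nonneg`), and `L z z = 0` (`lam_self`), `a z z = 0`.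
* `∑_{w ∈ U} L z w = 0` for `z ∈ U'` (`lam_sum`): `L z x + L z y + ∑_{w ∈ U', w ≠ z} L z w = 0`.
* `al2 (pv G x y z w) = 0` if `z = w` or one of `z, w` is `x` or `y` (`al2_ne_imp`: not injective), so `∑_{z, w ∈ U} al2 = ∑_{z ≠ w ∈ U'} al2`.
Sum: `2 nA - 2 = ∑_{z ∈ U'} (2 a x z + 2 a z y + L z x + L z y) + ∑_{z ≠ w ∈ U'} (2 a z w + L z w) ≥ ∑_{z ≠ w ∈ U'} (2 a z w + L z w)`, and twice the last sum minus twice the sum of `al2` is `∑_{z ≠ w ∈ U'} T4 ≥ 0`.
-/

set_option autoImplicit false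

namespace Pool.Agent.Helper76.PK

open Classical

variable {N : ℕ} [NeZero N]

omit [NeZero N] in
private theorem pairIneq_inj (G : Shadow N) {x y z w : Fin N} (hx : x ∈ und G) (hy : y ∈ und G)
    (hz : z ∈ und G) (hw : w ∈ und G) (hxy : x ≠ y) (hxz : x ≠ z) (hxw : x ≠ w) (hyz : y ≠ z)
    (hyw : y ≠ w) (hzw : z ≠ w) : Function.Injective (pv G x y z w) := by
  have hU : ∀ a, a ∈ und G → G.lf a = true := fun a ha => by
    rw [und, Finset.mem_filter] at ha
    exact ha.2
  have h_uo : ∀ a ∈ und G, ∀ b ∈ und G, (a : ℕ) ≠ (G.op b : ℕ) := by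
    intro a ha b hb h
    have h1 : a = G.op b := Fin.ext h
    have h2 := hU a ha
    rw [h1, G.lf_op, hU b hb] at h2
    exact absurd h2 (by decide)
  have h_ou : ∀ a ∈ und G, ∀ b ∈ und G, (G.op b : ℕ) ≠ (a : ℕ) :=
    fun a ha b hb h => h_uo a ha b hb h.symm
  have h_oo : ∀ a b : Fin N, a ≠ b → (G.op a : ℕ) ≠ (G.op b : ℕ) := by
    intro a b hab h
    have h1 : G.op a = G.op b := Fin.ext h
    apply hab
    rw [← G.op_op a, h1, G.op_op]
  have h_uu : ∀ a b : Fin N, a ≠ b → (a : ℕ) ≠ (b : ℕ) := fun a b hab h => hab (Fin.ext h)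
  have hyx : y ≠ x := hxy.symm
  have key : ∀ i j : Fin 8, i < j → pv G x y z w i ≠ pv G x y z w j := by
    intro i j
    fin_cases i <;> fin_cases j <;> intro hij <;>
      first
      | exact absurd hij (by decide)
      | exact h_uo _ (by assumption) _ (by assumption)
      | exact h_ou _ (by assumption) _ (by assumption)
      | exact h_oo _ _ (by assumption)
      | exact h_uu _ _ (by assumption)
  intro i j hij
  rcases lt_trichotomy i j with h | h | h
  · exact absurd hij (key i j h)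
  · exact h
  · exact absurd hij.symm (key j i h)

omit [NeZero N] in
private theorem pairIneq_inj3 (G : Shadow N) {x y z : Fin N} (hx : x ∈ und G) (hy : y ∈ und G)
    (hz : z ∈ und G) (hxy : x ≠ y) (hxz : x ≠ z) (hyz : y ≠ z) :
    ∀ i j : Fin 8, i.val < 6 → j.val < 6 → pv G x y z z i = pv G x y z z j → i = j := by
  have hU : ∀ a, a ∈ und G → G.lf a = true := fun a ha => by
    rw [und, Finset.mem_filter] at ha
    exact ha.2
  have h_uo : ∀ a ∈ und G, ∀ b ∈ und G, (a : ℕ) ≠ (G.op b : ℕ) := by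
    intro a ha b hb h
    have h1 : a = G.op b := Fin.ext h
    have h2 := hU a ha
    rw [h1, G.lf_op, hU b hb] at h2
    exact absurd h2 (by decide)
  have h_ou : ∀ a ∈ und G, ∀ b ∈ und G, (G.op b : ℕ) ≠ (a : ℕ) :=
    fun a ha b hb h => h_uo a ha b hb h.symm
  have h_oo : ∀ a b : Fin N, a ≠ b → (G.op a : ℕ) ≠ (G.op b : ℕ) := by
    intro a b hab h
    have h1 : G.op a = G.op b := Fin.ext h
    apply hab
    rw [← G.op_op a, h1, G.op_op]
  have h_uu : ∀ a b : Fin N, a ≠ b → (a : ℕ) ≠ (b : ℕ) := fun a b hab h => hab (Fin.ext h)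
  have hyx : y ≠ x := hxy.symm
  have key : ∀ i j : Fin 8, i < j → j.val < 6 → pv G x y z z i ≠ pv G x y z z j := by
    intro i j
    fin_cases i <;> fin_cases j <;> intro hij hj <;>
      first
      | exact absurd hij (by decide)
      | exact absurd hj (by decide)
      | exact h_uo _ (by assumption) _ (by assumption)
      | exact h_ou _ (by assumption) _ (by assumption)
      | exact h_oo _ _ (by assumption)
      | exact h_uu _ _ (by assumption)
  intro i j hi hj hij
  rcases lt_trichotomy i j with h | h | h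
  · exact absurd hij (key i j h hj)
  · exact h
  · exact absurd hij.symm (key j i h hi)

omit [NeZero N] in
private theorem pairIneq_split {x y : Fin N} {U : Finset (Fin N)} (hx : x ∈ U) (hy : y ∈ U)
    (hxy : x ≠ y) (f : Fin N → ℤ) :
    ∑ z ∈ U, f z = f x + f y + ∑ z ∈ (U.erase x).erase y, f z := by
  rw [← Finset.add_sum_erase U f hx, ← Finset.add_sum_erase (U.erase x) f
    (Finset.mem_erase.2 ⟨hxy.symm, hy⟩), add_assoc]

omit [NeZero N] in
private theorem pairIneq_asc (G : Shadow N) (x y z w : Fin N) :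
    asc2 (pv G x y z w) = if A2 G z w then 1 else 0 := by
  have h : (chain (pv G x y z w) [4, 7, 5, 6] = true) ↔ A2 G z w := by
    simp only [chain, Bool.and_true, Bool.and_eq_true, Nat.blt_eq]
    exact Iff.rfl
  unfold asc2
  by_cases h1 : A2 G z w
  · rw [if_pos h1, if_pos (h.2 h1)]
  · rw [if_neg h1, if_neg (fun h2 => h1 (h.1 h2))]

theorem pair_ineq (G : Shadow N) (hG : G.Planar) {x y : Fin N} (hx : x ∈ und G) (hy : y ∈ und G)
    (h : A2 G x y) :
    ∑ z ∈ und G, ∑ w ∈ und G, al2 (pv G x y z w) ≤ 2 * nA G - 2 := by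
  have h1 : x < G.op y := h.1
  have h2 : G.op y < G.op x := h.2.1
  have h3 : G.op x < y := h.2.2
  have hxy : x ≠ y := (h1.trans (h2.trans h3)).ne
  obtain ⟨U', hU'⟩ : ∃ U', U' = ((und G).erase x).erase y := ⟨_, rfl⟩
  have hmem : ∀ z ∈ U', z ∈ und G ∧ x ≠ z ∧ y ≠ z := by
    intro z hz
    rw [hU', Finset.mem_erase, Finset.mem_erase] at hz
    exact ⟨hz.2.2, hz.2.1.symm, hz.1.symm⟩
  have hsplit : ∀ f : Fin N → ℤ, ∑ z ∈ und G, f z = f x + f y + ∑ z ∈ U', f z := by
    intro f
    rw [hU']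
    exact pairIneq_split hx hy hxy f
  obtain ⟨a, ha⟩ : ∃ a : Fin N → Fin N → ℤ, ∀ z w, a z w = if A2 G z w then 1 else 0 :=
    ⟨fun z w => if A2 G z w then 1 else 0, fun _ _ => rfl⟩
  obtain ⟨L, hL⟩ : ∃ L : Fin N → Fin N → ℤ, ∀ z w, L z w = lam (pv G x y z z) w (G.op w) :=
    ⟨fun z w => lam (pv G x y z z) w (G.op w), fun _ _ => rfl⟩
  obtain ⟨al, hal⟩ : ∃ al : Fin N → Fin N → ℤ, ∀ z w, al z w = al2 (pv G x y z w) :=
    ⟨fun z w => al2 (pv G x y z w), fun _ _ => rfl⟩
  have hal0 : ∀ z w : Fin N, (z = w ∨ z = x ∨ z = y ∨ w = x ∨ w = y) → al z w = 0 := by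
    intro z w hzw
    rw [hal]
    by_contra hne
    have hinj := (al2_ne_imp _ hne).1
    rcases hzw with rfl | rfl | rfl | rfl | rfl
    · exact absurd (@hinj 4 6 rfl) (by decide)
    · exact absurd (@hinj 4 0 rfl) (by decide)
    · exact absurd (@hinj 4 3 rfl) (by decide)
    · exact absurd (@hinj 6 0 rfl) (by decide)
    · exact absurd (@hinj 6 3 rfl) (by decide)
  have hazx : ∀ z, a z x = 0 := by
    intro z
    rw [ha, if_neg]
    intro hA
    exact absurd (h1.trans (h2.trans (hA.2.1.trans hA.2.2))) (lt_irrefl _)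
  have hayw : ∀ w, a y w = 0 := by
    intro w
    rw [ha, if_neg]
    intro hA
    exact absurd (h2.trans (h3.trans (hA.1.trans hA.2.1))) (lt_irrefl _)
  have hazz : ∀ z, a z z = 0 := by
    intro z
    rw [ha, if_neg]
    intro hA
    exact absurd hA.2.1 (lt_irrefl _)
  have haxy : a x y = 1 := by rw [ha, if_pos h]
  have hLzz : ∀ z, L z z = 0 := fun z => by
    rw [hL]
    exact lam_self (pv G x y z z)
  -- the sum of `al2`
  have e1 : ∑ z ∈ und G, ∑ w ∈ und G, al2 (pv G x y z w) = ∑ z ∈ U', ∑ w ∈ U', al z w := by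
    have e2 : ∀ z : Fin N, ∑ w ∈ und G, al z w = ∑ w ∈ U', al z w := by
      intro z
      rw [hsplit, hal0 z x (by tauto), hal0 z y (by tauto)]
      ring
    have e3 : ∑ z ∈ und G, ∑ w ∈ und G, al2 (pv G x y z w) = ∑ z ∈ und G, ∑ w ∈ und G, al z w :=
      Finset.sum_congr rfl fun z _ => Finset.sum_congr rfl fun w _ => (hal z w).symm
    rw [e3, hsplit]
    rw [Finset.sum_eq_zero fun w _ => hal0 x w (by tauto),
      Finset.sum_eq_zero fun w _ => hal0 y w (by tauto)]
    simp only [e2]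
    ring
  -- the number of the ascending pairs
  have e4 : nA G = 1 + ∑ w ∈ U', a x w + ∑ z ∈ U', a z y + ∑ z ∈ U', ∑ w ∈ U', a z w := by
    have e5 : nA G = ∑ z ∈ und G, ∑ w ∈ und G, a z w := by
      unfold nA
      refine Finset.sum_congr rfl fun z _ => Finset.sum_congr rfl fun w _ => ?_
      rw [ha]
    rw [e5, hsplit, Finset.sum_eq_zero fun w _ => hayw w, hsplit (fun w => a x w), hazz, haxy]
    have e6 : ∀ z, ∑ w ∈ und G, a z w = a z y + ∑ w ∈ U', a z w := by
      intro z
      rw [hsplit, hazx]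
      ring
    simp only [e6]
    rw [Finset.sum_add_distrib]
    ring
  -- the pointwise inequalities
  have f1 : ∀ z ∈ U', ∀ w ∈ U',
      0 ≤ 2 * (a z w + a w z) + (L z w + L w z) - (al z w + al w z) := by
    intro z hz w hw
    by_cases hzw : z = w
    · subst hzw
      rw [hazz, hLzz, hal0 z z (Or.inl rfl)]
      norm_num
    · obtain ⟨hz1, hz2, hz3⟩ := hmem z hz
      obtain ⟨hw1, hw2, hw3⟩ := hmem w hw
      have hT := T4_nonneg (pv G x y z w)
        (pairIneq_inj G hx hy hz1 hw1 hxy hz2 hw2 hz3 hw3 hzw) h1 h2 h3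
      have hs : swp (pv G x y z w) = pv G x y w z := rfl
      have g1 : lam (pv G x y z w) (pv G x y z w 6) (pv G x y z w 7) = L z w := by
        rw [hL]
        apply lam_congr5
        intro i hi
        fin_cases i
        · rfl
        · rfl
        · rfl
        · rfl
        · rfl
        · rfl
        · exact absurd hi (by decide)
        · exact absurd hi (by decide)
      have g2 : lam (pv G x y w z) (pv G x y z w 4) (pv G x y z w 5) = L w z := by
        rw [hL]
        apply lam_congr5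
        intro i hi
        fin_cases i
        · rfl
        · rfl
        · rfl
        · rfl
        · rfl
        · rfl
        · exact absurd hi (by decide)
        · exact absurd hi (by decide)
      unfold T4 at hT
      rw [hs, g1, g2, pairIneq_asc, pairIneq_asc, ← ha, ← ha, ← hal, ← hal] at hT
      exact hT
  have f2 : ∀ z ∈ U', 0 ≤ 2 * (a x z + a z y) + (L z x + L z y) := by
    intro z hz
    obtain ⟨hz1, hz2, hz3⟩ := hmem z hz
    have hT := T3_nonneg (pv G x y z z) (pairIneq_inj3 G hx hy hz1 hxy hz2 hz3) h1 h2 h3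
    have k1 : (chain (pv G x y z z) [0, 5, 2, 4] = true) ↔ A2 G x z := by
      simp only [chain, Bool.and_true, Bool.and_eq_true, Nat.blt_eq]
      exact Iff.rfl
    have k2 : (chain (pv G x y z z) [4, 1, 5, 3] = true) ↔ A2 G z y := by
      simp only [chain, Bool.and_true, Bool.and_eq_true, Nat.blt_eq]
      exact Iff.rfl
    have k3 : (if chain (pv G x y z z) [0, 5, 2, 4] then (1 : ℤ) else 0) = a x z := by
      rw [ha]
      by_cases hA : A2 G x z
      · rw [if_pos hA, if_pos (k1.2 hA)]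
      · rw [if_neg hA, if_neg (fun hB => hA (k1.1 hB))]
    have k4 : (if chain (pv G x y z z) [4, 1, 5, 3] then (1 : ℤ) else 0) = a z y := by
      rw [ha]
      by_cases hA : A2 G z y
      · rw [if_pos hA, if_pos (k2.2 hA)]
      · rw [if_neg hA, if_neg (fun hB => hA (k2.1 hB))]
    have k5 : lam (pv G x y z z) (pv G x y z z 0) (pv G x y z z 2) = L z x := by
      rw [hL]
      rfl
    have k6 : lam (pv G x y z z) (pv G x y z z 3) (pv G x y z z 1) = L z y := by
      rw [hL]
      rfl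
    unfold T3 at hT
    rw [k3, k4, k5, k6] at hT
    exact hT
  have f3 : ∀ z, L z x + L z y + ∑ w ∈ U', L z w = 0 := by
    intro z
    rw [← hsplit (fun w => L z w)]
    rw [← lam_sum G hG x y z]
    exact Finset.sum_congr rfl fun w _ => hL z w
  have s1 : 0 ≤ ∑ z ∈ U', ∑ w ∈ U',
      (2 * (a z w + a w z) + (L z w + L w z) - (al z w + al w z)) :=
    Finset.sum_nonneg fun z hz => Finset.sum_nonneg fun w hw => f1 z hz w hw
  have s2 : 0 ≤ ∑ z ∈ U', (2 * (a x z + a z y) + (L z x + L z y)) :=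
    Finset.sum_nonneg fun z hz => f2 z hz
  have s3 : ∑ z ∈ U', (L z x + L z y + ∑ w ∈ U', L z w) = 0 :=
    Finset.sum_eq_zero fun z _ => f3 z
  have c1 : ∑ z ∈ U', ∑ w ∈ U', a w z = ∑ z ∈ U', ∑ w ∈ U', a z w := Finset.sum_comm
  have c2 : ∑ z ∈ U', ∑ w ∈ U', L w z = ∑ z ∈ U', ∑ w ∈ U', L z w := Finset.sum_comm
  have c3 : ∑ z ∈ U', ∑ w ∈ U', al w z = ∑ z ∈ U', ∑ w ∈ U', al z w := Finset.sum_comm
  simp only [Finset.sum_add_distrib, Finset.sum_sub_distrib, ← Finset.mul_sum, c1, c2, c3] at s1 s2 s3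
  rw [e1, e4]
  linarith

end Pool.Agent.Helper76.PK
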