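import Pool.Agent.Helper76.PK.Defs

/-!
# PK-01: travelling along a diagram

`nxt`, `prv`: `Fin.ext`, `Nat.mod` (`i + 1 = N` or not). `tr_inj`: `nxt` and `op` are injective and `st (op i) = st i`. `tr_period`: `tr` is an injective map of the finite set `Fin N`, so two of the
`N + 1` points `tr^[0] b, ..., tr^[N] b` are equal (`Fintype.exists_ne_map_eq_of_card_lt`) and `iterate_cancel`. `iterate_ne`: `tr^[l] b = tr^[m] b` gives `tr^[m - l] b = b`. `closed_orbit`: `m % k`.
`iterate_congr`: induction on `l`. `seg`: induction on `m`. `sm_insert`, `upd_self`: `Diag.ext`, cases.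
-/

set_option autoImplicit false

namespace Pool.Agent.Helper76.PK

variable {N : ℕ} {G : Shadow N}

theorem nxt_prv (i : Fin N) : nxt (prv i) = i := by
  have hi := i.isLt
  apply Fin.ext
  show ((i.val + N - 1) % N + 1) % N = i.val
  rcases Nat.eq_zero_or_pos i.val with h | h
  · rw [h, zero_add, Nat.mod_eq_of_lt (by omega : N - 1 < N)]
    have h2 : N - 1 + 1 = N := by omega
    rw [h2, Nat.mod_self]
  · have h1 : i.val + N - 1 = (i.val - 1) + N := by omega
    rw [h1, Nat.add_mod_right, Nat.mod_eq_of_lt (by omega : i.val - 1 < N)]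
    have h2 : i.val - 1 + 1 = i.val := by omega
    rw [h2, Nat.mod_eq_of_lt hi]

theorem prv_nxt (i : Fin N) : prv (nxt i) = i := by
  have hi := i.isLt
  apply Fin.ext
  show ((i.val + 1) % N + N - 1) % N = i.val
  by_cases h : i.val + 1 = N
  · rw [h, Nat.mod_self, zero_add, Nat.mod_eq_of_lt (by omega : N - 1 < N)]
    omega
  · rw [Nat.mod_eq_of_lt (by omega : i.val + 1 < N)]
    have h1 : i.val + 1 + N - 1 = i.val + N := by omega
    rw [h1, Nat.add_mod_right, Nat.mod_eq_of_lt hi]

theorem nxt_inj : Function.Injective (nxt : Fin N → Fin N) :=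
  Function.LeftInverse.injective prv_nxt

theorem op_inj (G : Shadow N) : Function.Injective G.op :=
  Function.LeftInverse.injective G.op_op

theorem tr_inj (D : Diag G) : Function.Injective D.tr := by
  intro i j h
  have h1 := nxt_inj h
  by_cases hi : D.st i = .smooth
  · by_cases hj : D.st j = .smooth
    · rw [if_pos hi, if_pos hj] at h1
      exact op_inj G h1
    · rw [if_pos hi, if_neg hj] at h1
      exfalso
      apply hj
      rw [← h1, D.st_op]
      exact hi
  · by_cases hj : D.st j = .smooth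
    · rw [if_neg hi, if_pos hj] at h1
      exfalso
      apply hi
      rw [h1, D.st_op]
      exact hj
    · rw [if_neg hi, if_neg hj] at h1
      exact h1

private theorem Travel_cancel (D : Diag G) (b : Fin N) {l m : ℕ} (hlm : l ≤ m)
    (h : D.tr^[l] b = D.tr^[m] b) : D.tr^[m - l] b = b := by
  have h1 : m = l + (m - l) := by omega
  rw [h1, Function.iterate_add_apply] at h
  exact ((tr_inj D).iterate l h).symm

theorem tr_period (D : Diag G) (b : Fin N) : ∃ n, 0 < n ∧ n ≤ N ∧ D.tr^[n] b = b := by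
  obtain ⟨x, y, hxy, h⟩ := Fintype.exists_ne_map_eq_of_card_lt
    (fun k : Fin (N + 1) => D.tr^[k.val] b) (by simp)
  have h' : D.tr^[x.val] b = D.tr^[y.val] b := h
  have hx := x.isLt
  have hy := y.isLt
  have hne : x.val ≠ y.val := fun h1 => hxy (Fin.ext h1)
  rcases lt_or_gt_of_ne hne with h1 | h1
  · exact ⟨y.val - x.val, by omega, by omega, Travel_cancel D b h1.le h'⟩
  · exact ⟨x.val - y.val, by omega, by omega, Travel_cancel D b h1.le h'.symm⟩

theorem iterate_ne (D : Diag G) (b : Fin N) {k : ℕ} (h : ∀ l, 0 < l → l < k → D.tr^[l] b ≠ b)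
    {l m : ℕ} (hlm : l < m) (hm : m < k) : D.tr^[l] b ≠ D.tr^[m] b := by
  intro h1
  exact h (m - l) (by omega) (by omega) (Travel_cancel D b hlm.le h1)

theorem closed_orbit (D : Diag G) (b : Fin N) {k : ℕ} (hk : 0 < k) (hb : D.tr^[k] b = b) (m : ℕ) :
    D.tr^[m] b = D.tr^[m % k] b := by
  have h1 : ∀ q : ℕ, D.tr^[k * q] b = b := by
    intro q
    induction q with
    | zero => rfl
    | succ q ih => rw [Nat.mul_succ, Function.iterate_add_apply, hb, ih]
  conv_lhs => rw [← Nat.mod_add_div m k]
  rw [Function.iterate_add_apply, h1]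

private theorem Travel_tr_congr (D D' : Diag G) (i : Fin N)
    (h : D'.st i = .smooth ↔ D.st i = .smooth) : D'.tr i = D.tr i := by
  show nxt (if D'.st i = .smooth then G.op i else i) = nxt (if D.st i = .smooth then G.op i else i)
  by_cases h1 : D.st i = .smooth
  · rw [if_pos h1, if_pos (h.2 h1)]
  · rw [if_neg h1, if_neg (fun h2 => h1 (h.1 h2))]

theorem iterate_congr (D D' : Diag G) (b : Fin N) (k : ℕ)
    (h : ∀ l < k, (D'.st (D.tr^[l] b) = .smooth ↔ D.st (D.tr^[l] b) = .smooth)) :
    ∀ l ≤ k, D'.tr^[l] b = D.tr^[l] b := by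
  intro l
  induction l with
  | zero => intro _; rfl
  | succ l ih =>
    intro hl
    rw [Function.iterate_succ_apply', Function.iterate_succ_apply', ih (by omega)]
    exact Travel_tr_congr D D' _ (h l (by omega))

theorem sm_st_mem (D : Diag G) (S : Finset (Fin N)) (i : Fin N) (h : i ∈ S ∨ G.op i ∈ S) :
    (D.sm S).st i = .smooth := if_pos h

theorem sm_st_not (D : Diag G) (S : Finset (Fin N)) (i : Fin N) (h : i ∉ S) (h' : G.op i ∉ S) :
    (D.sm S).st i = D.st i := if_neg (fun h1 => h1.elim h h')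

theorem upd_st (D : Diag G) (i : Fin N) (t : St) (j : Fin N) (h : j = i ∨ j = G.op i) :
    (D.upd i t).st j = t := if_pos h

theorem upd_st_ne (D : Diag G) (i : Fin N) (t : St) (j : Fin N) (h : j ≠ i) (h' : j ≠ G.op i) :
    (D.upd i t).st j = D.st j := if_neg (fun h1 => h1.elim h h')

theorem upd_self (D : Diag G) (i : Fin N) : D.upd i (D.st i) = D := by
  apply Diag.ext
  funext j
  by_cases h : j = i ∨ j = G.op i
  · rw [upd_st D i _ j h]
    rcases h with h | h
    · rw [h]
    · rw [h, D.st_op]
  · push Not at h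
    exact upd_st_ne D i _ j h.1 h.2

theorem upd_upd (D : Diag G) (i : Fin N) (s t : St) : (D.upd i s).upd i t = D.upd i t := by
  apply Diag.ext
  funext j
  by_cases h : j = i ∨ j = G.op i
  · rw [upd_st _ i _ j h, upd_st _ i _ j h]
  · push Not at h
    rw [upd_st_ne _ i _ j h.1 h.2, upd_st_ne _ i _ j h.1 h.2, upd_st_ne _ i _ j h.1 h.2]

theorem sm_insert (D : Diag G) (S : Finset (Fin N)) (i : Fin N) :
    (D.upd i .smooth).sm S = D.sm (insert i S) := by
  apply Diag.ext
  funext j
  by_cases h : j ∈ S ∨ G.op j ∈ S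
  · rw [sm_st_mem _ S j h, sm_st_mem _ (insert i S) j
      (h.imp (Finset.mem_insert_of_mem) (Finset.mem_insert_of_mem))]
  · push Not at h
    rw [sm_st_not _ S j h.1 h.2]
    by_cases h2 : j = i ∨ j = G.op i
    · rw [upd_st _ i _ j h2, sm_st_mem _ (insert i S) j]
      rcases h2 with h2 | h2
      · left
        rw [h2]
        exact Finset.mem_insert_self i S
      · right
        rw [h2, G.op_op]
        exact Finset.mem_insert_self i S
    · push Not at h2
      rw [upd_st_ne _ i _ j h2.1 h2.2, sm_st_not _ (insert i S) j]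
      · rw [Finset.mem_insert, not_or]
        exact ⟨h2.1, h.1⟩
      · rw [Finset.mem_insert, not_or]
        refine ⟨fun h3 => h2.2 ?_, h.2⟩
        rw [← h3, G.op_op]

theorem seg (D : Diag G) (b p : Fin N) (k m : ℕ) (h : D.tr^[k] b = p) (hm : p.val + m < N)
    (h0 : ∀ q : Fin N, p ≤ q → q.val < p.val + m → D.st q ≠ .smooth) :
    D.tr^[k + m] b = ⟨p.val + m, hm⟩ := by
  induction m with
  | zero => exact h
  | succ m ih =>
    have h1 := ih (by omega) (fun q hq hq' => h0 q hq (by omega))
    rw [← add_assoc, Function.iterate_succ_apply', h1]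
    show nxt (if D.st ⟨p.val + m, by omega⟩ = .smooth then G.op ⟨p.val + m, by omega⟩
      else ⟨p.val + m, by omega⟩) = _
    rw [if_neg (h0 ⟨p.val + m, by omega⟩ (by rw [Fin.le_def]; exact Nat.le_add_right _ _)
      (by show p.val + m < p.val + (m + 1); omega))]
    apply Fin.ext
    show (p.val + m + 1) % N = p.val + (m + 1)
    rw [Nat.mod_eq_of_lt (by omega)]
    omega

end Pool.Agent.Helper76.PK
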