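import Pool.Agent.Helper76.PK.FlowDim

/-!
# PK-12: winding numbers

Let `r d d' := d' = G.face d`, `F = Quot r`, a finite type (quotient of a finite type), `2 |F| = N + 4` (`Planar`), so `0 < N`. `δ : (F → ℚ) → (Fin N → ℚ)`, `δ g i = g [(i, true)] - g [(i, false)]`, linear.
* `δ g` is a flow: put `f d = g [d]`, `f (face d) = f d`. At the crossing of `i` (we may assume `lf i = true`, `lf (op i) = false`, by symmetry): `face (prv i, true) = (prv (op i), false)`; `face (i, false) = (op i, true)`; `face (prv (op i), true) = (i, true)`
  (as `nxt (prv (op i)) = op i`, `lf (op i) = false`, `op (op i) = i`); `face (op i, false) = (prv i, false)`. So `c (prv i) = f (prv i, true) - f (prv i, false) = f (prv (op i), false) - f (op i, false)`, `c (prv (op i)) = f (i, true) - f (prv (op i), false)`,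
  `c i = f (i, true) - f (i, false) = f (i, true) - f (op i, true)`, `c (op i) = f (op i, true) - f (op i, false)`, and `c (prv i) + c (prv (op i)) = f (i, true) - f (op i, false) = c i + c (op i)`.
* The kernel of `δ` is the space of the constant functions (dimension `1`; at most 1 is enough): if `f (i, true) = f (i, false) =: h i` then the four relations give `h (prv i) = h (prv (op i)) = h i = h (op i)`, so `h (nxt i) = h i` and `h` is constant (every passage is `nxt^[k]` of a fixed one).
So `finrank range ≥ |F| - 1`, `2 finrank range ≥ N + 2 ≥ 2 finrank (flow G)` (`finrank_flow`), `range ≤ flow G`, so `range = flow G` (`Submodule.eq_of_le_of_finrank_le`).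
-/

/-!
# PK-12: winding numbers

Let `r d d' := d' = G.face d`, `F = Quot r`, a finite type (quotient of a finite type), `2 |F| = N + 4` (`Planar`), so `0 < N`. `δ : (F → ℚ) → (Fin N → ℚ)`, `δ g i = g [(i, true)] - g [(i, false)]`, linear.
* `δ g` is a flow: put `f d = g [d]`, `f (face d) = f d`. At the crossing of `i` (we may assume `lf i = true`, `lf (op i) = false`, by symmetry): `face (prv i, true) = (prv (op i), false)`; `face (i, false) = (op i, true)`; `face (prv (op i), true) = (i, true)`
  (as `nxt (prv (op i)) = op i`, `lf (op i) = false`, `op (op i) = i`); `face (op i, false) = (prv i, false)`. So `c (prv i) = f (prv i, true) - f (prv i, false) = f (prv (op i), false) - f (op i, false)`, `c (prv (op i)) = f (i, true) - f (prv (op i), false)`,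
  `c i = f (i, true) - f (i, false) = f (i, true) - f (op i, true)`, `c (op i) = f (op i, true) - f (op i, false)`, and `c (prv i) + c (prv (op i)) = f (i, true) - f (op i, false) = c i + c (op i)`.
* The kernel of `δ` is the space of the constant functions (dimension `1`; at most 1 is enough): if `f (i, true) = f (i, false) =: h i` then the four relations give `h (prv i) = h (prv (op i)) = h i = h (op i)`, so `h (nxt i) = h i` and `h` is constant (every passage is `nxt^[k]` of a fixed one).
So `finrank range ≥ |F| - 1`, `2 finrank range ≥ N + 2 ≥ 2 finrank (flow G)` (`finrank_flow`), `range ≤ flow G`, so `range = flow G` (`Submodule.eq_of_le_of_finrank_le`).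
-/

set_option autoImplicit false

namespace Pool.Agent.Helper76.PK

variable {N : ℕ}

private theorem Wind_rel (G : Shadow N) (f : Fin N × Bool → ℚ) (hf : ∀ d, f (G.face d) = f d)
    (i : Fin N) (hi : G.lf i = true) :
    f (prv (G.op i), false) = f (prv i, true) ∧ f (G.op i, true) = f (i, false) ∧
      f (i, true) = f (prv (G.op i), true) ∧ f (prv i, false) = f (G.op i, false) := by
  have hop : G.lf (G.op i) = false := by rw [G.lf_op, hi]; rfl
  refine ⟨?_, ?_, ?_, ?_⟩
  · have h := hf (prv i, true)
    simpa [Shadow.face, nxt_prv, hi] using h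
  · have h := hf (i, false)
    simpa [Shadow.face, hi] using h
  · have h := hf (prv (G.op i), true)
    simpa [Shadow.face, nxt_prv, hop, G.op_op] using h
  · have h := hf (G.op i, false)
    simpa [Shadow.face, hop, G.op_op] using h

private theorem Wind_flow (G : Shadow N) (f : Fin N × Bool → ℚ) (hf : ∀ d, f (G.face d) = f d)
    (i : Fin N) :
    (f (prv i, true) - f (prv i, false)) + (f (prv (G.op i), true) - f (prv (G.op i), false)) =
      (f (i, true) - f (i, false)) + (f (G.op i, true) - f (G.op i, false)) := by
  cases h : G.lf i with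
  | true =>
    obtain ⟨h1, h2, h3, h4⟩ := Wind_rel G f hf i h
    linarith
  | false =>
    have h' : G.lf (G.op i) = true := by rw [G.lf_op, h]; rfl
    obtain ⟨h1, h2, h3, h4⟩ := Wind_rel G f hf (G.op i) h'
    rw [G.op_op] at h1 h2 h3 h4
    linarith

private theorem Wind_step (G : Shadow N) (f : Fin N × Bool → ℚ) (hf : ∀ d, f (G.face d) = f d)
    (hk : ∀ i, f (i, true) = f (i, false)) (i : Fin N) : f (prv i, true) = f (i, true) := by
  cases h : G.lf i with
  | true =>
    obtain ⟨h1, h2, h3, h4⟩ := Wind_rel G f hf i h
    have e1 := hk (prv (G.op i))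
    linarith
  | false =>
    have h' : G.lf (G.op i) = true := by rw [G.lf_op, h]; rfl
    obtain ⟨h1, h2, h3, h4⟩ := Wind_rel G f hf (G.op i) h'
    rw [G.op_op] at h1 h2 h3 h4
    have e1 := hk (prv (G.op i))
    have e2 := hk (prv i)
    have e3 := hk i
    have e4 := hk (G.op i)
    linarith

private theorem Wind_const (G : Shadow N) (f : Fin N × Bool → ℚ) (hf : ∀ d, f (G.face d) = f d)
    (hk : ∀ i, f (i, true) = f (i, false)) (hN : 0 < N) :
    ∀ (k : ℕ) (hk' : k < N), f (⟨k, hk'⟩, true) = f (⟨0, hN⟩, true) := by
  intro k
  induction k with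
  | zero => intro _; rfl
  | succ k ih =>
    intro hk'
    have h1 := Wind_step G f hf hk ⟨k + 1, hk'⟩
    have h2 : prv (⟨k + 1, hk'⟩ : Fin N) = ⟨k, by omega⟩ := by
      apply Fin.ext
      show (k + 1 + N - 1) % N = k
      have h3 : k + 1 + N - 1 = k + N := by omega
      rw [h3, Nat.add_mod_right, Nat.mod_eq_of_lt (by omega)]
    rw [h2] at h1
    rw [← h1]
    exact ih (by omega)

private noncomputable def Wind_dl (G : Shadow N) :
    ((Quot fun d d' : Fin N × Bool => d' = G.face d) → ℚ) →ₗ[ℚ] (Fin N → ℚ) where
  toFun g i := g (Quot.mk _ (i, true)) - g (Quot.mk _ (i, false))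
  map_add' := by
    intro a b
    funext i
    simp only [Pi.add_apply]
    ring
  map_smul' := by
    intro t a
    funext i
    simp only [Pi.smul_apply, smul_eq_mul, RingHom.id_apply]
    ring

private theorem Wind_inv (G : Shadow N)
    (g : (Quot fun d d' : Fin N × Bool => d' = G.face d) → ℚ) (d : Fin N × Bool) :
    g (Quot.mk _ (G.face d)) = g (Quot.mk _ d) := by
  have h : (Quot.mk (fun d d' : Fin N × Bool => d' = G.face d) d) =
      Quot.mk (fun d d' : Fin N × Bool => d' = G.face d) (G.face d) := Quot.sound rfl
  rw [h]

theorem winding (G : Shadow N) (hG : G.Planar) (c : Fin N → ℚ) (hc : c ∈ flow G) :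
    ∃ f : Fin N × Bool → ℚ, (∀ d, f (G.face d) = f d) ∧ ∀ i, f (i, true) - f (i, false) = c i := by
  classical
  have hfin : Finite (Quot fun d d' : Fin N × Bool => d' = G.face d) := Quot.finite _
  have _ : Fintype (Quot fun d d' : Fin N × Bool => d' = G.face d) := Fintype.ofFinite _
  have hcard : 2 * Nat.card (Quot fun d d' : Fin N × Bool => d' = G.face d) = N + 4 := hG
  have hN : 0 < N := by
    rcases Nat.eq_zero_or_pos N with h | h
    · subst h
      have _ : IsEmpty (Quot fun d d' : Fin 0 × Bool => d' = G.face d) := by
        constructor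
        intro q
        induction q using Quot.ind with
        | mk d => exact d.1.elim0
      rw [Nat.card_of_isEmpty] at hcard
      omega
    · exact h
  have hle : LinearMap.range (Wind_dl G) ≤ flow G := by
    rintro _ ⟨g, rfl⟩
    intro i
    exact Wind_flow G (fun d => g (Quot.mk _ d)) (Wind_inv G g) i
  have hker : LinearMap.ker (Wind_dl G) ≤
      Submodule.span ℚ {(fun _ => 1 : (Quot fun d d' : Fin N × Bool => d' = G.face d) → ℚ)} := by
    intro g hg
    rw [Submodule.mem_span_singleton]
    refine ⟨g (Quot.mk _ (⟨0, hN⟩, true)), ?_⟩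
    have hk : ∀ i, g (Quot.mk _ (i, true)) = g (Quot.mk _ (i, false)) := by
      intro i
      have h1 : Wind_dl G g i = 0 := by
        rw [LinearMap.mem_ker.mp hg]
        rfl
      have h2 : g (Quot.mk _ (i, true)) - g (Quot.mk _ (i, false)) = 0 := h1
      linarith
    funext q
    induction q using Quot.ind with
    | mk d =>
      obtain ⟨i, b⟩ := d
      have h1 := Wind_const G (fun d => g (Quot.mk _ d)) (Wind_inv G g) hk hN i.val i.isLt
      simp only [Fin.eta] at h1
      simp only [Pi.smul_apply, smul_eq_mul, mul_one]
      cases b with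
      | true => exact h1.symm
      | false => rw [← hk i]; exact h1.symm
  have hk1 : Module.finrank ℚ (LinearMap.ker (Wind_dl G)) ≤ 1 := by
    refine (Submodule.finrank_mono hker).trans ?_
    have h1 := finrank_span_le_card (R := ℚ)
      ({(fun _ => 1 : (Quot fun d d' : Fin N × Bool => d' = G.face d) → ℚ)} : Set _)
    simpa using h1
  have hrn := LinearMap.finrank_range_add_finrank_ker (Wind_dl G)
  rw [Module.finrank_fintype_fun_eq_card] at hrn
  have hfc : Fintype.card (Quot fun d d' : Fin N × Bool => d' = G.face d) =
      Nat.card (Quot fun d d' : Fin N × Bool => d' = G.face d) := Nat.card_eq_fintype_card.symm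
  have hfl := finrank_flow G
  have heq : LinearMap.range (Wind_dl G) = flow G := by
    apply Submodule.eq_of_le_of_finrank_le hle
    omega
  rw [← heq] at hc
  obtain ⟨g, hg⟩ := hc
  refine ⟨fun d => g (Quot.mk _ d), Wind_inv G g, ?_⟩
  intro i
  rw [← hg]
  rfl

end Pool.Agent.Helper76.PK
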